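import Pool.Agent.H44.LB.Main
import Pool.Agent.H44.TY.Main

/-!
# ROB => DIM for any number of Julia critical points (MP_8f2e1c), chapter A: END STATEMENTS

`lemS`: LEMMA A for every critical point `c` accumulated by the orbit of the typical point `z` (no hypothesis on the other critical
points, no minimality). `typS`: TYPES: a lift `q` of the collar of a small level 0 window which is at bounded distance of `z` and
closes after two turns comes from a univalent pull back of the whole window, so it closes after one turn; hypothesis: the critical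
points of `J` whose forward orbit meets the small ball are accumulated by `z`.
-/

set_option autoImplicit false

open Filter Topology Metric Set MeasureTheory

namespace Pool.Agent.H44.LB

open Pool.Agent.H56.UD Pool.Agent.H55.PB Pool.Agent.H56.WP Pool.Agent.H66.GEO Pool.Agent.H44.LA Pool.Agent.H44.TY

variable {f : ℂ → ℂ} {U J P Cr E : Set ℂ} {δ b0 : ℝ} {η : ℂ → ℂ → ℂ} {ρ : ℝ} {X hh μ : ℂ → ℂ}

/-- LEMMA A, general: no univalent pull back, at bounded distance of `z`, of a small window with `c` in its core -/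
theorem lemS (h : PS f U J P Cr δ η ρ) (hX : FX f U J E δ X hh μ b0) {z c : ℂ} (hz : z ∈ E) (hc : c ∈ Cr) (hrc : Rc f c z)
    {θ M : ℝ} (hθ : 0 < θ) (hθ1 : θ < 1) :
    ∃ ε0 : ℝ, 0 < ε0 ∧ ∀ (K m : ℕ) (y a : ℂ) (ε : ℝ) (Φ g : ℂ → ℂ), y ∈ J → ε ≤ ε0 → Wd f U J P δ K θ y ε Φ →
      ‖a‖ ≤ θ → Φ a = c → DifferentiableOn ℂ g (ball 0 1) →
      (∀ v ∈ ball (0 : ℂ) 1, g v ∈ dm f U J δ (m + K) ∧ f^[m] (g v) = Φ v) → ¬ ‖g 0 - z‖ ≤ M * ‖deriv g 0‖ :=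
  lem_s h hX hz hc hrc hθ hθ1

/-- TYPES, general -/
theorem typS (h : PS f U J P Cr δ η ρ) (hX : FX f U J E δ X hh μ b0) {z : ℂ} (hz : z ∈ E)
    {θ M ρa ρb : ℝ} (hθ : 0 < θ) (hθ1 : θ < 1) (ha : θ < ρa) (hb : ρb < 1) :
    ∃ ε0 : ℝ, 0 < ε0 ∧ ∀ (k : ℕ) (y : ℂ) (ε : ℝ) (Φ q : ℂ → ℂ) (ζ ζ1 : ℂ), y ∈ J → ε ≤ ε0 → Wd f U J P δ 0 θ y ε Φ →
      (∀ c' ∈ Cr, ∀ j : ℕ, f^[j] c' ∈ ball y ε → Rc f c' z) →
      DifferentiableOn ℂ q (St (Real.log θ) 0) →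
      (∀ t ∈ St (Real.log θ) 0, q t ∈ dm f U J δ k ∧ f^[k] (q t) = Φ (Complex.exp t)) →
      ζ ∈ St (Real.log θ) 0 → ρa ≤ ‖Complex.exp ζ‖ → ‖Complex.exp ζ‖ ≤ ρb → ‖q ζ - z‖ ≤ M * ‖deriv q ζ‖ →
      ζ1 ∈ St (Real.log θ) 0 → q (ζ1 + 4 * Real.pi * Complex.I) = q ζ1 →
      ∃ g : ℂ → ℂ, Un f U J δ k Φ g ∧ ∀ t ∈ St (Real.log θ) 0, q t = g (Complex.exp t) :=
  typ_gen h (fun _ _ hθ hθ1 _ hb => lemS h hX hz hb.1 hb.2 hθ hθ1) hθ hθ1 ha hb

end Pool.Agent.H44.LB
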