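import Pool.Agent.H44.LB.Defs

/-!
# Compositions of double covers

PROOFS: induction on `s`; `bet_lt`, `bet_diff`, `bet_le`, `bet_sq_le`, `dth_lt`, `dth_pos`. `bc_lip`: `bc a s` maps the disc to itself:
Schwarz lemma. `bc_out`: induction. `bc_ne`: if `bc a (s + 1)` is constant on the disc, so is `bc a s` (`bet` is onto the disc).
`bc_nu`: an ultrafilter limit of counterexamples (`bc_lim`) contradicts `bc_ne`.
-/

set_option autoImplicit false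

open Filter Topology Metric Set MeasureTheory

namespace Pool.Agent.H44.LB

open Pool.Agent.H56.UD Pool.Agent.H55.PB Pool.Agent.H56.WP

theorem ths_pos {θ : ℝ} (hθ : 0 < θ) (s : ℕ) : 0 < ths θ s := by
  induction s with
  | zero => exact hθ
  | succ s ih => exact dth_pos ih

theorem ths_lt {θ : ℝ} (hθ : 0 < θ) (hθ1 : θ < 1) (s : ℕ) : ths θ s < 1 := by
  induction s with
  | zero => exact hθ1
  | succ s ih => exact dth_lt (ths_pos hθ s) ih

theorem rds_pos {θ t : ℝ} (hθ : 0 < θ) (ht : 0 < t) (s : ℕ) : 0 < rds θ t s := by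
  induction s with
  | zero => exact ht
  | succ s ih =>
    have h1 := ths_pos hθ s
    show 0 < Real.sqrt ((ths θ s + rds θ t s) / (1 + ths θ s * rds θ t s))
    positivity

theorem rds_lt {θ t : ℝ} (hθ : 0 < θ) (hθ1 : θ < 1) (ht : 0 < t) (ht1 : t < 1) (s : ℕ) : rds θ t s < 1 := by
  induction s with
  | zero => exact ht1
  | succ s ih =>
    have h1 := ths_pos hθ s
    have h2 := ths_lt hθ hθ1 s
    have h3 := rds_pos hθ ht s
    show Real.sqrt ((ths θ s + rds θ t s) / (1 + ths θ s * rds θ t s)) < 1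
    rw [Real.sqrt_lt' one_pos, one_pow, div_lt_one (by positivity)]
    nlinarith [mul_pos (sub_pos.2 h2) (sub_pos.2 ih)]

theorem bc_lt {a : ℕ → ℂ} {s : ℕ} (ha : ∀ i < s, ‖a (i + 1)‖ < 1) {x : ℂ} (hx : ‖x‖ < 1) : ‖bc a s x‖ < 1 := by
  induction s generalizing x with
  | zero => exact hx
  | succ s ih =>
    show ‖bc a s (bet (a (s + 1)) x)‖ < 1
    exact ih (fun i hi => ha i (by omega))
      (mem_ball_zero_iff.1 (bet_lt (ha s (by omega)) (mem_ball_zero_iff.2 hx)))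

theorem bc_diff {a : ℕ → ℂ} {s : ℕ} (ha : ∀ i < s, ‖a (i + 1)‖ < 1) : DifferentiableOn ℂ (bc a s) (ball 0 1) := by
  induction s with
  | zero => exact differentiableOn_id
  | succ s ih =>
    show DifferentiableOn ℂ (fun x => bc a s (bet (a (s + 1)) x)) (ball 0 1)
    exact (ih fun i hi => ha i (by omega)).comp (bet_diff (ha s (by omega))) fun x hx => bet_lt (ha s (by omega)) hx

theorem bc_rad {θ t : ℝ} (hθ : 0 < θ) (hθ1 : θ < 1) (ht : 0 < t) (ht1 : t < 1) {a : ℕ → ℂ} {s : ℕ}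
    (ha : ∀ i < s, ‖a (i + 1)‖ ≤ ths θ i) {x : ℂ} (hx : ‖x‖ < 1) (h : ‖bc a s x‖ ≤ t) : ‖x‖ ≤ rds θ t s := by
  induction s generalizing x with
  | zero => exact h
  | succ s ih =>
    have h1 : ‖bet (a (s + 1)) x‖ ≤ rds θ t s :=
      ih (fun i hi => ha i (by omega)) (mem_ball_zero_iff.1
        (bet_lt ((ha s (by omega)).trans_lt (ths_lt hθ hθ1 s)) (mem_ball_zero_iff.2 hx))) h
    exact Real.le_sqrt_of_sq_le
      (bet_sq_le (rds_lt hθ hθ1 ht ht1 s) (ths_lt hθ hθ1 s) (ha s (by omega)) hx h1)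

theorem bc_lip {a : ℕ → ℂ} {s : ℕ} (ha : ∀ i < s, ‖a (i + 1)‖ < 1) {x : ℂ} (hx : ‖x‖ ≤ 1 / 4) :
    ‖bc a s x - bc a s 0‖ ≤ 2 * ‖x‖ := by
  have hm : MapsTo (bc a s) (ball 0 1) (closedBall (bc a s 0) 2) := by
    intro v hv
    have h1 := bc_lt ha (mem_ball_zero_iff.1 hv)
    have h2 := bc_lt ha (x := 0) (by rw [norm_zero]; exact one_pos)
    rw [mem_closedBall, dist_eq_norm]
    have := norm_sub_le (bc a s v) (bc a s 0)
    linarith
  have h3 := Complex.dist_le_div_mul_dist_of_mapsTo_ball (bc_diff ha) hm (z := x)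
    (mem_ball_zero_iff.2 (by linarith))
  rw [dist_eq_norm, dist_zero_right, div_one] at h3
  exact h3

/-- the outer factor -/
theorem bc_out {a : ℕ → ℂ} {s : ℕ} (ha : ∀ i < s + 1, ‖a (i + 1)‖ < 1) : ∃ B : ℂ → ℂ, DifferentiableOn ℂ B (ball 0 1) ∧
    (∀ x ∈ ball (0 : ℂ) 1, B x ∈ ball (0 : ℂ) 1) ∧ ∀ x, bc a (s + 1) x = bet (a 1) (B x) := by
  induction s with
  | zero => exact ⟨fun x => x, differentiableOn_id, fun x hx => hx, fun x => rfl⟩
  | succ s ih =>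
    obtain ⟨B, h1, h2, h3⟩ := ih fun i hi => ha i (by omega)
    have h4 := ha (s + 1) (by omega)
    refine ⟨fun x => B (bet (a (s + 1 + 1)) x), h1.comp (bet_diff h4) fun x hx => bet_lt h4 hx,
      fun x hx => h2 _ (bet_lt h4 hx), fun x => ?_⟩
    exact h3 _

/-- the derivative of `bet` at `0` -/
private theorem bet_d0 (α : ℂ) : HasDerivAt (bet α) 0 0 := by
  unfold bet
  have h1 : HasDerivAt (fun v : ℂ => v ^ 2 + α) 0 0 := by
    have := ((hasDerivAt_id (0 : ℂ)).pow 2).add_const α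
    simpa using this
  have h2 : HasDerivAt (fun v : ℂ => 1 + (starRingEnd ℂ) α * v ^ 2) 0 0 := by
    have := (((hasDerivAt_id (0 : ℂ)).pow 2).const_mul ((starRingEnd ℂ) α)).const_add 1
    simpa using this
  have h3 : HasDerivAt (fun v : ℂ => (v ^ 2 + α) / (1 + (starRingEnd ℂ) α * v ^ 2)) _ 0 := h1.div h2 (by simp)
  convert h3 using 1
  simp

/-- no holomorphic section over the disc -/
theorem bc_sec {a : ℕ → ℂ} {s : ℕ} (ha : ∀ i < s + 1, ‖a (i + 1)‖ < 1) {X : ℂ → ℂ} (hX : DifferentiableOn ℂ X (ball 0 1))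
    (hX1 : ∀ v ∈ ball (0 : ℂ) 1, X v ∈ ball (0 : ℂ) 1) : ¬ ∀ v ∈ ball (0 : ℂ) 1, bc a (s + 1) (X v) = v := by
  intro hs
  obtain ⟨B, h1, h2, h3⟩ := bc_out ha
  have ha1 : ‖a 1‖ < 1 := ha 0 (by omega)
  have hm : a 1 ∈ ball (0 : ℂ) 1 := mem_ball_zero_iff.2 ha1
  have hn : ball (0 : ℂ) 1 ∈ 𝓝 (a 1) := isOpen_ball.mem_nhds hm
  have hY : DifferentiableOn ℂ (fun v => B (X v)) (ball 0 1) := h1.comp hX hX1
  have hv : ∀ v ∈ ball (0 : ℂ) 1, bet (a 1) (B (X v)) = v := fun v hv => by rw [← h3, hs v hv]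
  have h4 : B (X (a 1)) = 0 := by
    have h5 := sq_of_bet ha1 (mem_ball_zero_iff.1 (h2 _ (hX1 _ hm))) ha1 (hv _ hm)
    rw [sub_self, zero_div] at h5
    exact pow_eq_zero_iff (two_ne_zero) |>.1 h5
  have h5 : HasDerivAt (fun v => B (X v)) (deriv (fun v => B (X v)) (a 1)) (a 1) :=
    (hY.differentiableAt hn).hasDerivAt
  have h6 : HasDerivAt (bet (a 1)) 0 ((fun v => B (X v)) (a 1)) := by
    show HasDerivAt (bet (a 1)) 0 (B (X (a 1)))
    rw [h4]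
    exact bet_d0 _
  have h7 := h6.comp (a 1) h5
  rw [zero_mul] at h7
  have h8 : HasDerivAt (bet (a 1) ∘ fun v => B (X v)) 1 (a 1) := by
    refine (hasDerivAt_id (a 1)).congr_of_eventuallyEq ?_
    filter_upwards [hn] with v hv'
    exact hv v hv'
  exact zero_ne_one (h7.unique h8)

theorem bc_deriv {a : ℕ → ℂ} {s : ℕ} (ha : ∀ i < s + 1, ‖a (i + 1)‖ < 1) : deriv (bc a (s + 1)) 0 = 0 := by
  have h0 : bet (a (s + 1)) 0 ∈ ball (0 : ℂ) 1 := bet_lt (ha s (by omega)) (mem_ball_self one_pos)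
  have h1 : HasDerivAt (bc a s) (deriv (bc a s) (bet (a (s + 1)) 0)) (bet (a (s + 1)) 0) :=
    ((bc_diff fun i hi => ha i (by omega)).differentiableAt (isOpen_ball.mem_nhds h0)).hasDerivAt
  have h2 := h1.comp 0 (bet_d0 (a (s + 1)))
  rw [mul_zero] at h2
  exact h2.deriv

/-- `bet` is onto the disc -/
private theorem bet_onto {α y : ℂ} (hα : ‖α‖ < 1) (hy : ‖y‖ < 1) : ∃ x : ℂ, ‖x‖ < 1 ∧ bet α x = y := by
  obtain ⟨x, hx⟩ := IsAlgClosed.exists_pow_nat_eq ((y - α) / (1 - (starRingEnd ℂ) α * y)) (n := 2) (by norm_num)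
  have hden := den_ne hα hy
  have h1 : ‖(y - α) / (1 - (starRingEnd ℂ) α * y)‖ < 1 := by
    have := mob_lt (α := -α) (w := y) (by rwa [norm_neg]) hy
    have e : (y - α) / (1 - (starRingEnd ℂ) α * y) = (y + -α) / (1 + (starRingEnd ℂ) (-α) * y) := by
      rw [map_neg]
      ring_nf
    rwa [e]
  have h2 : ‖x‖ < 1 := by
    rw [← hx, norm_pow] at h1
    by_contra hcon
    have := one_le_pow₀ (not_lt.1 hcon) (n := 2)
    linarith
  refine ⟨x, h2, ?_⟩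
  rw [bet, div_eq_iff (den_ne2 hα h2)]
  rw [eq_div_iff hden] at hx
  linear_combination hx

private theorem bc_nc {a : ℕ → ℂ} {s : ℕ} (ha : ∀ i < s, ‖a (i + 1)‖ < 1) :
    ¬ ∃ c : ℂ, ∀ x ∈ ball (0 : ℂ) 1, bc a s x = c := by
  induction s with
  | zero =>
    rintro ⟨c, hc⟩
    have h1 : (0 : ℂ) = c := hc 0 (mem_ball_self one_pos)
    have h2 : (1 / 2 : ℂ) = c := hc (1 / 2) (by rw [mem_ball_zero_iff]; norm_num)
    rw [← h1] at h2
    norm_num at h2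
  | succ s ih =>
    rintro ⟨c, hc⟩
    refine ih (fun i hi => ha i (by omega)) ⟨c, fun y hy => ?_⟩
    obtain ⟨x, hx, hxy⟩ := bet_onto (ha s (by omega)) (mem_ball_zero_iff.1 hy)
    rw [← hxy]
    exact hc x (mem_ball_zero_iff.2 hx)

/-- not constant -/
theorem bc_ne {a : ℕ → ℂ} {s : ℕ} (ha : ∀ i < s, ‖a (i + 1)‖ < 1) {r : ℝ} (hr : 0 < r) (hr1 : r ≤ 1) :
    ∃ x ∈ ball (0 : ℂ) r, bc a s x ≠ bc a s 0 := by
  by_contra hcon
  push Not at hcon
  refine bc_nc ha ⟨bc a s 0, ?_⟩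
  have h1 : AnalyticOnNhd ℂ (bc a s) (ball 0 1) := (bc_diff ha).analyticOnNhd isOpen_ball
  have h2 : EqOn (bc a s) (fun _ => bc a s 0) (ball 0 1) := by
    refine h1.eqOn_of_preconnected_of_eventuallyEq analyticOnNhd_const (convex_ball _ _).isPreconnected
      (mem_ball_self one_pos) ?_
    filter_upwards [ball_mem_nhds (0 : ℂ) hr] with x hx
    exact hcon x hx
  exact h2

private theorem bc_tend (𝒰 : Ultrafilter ℕ) {a : ℕ → ℕ → ℂ} {al : ℕ → ℂ} {s : ℕ}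
    (ha : ∀ i < s, ‖al (i + 1)‖ < 1)
    (hl : ∀ i < s, Tendsto (fun n => a n (i + 1)) (𝒰 : Filter ℕ) (𝓝 (al (i + 1)))) {x : ℂ} (hx : ‖x‖ < 1) :
    Tendsto (fun y : ℕ × ℂ => bc (a y.1) s y.2) ((𝒰 : Filter ℕ) ×ˢ 𝓝 x) (𝓝 (bc al s x)) := by
  induction s generalizing x with
  | zero => exact tendsto_snd
  | succ s ih =>
    have h1 : Tendsto (fun y : ℕ × ℂ => a y.1 (s + 1)) ((𝒰 : Filter ℕ) ×ˢ 𝓝 x) (𝓝 (al (s + 1))) :=
      (hl s (by omega)).comp tendsto_fst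
    have h2 : Tendsto (fun y : ℕ × ℂ => y.2) ((𝒰 : Filter ℕ) ×ˢ 𝓝 x) (𝓝 x) := tendsto_snd
    have h3 : Tendsto (fun y : ℕ × ℂ => bet (a y.1 (s + 1)) y.2) ((𝒰 : Filter ℕ) ×ˢ 𝓝 x) (𝓝 (bet (al (s + 1)) x)) := by
      unfold bet
      refine ((h2.pow 2).add h1).div (tendsto_const_nhds.add (((Complex.continuous_conj.tendsto _).comp h1).mul
        (h2.pow 2))) (den_ne2 (ha s (by omega)) hx)
    have h4 : Tendsto (fun y : ℕ × ℂ => (y.1, bet (a y.1 (s + 1)) y.2)) ((𝒰 : Filter ℕ) ×ˢ 𝓝 x)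
        ((𝒰 : Filter ℕ) ×ˢ 𝓝 (bet (al (s + 1)) x)) := tendsto_fst.prodMk h3
    exact (ih (fun i hi => ha i (by omega)) (fun i hi => hl i (by omega))
      (mem_ball_zero_iff.1 (bet_lt (ha s (by omega)) (mem_ball_zero_iff.2 hx)))).comp h4

/-- continuity in the parameters: pointwise limits -/
theorem bc_lim {θ : ℝ} (hθ : 0 < θ) (hθ1 : θ < 1) (𝒰 : Ultrafilter ℕ) {a : ℕ → ℕ → ℂ} {al : ℕ → ℂ} {s : ℕ}
    (ha : ∀ᶠ n in (𝒰 : Filter ℕ), ∀ i < s, ‖a n (i + 1)‖ ≤ ths θ i)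
    (hl : ∀ i < s, Tendsto (fun n => a n (i + 1)) (𝒰 : Filter ℕ) (𝓝 (al (i + 1)))) :
    TendstoLocallyUniformlyOn (fun n => bc (a n) s) (bc al s) (𝒰 : Filter ℕ) (ball 0 1) := by
  have hal : ∀ i < s, ‖al (i + 1)‖ < 1 := fun i hi =>
    (le_of_tendsto (hl i hi).norm (ha.mono fun n hn => hn i hi)).trans_lt (ths_lt hθ hθ1 i)
  rw [tendstoLocallyUniformlyOn_iff_forall_tendsto]
  intro x hx
  have h1 : Tendsto (fun y : ℕ × ℂ => bc (a y.1) s y.2) ((𝒰 : Filter ℕ) ×ˢ 𝓝[ball 0 1] x) (𝓝 (bc al s x)) :=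
    (bc_tend 𝒰 hal hl (mem_ball_zero_iff.1 hx)).mono_left (prod_mono le_rfl nhdsWithin_le_nhds)
  have h2 : Tendsto (fun y : ℕ × ℂ => bc al s y.2) ((𝒰 : Filter ℕ) ×ˢ 𝓝[ball 0 1] x) (𝓝 (bc al s x)) :=
    ((bc_diff hal).continuousOn x hx).tendsto.comp tendsto_snd
  exact (h2.prodMk_nhds h1).mono_right (nhds_le_uniformity _)

/-- uniformly not constant: for the frames -/
theorem bc_nu {θ r : ℝ} (hθ : 0 < θ) (hθ1 : θ < 1) (hr : 0 < r) (hr1 : r ≤ 1) (s : ℕ) : ∃ κ : ℝ, 0 < κ ∧ ∀ a : ℕ → ℂ,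
    (∀ i < s, ‖a (i + 1)‖ ≤ ths θ i) → ∃ x ∈ ball (0 : ℂ) r, κ ≤ ‖bc a s x - bc a s 0‖ := by
  by_contra hcon
  push Not at hcon
  choose! a ha1 ha2 using fun n : ℕ => hcon (1 / ((n : ℝ) + 1)) (by positivity)
  let 𝒰 : Ultrafilter ℕ := hyperfilter ℕ
  have hex : ∀ i : ℕ, ∃ b : ℂ, i < s → Tendsto (fun n => a n (i + 1)) (𝒰 : Filter ℕ) (𝓝 b) := by
    intro i
    by_cases hi : i < s
    · have h0 : closedBall (0 : ℂ) (ths θ i) ∈ 𝒰.map fun n => a n (i + 1) := by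
        rw [Ultrafilter.mem_map]
        refine Filter.univ_mem' fun n => ?_
        show a n (i + 1) ∈ closedBall (0 : ℂ) (ths θ i)
        rw [mem_closedBall_zero_iff]
        exact ha1 n i hi
      obtain ⟨b, -, hb⟩ := (isCompact_closedBall (0 : ℂ) (ths θ i)).ultrafilter_le_nhds' (𝒰.map fun n => a n (i + 1)) h0
      exact ⟨b, fun _ => hb⟩
    · exact ⟨0, fun h => absurd h hi⟩
  choose b hb using hex
  let al : ℕ → ℂ := fun i => b (i - 1)
  have hl : ∀ i < s, Tendsto (fun n => a n (i + 1)) (𝒰 : Filter ℕ) (𝓝 (al (i + 1))) := fun i hi => hb i hi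
  have hal : ∀ i < s, ‖al (i + 1)‖ < 1 := fun i hi =>
    (le_of_tendsto (hl i hi).norm (Eventually.of_forall fun n => ha1 n i hi)).trans_lt (ths_lt hθ hθ1 i)
  have hlim := bc_lim hθ hθ1 𝒰 (Eventually.of_forall ha1) hl
  obtain ⟨x, hx, hne⟩ := bc_ne hal hr hr1
  have hx1 : x ∈ ball (0 : ℂ) 1 := ball_subset_ball hr1 hx
  have h1 := (hlim.tendsto_at hx1).sub (hlim.tendsto_at (mem_ball_self one_pos))
  have h2 : Tendsto (fun n : ℕ => 1 / ((n : ℝ) + 1)) (𝒰 : Filter ℕ) (𝓝 0) :=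
    tendsto_one_div_add_atTop_nhds_zero_nat.mono_left (by
      rw [← Nat.cofinite_eq_atTop]
      exact hyperfilter_le_cofinite)
  have h3 : ‖bc al s x - bc al s 0‖ ≤ 0 :=
    le_of_tendsto_of_tendsto h1.norm h2 (Eventually.of_forall fun n => (ha2 n x hx).le)
  exact hne (sub_eq_zero.1 (norm_le_zero_iff.1 h3))

end Pool.Agent.H44.LB
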