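import Pool.Agent.H44.LB.Defs
import Pool.Agent.H66.GEO.STR1

/-!
# Compositions of double covers: connected sublevel sets, number of preimages

PROOF of `bc_conn`. Induction, `bc_sq`: `S ⊆ ball 0 1` open, preconnected, `α ∈ S` implies `R = {x ∈ ball 0 1 | bet α x ∈ S}`
preconnected. `bc_sq`: if `R` is covered by two open sets, disjoint in `R`, both meeting `R`, then the image of each part under `bet α` is open and
closed in `S` (`bet α` is open and proper), so it contains `α`, whose only preimage is `0`: contradiction.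
PROOF of `bc_up`, `bc_lo`: induction; `bet α x = w` has at most two solutions in the disc, exactly two if `w ≠ α`.
-/

set_option autoImplicit false

open Filter Topology Metric Set MeasureTheory

namespace Pool.Agent.H44.LB

open Pool.Agent.H56.UD Pool.Agent.H55.PB Pool.Agent.H56.WP

private theorem b_eq (a x : ℂ) : bet a x = Pool.Agent.H66.GEO.Bl 1 a x := by
  simp [bet, Pool.Agent.H66.GEO.Bl]

private theorem b_ball {a x : ℂ} (ha : ‖a‖ < 1) (hx : ‖x‖ < 1) : ‖bet a x‖ < 1 := by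
  rw [b_eq]
  exact Pool.Agent.H66.GEO.bl_ball (by simp) ha hx

private theorem b_dif {a : ℂ} (ha : ‖a‖ < 1) : DifferentiableOn ℂ (bet a) (ball 0 1) := by
  have : bet a = Pool.Agent.H66.GEO.Bl 1 a := funext fun x => b_eq a x
  rw [this]
  exact Pool.Agent.H66.GEO.bl_dif ha

private theorem b_near {a : ℂ} (ha : ‖a‖ < 1) {t : ℝ} (h1 : t < 1) :
    ∃ ρ : ℝ, 0 < ρ ∧ ρ < 1 ∧ ∀ x : ℂ, ρ < ‖x‖ → ‖x‖ < 1 → t < ‖bet a x‖ := by
  obtain ⟨ρ, h2, h3, h4⟩ := Pool.Agent.H66.GEO.bb_near (ω := fun _ => 1) (α := fun _ => a) (by simp) (fun _ => ha) 1 h1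
  refine ⟨ρ, h2, h3, fun x hx1 hx2 => ?_⟩
  have h5 := h4 x hx1 hx2
  rw [b_eq]
  exact h5

/-- the preimages under one map -/
private theorem b_pre {a w : ℂ} (ha : ‖a‖ < 1) (hw : ‖w‖ < 1) : ∃ q : ℂ, ‖q‖ < 1 ∧ (q = 0 ↔ w = a) ∧
    ∀ x : ℂ, ‖x‖ < 1 → (bet a x = w ↔ x = q ∨ x = - q) := by
  obtain ⟨q, hq⟩ : ∃ q : ℂ, q ^ 2 = Pool.Agent.H66.GEO.mm 1 a w := by
    obtain ⟨q, hq⟩ := IsAlgClosed.exists_pow_nat_eq (Pool.Agent.H66.GEO.mm 1 a w) (n := 2) (by norm_num)
    exact ⟨q, hq⟩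
  have hm : ‖Pool.Agent.H66.GEO.mm 1 a w‖ < 1 := Pool.Agent.H66.GEO.mm_ball (by simp) ha hw
  refine ⟨q, ?_, ?_, ?_⟩
  · rw [← hq, norm_pow] at hm
    by_contra hcon
    push Not at hcon
    have : 1 ≤ ‖q‖ ^ 2 := one_le_pow₀ hcon
    linarith
  · have h0 := Pool.Agent.H66.GEO.mm_zero (ω := 1) (by simp) ha hw
    rw [one_mul] at h0
    rw [← h0, ← hq]
    simp
  · intro x hx
    rw [b_eq, Pool.Agent.H66.GEO.mm_bl (by simp) ha hx hw, ← hq]
    exact sq_eq_sq_iff_eq_or_eq_neg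

private theorem c_ball {a : ℕ → ℂ} {s : ℕ} (ha : ∀ i < s, ‖a (i + 1)‖ < 1) {x : ℂ} (hx : ‖x‖ < 1) : ‖bc a s x‖ < 1 := by
  induction s generalizing x with
  | zero => exact hx
  | succ s ih => exact ih (fun i hi => ha i (by omega)) (b_ball (ha s (by omega)) hx)

private theorem c_dif {a : ℕ → ℂ} {s : ℕ} (ha : ∀ i < s, ‖a (i + 1)‖ < 1) : DifferentiableOn ℂ (bc a s) (ball 0 1) := by
  induction s with
  | zero => exact differentiableOn_id
  | succ s ih =>
    have h1 := (ih (fun i hi => ha i (by omega))).comp (b_dif (ha s (by omega))) (fun x hx => by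
      simpa using b_ball (ha s (by omega)) (by simpa using hx))
    exact h1

/-- `bet` is onto the disc -/
theorem bet_onto {α w : ℂ} (hα : ‖α‖ < 1) (hw : ‖w‖ < 1) : ∃ x : ℂ, ‖x‖ < 1 ∧ bet α x = w := by
  obtain ⟨q, h1, -, h2⟩ := b_pre hα hw
  exact ⟨q, h1, (h2 q h1).2 (Or.inl rfl)⟩

private theorem b_conn {a : ℂ} (ha : ‖a‖ < 1) {V : Set ℂ} (hV : IsOpen V) (hVc : IsPreconnected V) (hVa : a ∈ V)
    (hVb : V ⊆ ball 0 1) : IsPreconnected {x : ℂ | ‖x‖ < 1 ∧ bet a x ∈ V} := by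
  set S : Set ℂ := {x : ℂ | ‖x‖ < 1 ∧ bet a x ∈ V} with hS
  have hcont : ContinuousOn (bet a) (ball 0 1) := (b_dif ha).continuousOn
  have hSo : IsOpen S := by
    have h1 := hcont.isOpen_inter_preimage isOpen_ball hV
    have h2 : S = ball 0 1 ∩ bet a ⁻¹' V := by
      ext x
      simp [hS]
    rw [h2]
    exact h1
  have h00 : bet a 0 = a := by simp [bet]
  -- the image of an open subset is open
  have hop : ∀ A : Set ℂ, IsOpen A → A ⊆ ball 0 1 → IsOpen (bet a '' A) := by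
    intro A hA hAb
    have hanal : AnalyticOnNhd ℂ (bet a) (ball 0 1) := (b_dif ha).analyticOnNhd isOpen_ball
    rcases hanal.is_constant_or_isOpen (convex_ball 0 1).isPreconnected with ⟨w, hw⟩ | h
    · exfalso
      obtain ⟨q, hq1, hq2, hq3⟩ := b_pre ha (w := w) (by
        rw [← hw 0 (by simp)]
        exact b_ball ha (by simp))
      have e1 := (hq3 0 (by simp)).1 (hw 0 (by simp))
      have hq0 : q = 0 := by
        rcases e1 with h | h
        · exact h.symm
        · simpa using h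
      have e2 := (hq3 (1 / 2) (by norm_num)).1 (hw (1 / 2) (by simp; norm_num))
      rw [hq0] at e2
      rcases e2 with h | h <;> norm_num at h
    · exact h A hAb hA
  intro u v hu hv hSuv ⟨x1, hx1S, hx1u⟩ ⟨x2, hx2S, hx2v⟩
  by_contra hcon
  rw [Set.not_nonempty_iff_eq_empty] at hcon
  -- both parts are mapped onto `V`
  have key : ∀ u v : Set ℂ, IsOpen u → IsOpen v → S ⊆ u ∪ v → S ∩ (u ∩ v) = ∅ → (S ∩ u).Nonempty → (0 : ℂ) ∈ u := by
    intro u v hu hv hSuv hcon ⟨x1, hx1S, hx1u⟩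
    have hA : IsOpen (bet a '' (S ∩ u)) := hop _ (hSo.inter hu) fun x hx => by
      simpa using hx.1.1
    have hcl : ∀ w ∈ V, w ∈ closure (bet a '' (S ∩ u)) → w ∈ bet a '' (S ∩ u) := by
      intro w hw hwc
      rw [mem_closure_iff_seq_limit] at hwc
      obtain ⟨y, hy1, hy2⟩ := hwc
      choose x hx1 hx2 using hy1
      have hw1 : ‖w‖ < 1 := by simpa using hVb hw
      obtain ⟨t, ht1, ht2⟩ := exists_between hw1
      obtain ⟨ρ, hρ0, hρ1, hρ⟩ := b_near ha ht2
      have hρ' : ∀ x : ℂ, ρ < ‖x‖ → ‖x‖ < 1 → t < ‖bet a x‖ := hρ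
      have hev : ∀ᶠ n in atTop, x n ∈ closedBall (0 : ℂ) ρ := by
        have h1 : Tendsto (fun n => ‖y n‖) atTop (𝓝 ‖w‖) := (continuous_norm.tendsto w).comp hy2
        have h2 : ∀ᶠ n in atTop, ‖y n‖ < t := h1.eventually_lt_const ht1
        filter_upwards [h2] with n hn
        rw [mem_closedBall_zero_iff]
        by_contra hc
        push Not at hc
        have h3 := hρ' (x n) hc (hx1 n).1.1
        rw [hx2 n] at h3
        linarith
      obtain ⟨N, hN⟩ := eventually_atTop.1 hev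
      obtain ⟨p, hp, φ, hφ, hlim⟩ := (isCompact_closedBall (0 : ℂ) ρ).tendsto_subseq (x := fun n => x (n + N))
        (fun n => hN _ (Nat.le_add_left _ _))
      have hp1 : ‖p‖ < 1 := by
        rw [mem_closedBall_zero_iff] at hp
        linarith
      have hbp : bet a p = w := by
        have h1 : Tendsto (fun n => bet a (x (φ n + N))) atTop (𝓝 (bet a p)) := by
          have h2 : ContinuousAt (bet a) p := hcont.continuousAt (isOpen_ball.mem_nhds (by simpa using hp1))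
          exact h2.tendsto.comp hlim
        have h3 : Tendsto (fun n => bet a (x (φ n + N))) atTop (𝓝 w) := by
          have h4 : Tendsto (fun n => φ n + N) atTop atTop := tendsto_atTop_mono (fun n => Nat.le_add_right _ _) hφ.tendsto_atTop
          have h5 := hy2.comp h4
          refine h5.congr fun n => ?_
          exact (hx2 _).symm
        exact tendsto_nhds_unique h1 h3
      have hpS : p ∈ S := ⟨hp1, by rw [hbp]; exact hw⟩
      refine ⟨p, ⟨hpS, ?_⟩, hbp⟩
      -- `p ∉ v`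
      rcases hSuv hpS with h | h
      · exact h
      · exfalso
        have h1 : ∀ᶠ n in atTop, x (φ n + N) ∈ v := hlim.eventually (hv.mem_nhds h)
        obtain ⟨n, hn⟩ := h1.exists
        have h2 : x (φ n + N) ∈ S ∩ (u ∩ v) := ⟨(hx1 _).1, (hx1 _).2, hn⟩
        rw [hcon] at h2
        exact h2
    -- `V ⊆ image`
    have hsub : V ⊆ bet a '' (S ∩ u) := by
      have hB : IsOpen (closure (bet a '' (S ∩ u)))ᶜ := isClosed_closure.isOpen_compl
      by_contra hns
      rw [Set.not_subset] at hns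
      obtain ⟨w, hwV, hwn⟩ := hns
      have hcov : V ⊆ bet a '' (S ∩ u) ∪ (closure (bet a '' (S ∩ u)))ᶜ := by
        intro w' hw'
        by_cases h : w' ∈ closure (bet a '' (S ∩ u))
        · exact Or.inl (hcl w' hw' h)
        · exact Or.inr h
      obtain ⟨q, hq1, hq2, hq3⟩ := hVc _ _ hA hB hcov ⟨bet a x1, hx1S.2, x1, ⟨hx1S, hx1u⟩, rfl⟩
        ⟨w, hwV, fun h => hwn (hcl w hwV h)⟩
      exact hq3 (subset_closure hq2)
    obtain ⟨p, hp1, hp2⟩ := hsub hVa
    obtain ⟨q, hq1, hq2, hq3⟩ := b_pre ha ha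
    have hq0 : q = 0 := hq2.2 rfl
    have e1 := (hq3 p hp1.1.1).1 hp2
    rw [hq0] at e1
    have : p = 0 := by simpa using e1
    rw [← this]
    exact hp1.2
  have k1 := key u v hu hv hSuv hcon ⟨x1, hx1S, hx1u⟩
  have k2 := key v u hv hu (by rw [union_comm]; exact hSuv) (by rw [inter_comm v u]; exact hcon) ⟨x2, hx2S, hx2v⟩
  have : (0 : ℂ) ∈ S ∩ (u ∩ v) := ⟨⟨by simp, by rw [h00]; exact hVa⟩, k1, k2⟩
  rw [hcon] at this
  exact this

theorem bc_sq {α : ℂ} (hα : ‖α‖ < 1) {S : Set ℂ} (hS : IsOpen S) (hS1 : S ⊆ ball 0 1) (hc : IsPreconnected S) (hαS : α ∈ S) :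
    IsPreconnected {x : ℂ | x ∈ ball (0 : ℂ) 1 ∧ bet α x ∈ S} := by
  have h := b_conn hα hS hc hαS hS1
  convert h using 1
  ext x
  simp

/-- the sublevel sets are connected -/
theorem bc_conn {a : ℕ → ℂ} {s : ℕ} {t : ℝ} (ha : ∀ i < s, ‖a (i + 1)‖ < 1) (hat : ∀ i < s, ‖bc a i (a (i + 1))‖ < t)
    (ht : 0 < t) (ht1 : t ≤ 1) : IsPreconnected {x : ℂ | x ∈ ball (0 : ℂ) 1 ∧ ‖bc a s x‖ < t} := by
  induction s with
  | zero =>
    have : {x : ℂ | x ∈ ball (0 : ℂ) 1 ∧ ‖bc a 0 x‖ < t} = ball 0 t := by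
      ext x
      simp only [bc, mem_ofPred_eq, mem_ball_zero_iff]
      constructor
      · exact fun h => h.2
      · exact fun h => ⟨by linarith, h⟩
    rw [this]
    exact (convex_ball 0 t).isPreconnected
  | succ s ih =>
    have ha' : ∀ i < s, ‖a (i + 1)‖ < 1 := fun i hi => ha i (by omega)
    have h1 := ih ha' fun i hi => hat i (by omega)
    have h2 : IsOpen {x : ℂ | x ∈ ball (0 : ℂ) 1 ∧ ‖bc a s x‖ < t} := by
      have h3 := (c_dif ha').continuousOn.isOpen_inter_preimage isOpen_ball (isOpen_ball (x := (0 : ℂ)) (ε := t))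
      convert h3 using 1
      ext x
      simp
    have h4 := bc_sq (ha s (by omega)) h2 (fun x hx => hx.1) h1 ⟨by simpa using ha s (by omega), hat s (by omega)⟩
    convert h4 using 1
    ext x
    simp only [mem_ofPred_eq, bc, mem_ball_zero_iff]
    constructor
    · exact fun h => ⟨h.1, b_ball (ha s (by omega)) h.1, h.2⟩
    · exact fun h => ⟨h.1, h.2.2⟩

private theorem c_up {a : ℕ → ℂ} {s : ℕ} (ha : ∀ i < s, ‖a (i + 1)‖ < 1) (w : ℂ) :
    ∃ T : Finset ℂ, T.card ≤ 2 ^ s ∧ ∀ x : ℂ, ‖x‖ < 1 → bc a s x = w → x ∈ T := by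
  classical
  induction s with
  | zero => exact ⟨{w}, by simp, fun x _ h => by simpa [bc] using h⟩
  | succ s ih =>
    obtain ⟨T, hT1, hT2⟩ := ih fun i hi => ha i (by omega)
    have has : ‖a (s + 1)‖ < 1 := ha s (by omega)
    have hq : ∀ z : ℂ, ∃ q : ℂ, ‖z‖ < 1 → ∀ x : ℂ, ‖x‖ < 1 → (bet (a (s + 1)) x = z ↔ x = q ∨ x = - q) := by
      intro z
      by_cases hz : ‖z‖ < 1
      · obtain ⟨q, -, -, h⟩ := b_pre has hz
        exact ⟨q, fun _ => h⟩
      · exact ⟨0, fun h => absurd h hz⟩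
    choose q hq using hq
    refine ⟨T.biUnion fun z => {q z, - q z}, ?_, ?_⟩
    · calc (T.biUnion fun z => {q z, - q z}).card ≤ ∑ z ∈ T, ({q z, - q z} : Finset ℂ).card := Finset.card_biUnion_le
        _ ≤ ∑ _z ∈ T, 2 := Finset.sum_le_sum fun z _ => Finset.card_le_two
        _ = T.card * 2 := by simp
        _ ≤ 2 ^ s * 2 := Nat.mul_le_mul_right 2 hT1
        _ = 2 ^ (s + 1) := by rw [pow_succ]
    · intro x hx h
      have h1 : bet (a (s + 1)) x ∈ T := hT2 _ (b_ball has hx) h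
      rw [Finset.mem_biUnion]
      refine ⟨_, h1, ?_⟩
      have := (hq _ (b_ball has hx) x hx).1 rfl
      simpa using this

/-- at most `2 ^ s` preimages -/
theorem bc_up {a : ℕ → ℂ} {s : ℕ} (ha : ∀ i < s, ‖a (i + 1)‖ < 1) {w : ℂ} (F : Finset ℂ)
    (hF : ∀ x ∈ F, x ∈ ball (0 : ℂ) 1 ∧ bc a s x = w) : F.card ≤ 2 ^ s := by
  obtain ⟨T, hT1, hT2⟩ := c_up ha w
  refine le_trans (Finset.card_le_card fun x hx => ?_) hT1
  exact hT2 x (by simpa using (hF x hx).1) (hF x hx).2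

/-- `2 ^ s` preimages of the points which are not critical values -/
theorem bc_lo {a : ℕ → ℂ} {s : ℕ} (ha : ∀ i < s, ‖a (i + 1)‖ < 1) {w : ℂ} (hw : ‖w‖ < 1)
    (hn : ∀ i < s, bc a i (a (i + 1)) ≠ w) : ∃ F : Finset ℂ, F.card = 2 ^ s ∧ ∀ x ∈ F, x ∈ ball (0 : ℂ) 1 ∧ bc a s x = w := by
  classical
  induction s with
  | zero => exact ⟨{w}, by simp, fun x h => by
      rw [Finset.mem_singleton] at h
      subst h
      exact ⟨by simpa using hw, rfl⟩⟩
  | succ s ih =>
    obtain ⟨T, hT1, hT2⟩ := ih (fun i hi => ha i (by omega)) fun k hk => hn k (by omega)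
    have has : ‖a (s + 1)‖ < 1 := ha s (by omega)
    have hq : ∀ z : ℂ, ∃ q : ℂ, z ∈ T → ‖q‖ < 1 ∧ q ≠ 0 ∧
        ∀ x : ℂ, ‖x‖ < 1 → (bet (a (s + 1)) x = z ↔ x = q ∨ x = - q) := by
      intro z
      by_cases hz : z ∈ T
      · obtain ⟨q, h1, h2, h⟩ := b_pre has (by simpa using (hT2 z hz).1 : ‖z‖ < 1)
        refine ⟨q, fun _ => ⟨h1, fun h0 => ?_, h⟩⟩
        have h3 := h2.1 h0
        have h4 := (hT2 z hz).2
        rw [h3] at h4
        exact hn s (by omega) h4
      · exact ⟨0, fun h => absurd h hz⟩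
    choose q hq using hq
    have hnm : ∀ z ∈ T, ∀ x : ℂ, x = q z ∨ x = - q z → ‖x‖ < 1 := by
      intro z hz x hx
      rcases hx with h | h
      · rw [h]; exact (hq z hz).1
      · rw [h, norm_neg]; exact (hq z hz).1
    refine ⟨T.biUnion fun z => {q z, - q z}, ?_, ?_⟩
    · rw [Finset.card_biUnion]
      · have : ∀ z ∈ T, ({q z, - q z} : Finset ℂ).card = 2 := by
          intro z hz
          apply Finset.card_pair
          intro h
          have h0 := (hq z hz).2.1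
          apply h0
          have : (2 : ℂ) * q z = 0 := by linear_combination h
          simpa using this
        rw [Finset.sum_congr rfl this]
        simp [hT1, pow_succ]
      · intro z hz w' hw' hzw
        rw [Function.onFun, Finset.disjoint_left]
        intro x hx1 hx2
        simp only [Finset.mem_insert, Finset.mem_singleton] at hx1 hx2
        have e1 : ‖x‖ < 1 := hnm z hz x hx1
        have e2 := ((hq z hz).2.2 x e1).2 hx1
        have e3 := ((hq w' hw').2.2 x e1).2 hx2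
        exact hzw (e2.symm.trans e3)
    · intro x hx
      rw [Finset.mem_biUnion] at hx
      obtain ⟨z, hz, hx1⟩ := hx
      simp only [Finset.mem_insert, Finset.mem_singleton] at hx1
      have e1 : ‖x‖ < 1 := hnm z hz x hx1
      refine ⟨by simpa using e1, ?_⟩
      show bc a s (bet (a (s + 1)) x) = w
      rw [((hq z hz).2.2 x e1).2 hx1]
      exact (hT2 z hz).2

end Pool.Agent.H44.LB
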