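import Pool.Agent.H44.LB.Tow

/-!
# LEMMA A*: two windows of the tower around the same critical point cross, their sizes are comparable

PROOF of `tw_att`. `V = Θ s' '' {v | .. ‖bc a s' v‖ < t}` is open (`image_open`), contains `Θ s' 0 ∈ Cr ⊆ J` (`tw_P`: `‖bc a s' 0‖ ≤ θ`),
`f^[k s' - k s] '' V ⊆ Θ s '' {..} ⊆ V` (`tw_sub`): `noatt` (H18/LA/Ncv) for the window `Θ s'`.
PROOF of `tw_vis`. Otherwise `f^[N - k s'] z = Θ s v`, `‖bc a s v‖ ≤ t`, so `f^[N - k s' + k s] z = Φ (bc a s v)`, `N - k s' + k s < N`: univalent visit (`Bd.fst`): `g'`, `f^[N - k s' + k s] (g' w) = Φ w`, `g' (bc a s v) = z`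
(`Φ` injective). `σ w = f^[N - k s'] (g' w)`: `f^[k s] (σ w) = Φ w`, `σ (bc a s v) = Θ s v`. `A = {w ∈ ball 0 1 | ∃ x ∈ ball 0 1, Θ s x = σ w ∧ bc a s x = w}` is open (`Θ s` is open; `f^[k s] (Θ s x) = Φ (bc a s x)`, `Φ` injective) and
closed in `ball 0 1` (`bc_rad`): `A = ball 0 1`; `X = (Θ s)⁻¹ ∘ σ` is holomorphic (`inv_ex`): contradiction to `bc_sec`.
PROOF of `tw_siz`. `tw_att`: a point `Θ s v`, `‖bc a s v‖ < t`, `‖v‖ ≤ rds θ t s`, not in `Θ s' '' ball 0 r`, `r = min (1 / 4) ((t - θ) / 2)` (`bc_lip`, `tw_P`): so not in `ball (Θ s' 0) (r ‖deriv (Θ s') 0‖ / 16)` (`univ_cover`, as in `inc`), and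
`‖Θ s v - Θ s 0‖ ≤ C ‖deriv (Θ s) 0‖` (`dis`). `tw_vis`: the same with `s`, `s'` exchanged.
-/

set_option autoImplicit false

open Filter Topology Metric Set MeasureTheory

namespace Pool.Agent.H44.LB

open Pool.Agent.H56.UD Pool.Agent.H55.PB Pool.Agent.H56.WP
open Pool.Agent.H80.AJ (univ_cover)
open Pool.Agent.H47.TH (image_open)
open Pool.Agent.H18.LA (dis inv_ex noatt)

variable {f : ℂ → ℂ} {U J P Cr E : Set ℂ} {δ b0 : ℝ} {η : ℂ → ℂ → ℂ} {ρ : ℝ} {X hh μ : ℂ → ℂ}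

/-- windows over smaller balls -/
private theorem wd_mono {K : ℕ} {θ ε ε' : ℝ} {y : ℂ} {Φ : ℂ → ℂ} (hW : Wd f U J P δ K θ y ε Φ) (he : ε ≤ ε') :
    Wd f U J P δ K θ y ε' Φ :=
  ⟨hW.diff, hW.inj, fun v hv => ⟨(hW.val v hv).1, ball_subset_ball he (hW.val v hv).2⟩, hW.col⟩

/-- iterates are holomorphic along orbits in `U` -/
private theorem it_diff (h : PS f U J P Cr δ η ρ) {g : ℂ → ℂ} (hg : DifferentiableOn ℂ g (ball 0 1)) (j : ℕ)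
    (hU : ∀ v ∈ ball (0 : ℂ) 1, ∀ i < j, f^[i] (g v) ∈ U) : DifferentiableOn ℂ (fun v => f^[j] (g v)) (ball 0 1) := by
  induction j with
  | zero => simpa using hg
  | succ j ih =>
    have h1 := ih fun v hv i hi => hU v hv i (by omega)
    have h2 : (fun v => f^[j + 1] (g v)) = fun v => f (f^[j] (g v)) := by
      funext v
      rw [Function.iterate_succ_apply']
    rw [h2]
    exact h.fd.comp h1 fun v hv => hU v hv j (by omega)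

/-- the critical points are in the core -/
private theorem bc_zero (h : PS f U J P Cr δ η ρ) {θ : ℝ} (hθ : 0 < θ) (hθ1 : θ < 1) {K : ℕ} {y : ℂ} {ε : ℝ} {Φ : ℂ → ℂ} {z : ℂ}
    {N : ℕ} {u0 : ℂ} {S : ℕ} {k : ℕ → ℕ} {c a x : ℕ → ℂ} {Θ : ℕ → ℂ → ℂ}
    (tw : Tw f U J P Cr δ K θ y ε Φ z N u0 S k c a x Θ) {s : ℕ} (hs : 1 ≤ s) (hS : s ≤ S) : ‖bc a s 0‖ ≤ θ := by
  obtain ⟨s, rfl⟩ : ∃ r, s = r + 1 := ⟨s - 1, by omega⟩
  have h1 := tw_P h hθ hθ1 tw (s := s) (by omega)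
  have h2 : bc a (s + 1) 0 = bc a s (a (s + 1)) := by
    rw [bc, bet]
    simp
  rw [h2]
  exact h1

/-- the open cores -/
private theorem core_open {θ : ℝ} (hθ : 0 < θ) (hθ1 : θ < 1) {K : ℕ} {y : ℂ} {ε : ℝ} {Φ : ℂ → ℂ} {z : ℂ}
    {N : ℕ} {u0 : ℂ} {S : ℕ} {k : ℕ → ℕ} {c a x : ℕ → ℂ} {Θ : ℕ → ℂ → ℂ}
    (tw : Tw f U J P Cr δ K θ y ε Φ z N u0 S k c a x Θ) {s : ℕ} (hS : s ≤ S) (t : ℝ) :
    IsOpen {w : ℂ | w ∈ ball (0 : ℂ) 1 ∧ ‖bc a s w‖ < t} := by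
  have h1 : ContinuousOn (fun w => ‖bc a s w‖) (ball 0 1) := (bc_diff (tw_a1 hθ hθ1 tw hS)).continuousOn.norm
  have h2 := h1.isOpen_inter_preimage isOpen_ball (isOpen_Iio (a := t))
  exact h2

/-- small discs are in the core -/
private theorem core_small (h : PS f U J P Cr δ η ρ) {θ t r : ℝ} (hθ : 0 < θ) (hθ1 : θ < 1) (hr4 : r ≤ 1 / 4) (hrt : r ≤ (t - θ) / 2)
    {K : ℕ} {y : ℂ} {ε : ℝ} {Φ : ℂ → ℂ} {z : ℂ}
    {N : ℕ} {u0 : ℂ} {S : ℕ} {k : ℕ → ℕ} {c a x : ℕ → ℂ} {Θ : ℕ → ℂ → ℂ}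
    (tw : Tw f U J P Cr δ K θ y ε Φ z N u0 S k c a x Θ) {s : ℕ} (hs : 1 ≤ s) (hS : s ≤ S) {w : ℂ} (hw : w ∈ ball (0 : ℂ) r) :
    w ∈ ball (0 : ℂ) 1 ∧ ‖bc a s w‖ < t := by
  have h0 := bc_zero h hθ hθ1 tw hs hS
  have hw' := mem_ball_zero_iff.1 hw
  refine ⟨mem_ball_zero_iff.2 (by linarith), ?_⟩
  have h1 := bc_lip (tw_a1 hθ hθ1 tw hS) (x := w) (by linarith)
  have h2 : ‖bc a s w‖ ≤ ‖bc a s w - bc a s 0‖ + ‖bc a s 0‖ := by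
    have := norm_add_le (bc a s w - bc a s 0) (bc a s 0)
    rwa [sub_add_cancel] at this
  linarith

theorem tw_att (h : PS f U J P Cr δ η ρ) {θ t : ℝ} (hθ : 0 < θ) (hθ1 : θ < 1) (ht : θ < t) (ht1 : t < 1) :
    ∃ ε0 : ℝ, 0 < ε0 ∧ ∀ (K : ℕ) (y : ℂ) (ε : ℝ) (Φ : ℂ → ℂ) (z : ℂ) (N : ℕ) (u0 : ℂ) (S : ℕ) (k : ℕ → ℕ) (c a x : ℕ → ℂ)
      (Θ : ℕ → ℂ → ℂ) (s s' : ℕ), y ∈ J → ε ≤ ε0 → Tw f U J P Cr δ K θ y ε Φ z N u0 S k c a x Θ → 1 ≤ s → s < s' → s' ≤ S →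
      c s = c s' → ∃ v ∈ ball (0 : ℂ) 1, ‖bc a s v‖ < t ∧ Θ s v ∉ Θ s' '' {w : ℂ | w ∈ ball (0 : ℂ) 1 ∧ ‖bc a s' w‖ < t} := by
  obtain ⟨ε0, hε0, hno⟩ := noatt h
  refine ⟨ε0, hε0, ?_⟩
  intro K y ε Φ z N u0 S k c a x Θ s s' hy hε tw hs hss hS hc
  by_contra hcon
  push Not at hcon
  have hW := wd_mono (tw.wd s' hS) hε
  have hsub : {w : ℂ | w ∈ ball (0 : ℂ) 1 ∧ ‖bc a s' w‖ < t} ⊆ ball 0 1 := fun w hw => hw.1
  refine hno (K + k s') (k s' - k s) (ths θ s') y (Θ s') (Θ s' '' {w : ℂ | w ∈ ball (0 : ℂ) 1 ∧ ‖bc a s' w‖ < t}) hW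
    (image_open hW.diff hW.inj hsub (core_open hθ hθ1 tw hS t)) ?_ (image_mono hsub) ?_ ?_
  · refine ⟨Θ s' 0, ⟨0, ⟨mem_ball_self one_pos, ?_⟩, rfl⟩, ?_⟩
    · exact (bc_zero h hθ hθ1 tw (by omega) hS).trans_lt ht
    · obtain ⟨r, hr⟩ : ∃ r, s' = r + 1 := ⟨s' - 1, by omega⟩
      have h1 := tw.cc r (by omega)
      rw [hr, h1.2]
      exact h.CJ h1.1
  · have := tw_k tw hss hS
    omega
  · rintro _ ⟨_, ⟨v, hv, rfl⟩, rfl⟩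
    obtain ⟨w, hw, h1, h2⟩ := tw_sub hθ hθ1 tw hss.le hS hv.1
    rw [h1]
    exact hcon w hw (by rw [h2]; exact hv.2)

theorem tw_vis (h : PS f U J P Cr δ η ρ) {θ t M : ℝ} (hθ : 0 < θ) (hθ1 : θ < 1) (ht : θ < t) (ht1 : t < 1) {z : ℂ} (hz : z ∈ J)
    {K m N : ℕ} {y : ℂ} {ε : ℝ} {uc u0 : ℂ} {Φ g : ℂ → ℂ} (hB : Bd f U J P δ θ t M z K m N y ε uc u0 Φ g)
    {S : ℕ} {k : ℕ → ℕ} {c a x : ℕ → ℂ} {Θ : ℕ → ℂ → ℂ} (tw : Tw f U J P Cr δ K θ y ε Φ z N u0 S k c a x Θ) {s s' : ℕ}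
    (hs : 1 ≤ s) (hs' : s < s') (hS : s' ≤ S) : Θ s' (x s') ∉ Θ s '' {w : ℂ | w ∈ ball (0 : ℂ) 1 ∧ ‖bc a s w‖ ≤ t} := by
  rintro ⟨v, ⟨hv1, hvt⟩, hve⟩
  have hk := tw_k tw hs' hS
  have hkN := tw.kN s' hS
  have hsS : s ≤ S := by omega
  have ha1 := tw_a1 hθ hθ1 tw hsS
  have hz1 : f^[N - k s'] z = Θ s v := by rw [hve, (tw.xs s' hS).2]
  have hz2 : f^[k s + (N - k s')] z = Φ (bc a s v) := by
    rw [Function.iterate_add_apply, hz1, tw_val hθ hθ1 tw hsS hv1]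
  obtain ⟨u1, g', hu1, hW', hg', hgu⟩ := hB.fst (k s + (N - k s')) (by omega) ⟨bc a s v, hvt, hz2⟩
  have hvB : bc a s v ∈ ball (0 : ℂ) 1 := mem_ball_zero_iff.2 (hvt.trans_lt ht1)
  have huB : u1 ∈ ball (0 : ℂ) 1 := mem_ball_zero_iff.2 (hu1.trans_lt ht1)
  have hu2 : u1 = bc a s v := by
    refine hB.wd.inj huB hvB ?_
    rw [← hz2, ← (hg' u1 huB).2, hgu]
  have hU : ∀ w ∈ ball (0 : ℂ) 1, ∀ i < N - k s', f^[i] (g' w) ∈ U := fun w hw i hi => (hg' w hw).1.1 i (by omega)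
  obtain ⟨σ, hσ⟩ : ∃ σ : ℂ → ℂ, σ = fun w => f^[N - k s'] (g' w) := ⟨_, rfl⟩
  have hσd : DifferentiableOn ℂ σ (ball 0 1) := by
    rw [hσ]
    exact it_diff h hW'.diff _ hU
  have hσ1 : ∀ w ∈ ball (0 : ℂ) 1, f^[k s] (σ w) = Φ w := by
    intro w hw
    rw [hσ]
    have := (hg' w hw).2
    rwa [Function.iterate_add_apply] at this
  have hσ2 : σ (bc a s v) = Θ s v := by
    rw [hσ, ← hu2, ← hz1, ← hgu]
  have hWs := tw.wd s hsS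
  obtain ⟨hΩ, φ, hφd, hφ1, hφ2⟩ := inv_ex hWs.diff hWs.inj
  have hkey : ∀ w ∈ ball (0 : ℂ) 1, ∀ x' ∈ ball (0 : ℂ) 1, Θ s x' = σ w → bc a s x' = w := by
    intro w hw x' hx' he
    have h1 : ‖x'‖ < 1 := mem_ball_zero_iff.1 hx'
    refine hB.wd.inj (mem_ball_zero_iff.2 (bc_lt ha1 h1)) hw ?_
    rw [← tw_val hθ hθ1 tw hsS hx', he, hσ1 w hw]
  have hA : ball (0 : ℂ) 1 ⊆ ball (0 : ℂ) 1 ∩ σ ⁻¹' (Θ s '' ball 0 1) := by
    refine (convex_ball (0 : ℂ) 1).isPreconnected.subset_of_closure_inter_subset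
      (hσd.continuousOn.isOpen_inter_preimage isOpen_ball hΩ) ⟨bc a s v, hvB, hvB, ?_⟩ ?_
    · rw [mem_preimage, hσ2]
      exact mem_image_of_mem _ hv1
    · rintro w ⟨hwc, hwB⟩
      refine ⟨hwB, ?_⟩
      obtain ⟨q, hq, hql⟩ := mem_closure_iff_seq_limit.1 hwc
      have hw1 : ‖w‖ < 1 := mem_ball_zero_iff.1 hwB
      obtain ⟨t1, ht1e⟩ : ∃ t1 : ℝ, t1 = (1 + ‖w‖) / 2 := ⟨_, rfl⟩
      have ht1' : t1 < 1 := by rw [ht1e]; linarith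
      have ht10 : 0 < t1 := by rw [ht1e]; linarith [norm_nonneg w]
      have hwt : ‖w‖ < t1 := by rw [ht1e]; linarith
      have hev : ∀ᶠ n in atTop, ‖q n‖ < t1 := (hql.norm).eventually (gt_mem_nhds hwt)
      choose p hp hpe using fun n => (hq n).2
      have hbc : ∀ n, bc a s (p n) = q n := fun n => hkey _ (hq n).1 _ (hp n) (hpe n)
      have hrd := rds_lt hθ hθ1 ht10 ht1' s
      have hcp : ∀ᶠ n in atTop, p n ∈ closedBall (0 : ℂ) (rds θ t1 s) := by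
        filter_upwards [hev] with n hn
        rw [mem_closedBall_zero_iff]
        exact bc_rad hθ hθ1 ht10 ht1' (fun i hi => tw.ca i (by omega)) (mem_ball_zero_iff.1 (hp n)) (by rw [hbc]; exact hn.le)
      obtain ⟨x', hx', ψ, hψ, hψl⟩ := (isCompact_closedBall (0 : ℂ) (rds θ t1 s)).tendsto_subseq' hcp.frequently
      have hx1 : x' ∈ ball (0 : ℂ) 1 := closedBall_subset_ball hrd hx'
      refine ⟨x', hx1, ?_⟩
      have e1 : Tendsto (fun n => Θ s (p (ψ n))) atTop (𝓝 (Θ s x')) :=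
        ((hWs.diff.continuousOn.continuousAt (isOpen_ball.mem_nhds hx1)).tendsto).comp hψl
      have e2 : Tendsto (fun n => σ (q (ψ n))) atTop (𝓝 (σ w)) :=
        ((hσd.continuousOn.continuousAt (isOpen_ball.mem_nhds hwB)).tendsto).comp (hql.comp hψ.tendsto_atTop)
      have e3 : (fun n => Θ s (p (ψ n))) = fun n => σ (q (ψ n)) := by
        funext n
        exact hpe (ψ n)
      rw [e3] at e1
      exact tendsto_nhds_unique e1 e2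
  obtain ⟨r, hr⟩ : ∃ r, s = r + 1 := ⟨s - 1, by omega⟩
  have hXd : DifferentiableOn ℂ (fun w => φ (σ w)) (ball 0 1) := hφd.comp hσd fun w hw => (hA hw).2
  refine bc_sec (a := a) (s := r) (by rw [← hr]; exact ha1) hXd (fun w hw => (hφ2 _ (hA hw).2).1) fun w hw => ?_
  rw [← hr]
  exact hkey w hw _ (hφ2 _ (hA hw).2).1 (hφ2 _ (hA hw).2).2

theorem tw_siz (h : PS f U J P Cr δ η ρ) {θ t M : ℝ} (hθ : 0 < θ) (hθ1 : θ < 1) (ht : θ < t) (ht1 : t < 1) (s s' : ℕ)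
    (hs : 1 ≤ s) (hs' : s < s') :
    ∃ ε0 C : ℝ, 0 < ε0 ∧ 1 ≤ C ∧ ∀ z ∈ J, ∀ (K m N : ℕ) (y : ℂ) (ε : ℝ) (uc u0 : ℂ) (Φ g : ℂ → ℂ) (S : ℕ) (k : ℕ → ℕ) (c a x : ℕ → ℂ)
      (Θ : ℕ → ℂ → ℂ), ε ≤ ε0 → Bd f U J P δ θ t M z K m N y ε uc u0 Φ g → Tw f U J P Cr δ K θ y ε Φ z N u0 S k c a x Θ →
      s' ≤ S → c s = c s' → ‖deriv (Θ s) 0‖ ≤ C * ‖deriv (Θ s') 0‖ ∧ ‖deriv (Θ s') 0‖ ≤ C * ‖deriv (Θ s) 0‖ := by
  have ht0 : 0 < t := hθ.trans ht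
  obtain ⟨ε0, hε0, hatt⟩ := tw_att h hθ hθ1 ht ht1
  have hp1 := rds_pos (θ := θ) hθ ht0 s
  have hl1 := rds_lt hθ hθ1 ht0 ht1 s
  have hl2 := rds_lt hθ hθ1 ht0 ht1 s'
  obtain ⟨R, hR⟩ : ∃ R, R = max (rds θ t s) (rds θ t s') := ⟨_, rfl⟩
  have hR1 : rds θ t s ≤ R := by rw [hR]; exact le_max_left _ _
  have hR2 : rds θ t s' ≤ R := by rw [hR]; exact le_max_right _ _
  have hRlt : R < 1 := by rw [hR]; exact max_lt hl1 hl2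
  have hR0 : 0 < R := hp1.trans_le hR1
  obtain ⟨D, hD1, hD⟩ := dis hR0 hRlt
  obtain ⟨r, hr⟩ : ∃ r : ℝ, r = min (1 / 4) ((t - θ) / 2) := ⟨_, rfl⟩
  have hr0 : 0 < r := by rw [hr]; exact lt_min (by norm_num) (by linarith)
  have hr4 : r ≤ 1 / 4 := by rw [hr]; exact min_le_left _ _
  have hrt : r ≤ (t - θ) / 2 := by rw [hr]; exact min_le_right _ _
  have h0R : (0 : ℂ) ∈ closedBall (0 : ℂ) R := mem_closedBall_self hR0.le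
  refine ⟨ε0, 16 * D / r, hε0, ?_, ?_⟩
  · rw [le_div_iff₀ hr0]
    linarith
  intro z hz K m N y ε uc u0 Φ g S k c a x Θ hε hB tw hS hc
  have hsS : s ≤ S := by omega
  have hcs : Θ s 0 = Θ s' 0 := by
    obtain ⟨i, hi⟩ : ∃ i, s = i + 1 := ⟨s - 1, by omega⟩
    obtain ⟨i', hi'⟩ : ∃ i, s' = i + 1 := ⟨s' - 1, by omega⟩
    rw [hi, hi', (tw.cc i (by omega)).2, (tw.cc i' (by omega)).2, ← hi, ← hi', hc]
  have hWs := tw.wd s hsS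
  have hWs' := tw.wd s' hS
  have hsub : ball (0 : ℂ) r ⊆ ball 0 1 := ball_subset_ball (by linarith)
  have key : ∀ A B : ℝ, r * A / 16 ≤ D * B → A ≤ 16 * D / r * B := by
    intro A B hAB
    rw [div_mul_eq_mul_div, le_div_iff₀ hr0]
    linarith
  constructor
  · -- `tw_vis`
    have h1 := tw_vis h hθ hθ1 ht ht1 hz hB tw hs hs' hS
    have hcov := univ_cover (g := Θ s) (c := 0) (R := r) hr0 (hWs.diff.mono hsub) (hWs.inj.mono hsub)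
    have h2 : Θ s' (x s') ∉ ball (Θ s 0) (r * ‖deriv (Θ s) 0‖ / 16) := by
      intro hin
      obtain ⟨w, hw, hwe⟩ := hcov hin
      have h3 := core_small h hθ hθ1 hr4 hrt tw hs hsS hw
      exact h1 ⟨w, ⟨h3.1, h3.2.le⟩, hwe⟩
    have hxs := (tw.xs s' hS).1
    have hxR : x s' ∈ closedBall (0 : ℂ) R := by
      rw [mem_closedBall_zero_iff]
      refine le_trans ?_ hR2
      refine bc_rad hθ hθ1 ht0 ht1 (fun i hi => tw.ca i (by omega)) hxs ?_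
      rw [tw_x tw hS]
      exact hB.u1
    rw [mem_ball, not_lt, dist_eq_norm, hcs] at h2
    have h4 := (hD (Θ s') hWs'.diff hWs'.inj _ hxR 0 h0R).2.2.1
    apply key
    refine h2.trans (h4.trans ?_)
    rw [sub_zero]
    have h5 : D * ‖deriv (Θ s') 0‖ * ‖x s'‖ ≤ D * ‖deriv (Θ s') 0‖ * 1 :=
      mul_le_mul_of_nonneg_left hxs.le (mul_nonneg (by linarith) (norm_nonneg _))
    linarith
  · -- `tw_att`
    obtain ⟨v, hv, hvt, hv2⟩ := hatt K y ε Φ z N u0 S k c a x Θ s s' hB.yJ hε tw hs hs' hS hc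
    have hcov := univ_cover (g := Θ s') (c := 0) (R := r) hr0 (hWs'.diff.mono hsub) (hWs'.inj.mono hsub)
    have h2 : Θ s v ∉ ball (Θ s' 0) (r * ‖deriv (Θ s') 0‖ / 16) := by
      intro hin
      obtain ⟨w, hw, hwe⟩ := hcov hin
      have h3 := core_small h hθ hθ1 hr4 hrt tw (by omega) hS hw
      exact hv2 ⟨w, h3, hwe⟩
    have hv1 := mem_ball_zero_iff.1 hv
    have hvR : v ∈ closedBall (0 : ℂ) R := by
      rw [mem_closedBall_zero_iff]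
      exact (bc_rad hθ hθ1 ht0 ht1 (fun i hi => tw.ca i (by omega)) hv1 hvt.le).trans hR1
    rw [mem_ball, not_lt, dist_eq_norm, ← hcs] at h2
    have h4 := (hD (Θ s) hWs.diff hWs.inj _ hvR 0 h0R).2.2.1
    apply key
    refine h2.trans (h4.trans ?_)
    rw [sub_zero]
    have h5 : D * ‖deriv (Θ s) 0‖ * ‖v‖ ≤ D * ‖deriv (Θ s) 0‖ * 1 :=
      mul_le_mul_of_nonneg_left hv1.le (mul_nonneg (by linarith) (norm_nonneg _))
    linarith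

end Pool.Agent.H44.LB
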