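import Pool.Agent.H56.WP.Stp
import Pool.Agent.H56.WP.Cr
import Pool.Agent.H18.LA.Ncv

/-!
# LEMMA A for every critical point (MP_8f2e1c, ROB => DIM; proof: think 1887, section 6): definitions

`bc a s = bet (a 1) ∘ ... ∘ bet (a s)`. `ths`: collar parameters, `rds`: core radii. `Tw`: towers of windows over `Φ` along the
orbit of `z`: `Θ 0 = Φ`, `Θ s` (`s ≥ 1`) is the window around the critical point `c s` at the time `N - k s`.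
-/

set_option autoImplicit false

open Filter Topology Metric Set MeasureTheory

namespace Pool.Agent.H44.LB

open Pool.Agent.H56.UD Pool.Agent.H55.PB Pool.Agent.H56.WP

/-- `bet (a 1) ∘ ... ∘ bet (a s)` -/
noncomputable def bc (a : ℕ → ℂ) : ℕ → ℂ → ℂ
  | 0, x => x
  | s + 1, x => bc a s (bet (a (s + 1)) x)

/-- the collar parameters -/
noncomputable def ths (θ : ℝ) : ℕ → ℝ
  | 0 => θ
  | s + 1 => dth (ths θ s)

/-- the core radii: `‖bc a s x‖ ≤ t` implies `‖x‖ ≤ rds θ t s` -/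
noncomputable def rds (θ t : ℝ) : ℕ → ℝ
  | 0 => t
  | s + 1 => Real.sqrt ((ths θ s + rds θ t s) / (1 + ths θ s * rds θ t s))

/-- `Θ s` is the window of the tower over `Φ` at the `s`-th critical time `N - k s` (for `s ≥ 1`), `x s` the coordinate of the orbit
of `z` -/
structure Tw (f : ℂ → ℂ) (U J P Cr : Set ℂ) (δ : ℝ) (K : ℕ) (θ : ℝ) (y : ℂ) (ε : ℝ) (Φ : ℂ → ℂ) (z : ℂ) (N : ℕ) (u0 : ℂ)
    (S : ℕ) (k : ℕ → ℕ) (c a x : ℕ → ℂ) (Θ : ℕ → ℂ → ℂ) : Prop where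
  k0 : k 0 = 0
  x0 : x 0 = u0
  T0 : Θ 0 = Φ
  kl : ∀ s < S, k s < k (s + 1)
  kN : ∀ s ≤ S, k s ≤ N
  wd : ∀ s ≤ S, Wd f U J P δ (K + k s) (ths θ s) y ε (Θ s)
  ca : ∀ s < S, ‖a (s + 1)‖ ≤ ths θ s
  cc : ∀ s < S, c (s + 1) ∈ Cr ∧ Θ (s + 1) 0 = c (s + 1)
  st : ∀ s < S, ∀ v ∈ ball (0 : ℂ) 1, f^[k (s + 1) - k s] (Θ (s + 1) v) = Θ s (bet (a (s + 1)) v)
  xs : ∀ s ≤ S, ‖x s‖ < 1 ∧ Θ s (x s) = f^[N - k s] z
  xb : ∀ s < S, bet (a (s + 1)) (x (s + 1)) = x s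

/-- a regular window `Φ` (univalent pull back `g` at bounded distance of `z`) and the first visit `N` of `z` to its core which is not
univalent -/
structure Bd (f : ℂ → ℂ) (U J P : Set ℂ) (δ θ t M : ℝ) (z : ℂ) (K m N : ℕ) (y : ℂ) (ε : ℝ) (uc u0 : ℂ) (Φ g : ℂ → ℂ) : Prop where
  yJ : y ∈ J
  wd : Wd f U J P δ K θ y ε Φ
  uc1 : ‖uc‖ ≤ θ
  ucJ : Φ uc ∈ J
  gd : DifferentiableOn ℂ g (ball 0 1)
  gv : ∀ v ∈ ball (0 : ℂ) 1, g v ∈ dm f U J δ (m + K) ∧ f^[m] (g v) = Φ v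
  gz : ‖g 0 - z‖ ≤ M * ‖deriv g 0‖
  u1 : ‖u0‖ ≤ t
  zN : f^[N] z = Φ u0
  fst : ∀ i < N, (∃ u : ℂ, ‖u‖ ≤ t ∧ f^[i] z = Φ u) → Pool.Agent.H18.LA.Vis f U J P δ K θ y ε Φ t z i
  nv : ¬ Pool.Agent.H18.LA.Vis f U J P δ K θ y ε Φ t z N

end Pool.Agent.H44.LB
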