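import Pool.Agent.H44.LB.Bc
import Pool.Agent.H44.LB.Cnt
import Pool.Agent.H18.LA.Inv

/-!
# LEMMA A*, the end: complex analysis in the limit

All windows `T i` are around the same critical point `0`. `rel`: near `0` the maps `γ ∘ bc a (κ i) ∘ (T i)⁻¹` differ by affine maps
with REAL coefficient. `cr`: the closed core of `T i` is not in the open core of `T m`.

PROOF of `incl`. `O = {x ∈ ball 0 1 | T x ∈ T' '' ball 0 1}` open, `V = T'⁻¹ ∘ T` holomorphic on `O` (`inv_ex`, H18/LA/Inv);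
`A = {x ∈ S | x ∈ O, ‖β' (V x)‖ < s', (γ (β w) - b) / τ = (γ (β' (V w)) - b') / τ' for w near x}`. `0 ∈ A` (hypothesis `near`). `A` is open; `A` is closed in `S`:
`x_n → x ∈ S`, `x_n ∈ A`: `V x_n` in the compact set `{‖v‖ ≤ ρ', ‖β' v‖ ≤ s'}` (`cpt`): subsequence `→ v'`, `T' v' = T x`, so `x ∈ O`, `v' = V x`; the difference vanishes near `x_n`, so near `x` (identity theorem on a small
ball in `O`); `om` gives `v''`, `‖v''‖ < s'`, `(γ (β x) - b) / τ = (γ v'' - b') / τ'`, `γ` injective: `β' v' = v''`. `S` preconnected: `A = S`.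

PROOF of `fin`. `b i`, `τ i` from `rel` (`τ 0 = 1`, `b 0 = 0` w.l.o.g. or simply as they are), `β i = bc a (κ i)`, `w i = β i 0`, `‖w i‖ ≤ ϑ` (`bc a (s + 1) 0 = bc a s (a (s + 1))`).
Hypothesis `near` of `incl` for all pairs `i, m`: from `rel i`, `rel m` (`V i 0 = 0`, local inverse of `V i`: `T i` is injective). Common value at `0`: `(γ (w i) - b i) / τ i = p` for all `i`.
So `(γ v - b i) / τ i = p + (γ v - γ (w i)) / τ i`.
(1) BOUNDS: `d > 0` with `ball (γ w) d ⊆ γ '' ball 0 t` for `‖w‖ ≤ ϑ` (compactness); `t < t' < 1`, `L` a bound of `‖γ v - γ w‖` on `closedBall 0 t'`. If `|τ i| * L < |τ m| * ..`: precisely if `L / |τ i| < d / |τ m|` then `om` holds for `(i, t')`, `(m, t)`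
and `incl` contradicts `cr i m` (`‖β i x‖ ≤ t < t'`). So `|τ m| * L ≥ |τ i| * d` for all `i ≠ m`: all `|τ i|` in a compact subset of `(0, ∞)`.
(2) `ϑ < s < t`, `d' > 0` with `ball (γ v) d' ⊆ γ '' ball 0 t` for `‖v‖ ≤ s`. Infinitely many `(τ i, w i)` in a compact set (`τ i` real, signs!): there are `m < i` with `‖τ m / τ i - 1‖ * L + ‖γ (w i) - γ (w m)‖ * ‖τ m / τ i‖ < d'` or so: `om` holds for `(i, s)`, `(m, t)`.
(3) `incl` gives an injection of the fibre of `β i` over `w` (`‖w‖ < s`, `w` not a critical value: `bc_lo`, `2 ^ κ i` points) into a fibre of `β m` (`bc_up`: at most `2 ^ κ m`): `κ i ≤ κ m`, contradiction to `hκ`.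
-/

set_option autoImplicit false

open Filter Topology Metric Set MeasureTheory

namespace Pool.Agent.H44.LB

open Pool.Agent.H55.PB

theorem incl {γ T T' β β' : ℂ → ℂ} {S : Set ℂ} {s s' ρ' : ℝ} {τ τ' b b' : ℂ} (hγd : DifferentiableOn ℂ γ (ball 0 1))
    (hγi : InjOn γ (ball 0 1)) (hT : DifferentiableOn ℂ T (ball 0 1)) (hT' : DifferentiableOn ℂ T' (ball 0 1))
    (hTi : InjOn T (ball 0 1)) (hTi' : InjOn T' (ball 0 1)) (hβ : DifferentiableOn ℂ β (ball 0 1)) (hβ' : DifferentiableOn ℂ β' (ball 0 1))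
    (hβm : MapsTo β (ball 0 1) (ball 0 1)) (hβm' : MapsTo β' (ball 0 1) (ball 0 1)) (hτ : τ ≠ 0) (hτ' : τ' ≠ 0)
    (hs' : s' < 1) (hρ' : ρ' < 1) (cpt : ∀ v ∈ ball (0 : ℂ) 1, ‖β' v‖ ≤ s' → ‖v‖ ≤ ρ')
    (hS : IsOpen S) (hS1 : S ⊆ ball 0 1) (hSc : IsPreconnected S) (h0 : (0 : ℂ) ∈ S) (hSs : ∀ x ∈ S, ‖β x‖ < s)
    (near : ∃ (r : ℝ) (V : ℂ → ℂ), 0 < r ∧ r ≤ 1 ∧ ∀ x ∈ ball (0 : ℂ) r, V x ∈ ball (0 : ℂ) 1 ∧ T' (V x) = T x ∧
      (γ (β x) - b) / τ = (γ (β' (V x)) - b') / τ')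
    (om : ∀ v : ℂ, ‖v‖ < s → ∃ v' : ℂ, ‖v'‖ < s' ∧ (γ v - b) / τ = (γ v' - b') / τ') :
    ∀ x ∈ S, ∃ x' ∈ ball (0 : ℂ) 1, ‖β' x'‖ < s' ∧ T' x' = T x ∧ (γ (β x) - b) / τ = (γ (β' x') - b') / τ' := by
  obtain ⟨hTo, φ, hφd, hφ1, hφ2⟩ := Pool.Agent.H18.LA.inv_ex hT' hTi'
  obtain ⟨O, hO⟩ : ∃ O : Set ℂ, O = ball 0 1 ∩ T ⁻¹' (T' '' ball 0 1) := ⟨_, rfl⟩
  have hOo : IsOpen O := by
    rw [hO]
    exact hT.continuousOn.isOpen_inter_preimage isOpen_ball hTo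
  have hO1 : O ⊆ ball 0 1 := by
    rw [hO]
    exact inter_subset_left
  obtain ⟨V, hV⟩ : ∃ V : ℂ → ℂ, V = fun x => φ (T x) := ⟨_, rfl⟩
  have hV1 : ∀ x ∈ O, V x ∈ ball (0 : ℂ) 1 ∧ T' (V x) = T x := by
    intro x hx
    rw [hO] at hx
    rw [hV]
    exact hφ2 _ hx.2
  have hVd : DifferentiableOn ℂ V O := by
    rw [hV]
    refine hφd.comp (hT.mono hO1) fun x hx => ?_
    rw [hO] at hx
    exact hx.2
  obtain ⟨h, hh⟩ : ∃ h : ℂ → ℂ, h = fun x => (γ (β x) - b) / τ - (γ (β' (V x)) - b') / τ' := ⟨_, rfl⟩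
  have hhd : DifferentiableOn ℂ h O := by
    rw [hh]
    have e1 : DifferentiableOn ℂ (fun x => γ (β x)) O := hγd.comp (hβ.mono hO1) fun x hx => hβm (hO1 hx)
    have e2 : DifferentiableOn ℂ (fun x => γ (β' (V x))) O :=
      hγd.comp (hβ'.comp hVd fun x hx => (hV1 x hx).1) fun x hx => hβm' (hV1 x hx).1
    exact ((e1.sub_const b).div_const τ).sub ((e2.sub_const b').div_const τ')
  -- the level of `V x`
  have key : ∀ x ∈ S, x ∈ O → h x = 0 → ‖β' (V x)‖ < s' := by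
    intro x hxS hxO hx0
    obtain ⟨v', hv1, hv2⟩ := om (β x) (hSs x hxS)
    have e1 : (γ (β' (V x)) - b') / τ' = (γ v' - b') / τ' := by
      rw [← hv2]
      rw [hh] at hx0
      exact (sub_eq_zero.1 hx0).symm
    have e2 : γ (β' (V x)) = γ v' := by
      rw [div_left_inj' hτ'] at e1
      linear_combination e1
    have e3 : β' (V x) = v' := hγi (hβm' (hV1 x hxO).1) (by
      rw [mem_ball_zero_iff]
      linarith) e2
    rw [e3]
    exact hv1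
  obtain ⟨A, hA⟩ : ∃ A : Set ℂ, A = {x | x ∈ S ∩ O ∧ ∀ᶠ w in 𝓝 x, h w = 0} := ⟨_, rfl⟩
  have hAo : IsOpen A := by
    rw [isOpen_iff_mem_nhds]
    intro x hx
    rw [hA] at hx ⊢
    exact ((hS.inter hOo).eventually_mem hx.1).and hx.2.eventually_nhds
  have h0A : (S ∩ A).Nonempty := by
    obtain ⟨r, V0, hr, hr1, hV0⟩ := near
    refine ⟨0, h0, ?_⟩
    have hsub : ball (0 : ℂ) r ⊆ O := by
      intro x hx
      rw [hO]
      exact ⟨ball_subset_ball hr1 hx, V0 x, (hV0 x hx).1, (hV0 x hx).2.1⟩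
    rw [hA]
    refine ⟨⟨h0, hsub (mem_ball_self hr)⟩, ?_⟩
    filter_upwards [ball_mem_nhds (0 : ℂ) hr] with x hx
    have e1 : V x = V0 x := hTi' (hV1 x (hsub hx)).1 (hV0 x hx).1 (by rw [(hV1 x (hsub hx)).2, (hV0 x hx).2.1])
    rw [hh]
    show (γ (β x) - b) / τ - (γ (β' (V x)) - b') / τ' = 0
    rw [e1, (hV0 x hx).2.2, sub_self]
  have hcl : closure A ∩ S ⊆ A := by
    rintro x ⟨hxc, hxS⟩
    have hx1 : x ∈ ball (0 : ℂ) 1 := hS1 hxS
    -- `x ∈ O`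
    have hTA : T '' A ⊆ T' '' closedBall 0 ρ' := by
      rintro _ ⟨q, hq, rfl⟩
      rw [hA] at hq
      have hq0 : h q = 0 := hq.2.self_of_nhds
      have e1 := key q hq.1.1 hq.1.2 hq0
      refine ⟨V q, ?_, (hV1 q hq.1.2).2⟩
      rw [mem_closedBall_zero_iff]
      exact cpt _ (hV1 q hq.1.2).1 e1.le
    have hcmp : IsCompact (T' '' closedBall 0 ρ') :=
      (isCompact_closedBall (0 : ℂ) ρ').image_of_continuousOn (hT'.continuousOn.mono (closedBall_subset_ball hρ'))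
    have hxO : x ∈ O := by
      have e1 : T x ∈ closure (T '' A) :=
        ((hT.continuousOn.continuousAt (isOpen_ball.mem_nhds hx1)).continuousWithinAt).mem_closure_image hxc
      have e2 : T x ∈ T' '' closedBall 0 ρ' := by
        have := closure_mono hTA e1
        rwa [hcmp.isClosed.closure_eq] at this
      obtain ⟨v, hv1, hv2⟩ := e2
      rw [hO]
      exact ⟨hx1, v, closedBall_subset_ball hρ' hv1, hv2⟩
    obtain ⟨r, hr, hrs⟩ := Metric.isOpen_iff.1 (hS.inter hOo) x ⟨hxS, hxO⟩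
    obtain ⟨q, hqb, hqA⟩ := mem_closure_iff.1 hxc (ball x r) isOpen_ball (mem_ball_self hr)
    have hqA' := hqA
    rw [hA] at hqA'
    have han : AnalyticOnNhd ℂ h (ball x r) :=
      (hhd.mono fun w hw => (hrs hw).2).analyticOnNhd isOpen_ball
    have hz := han.eqOn_zero_of_preconnected_of_eventuallyEq_zero (convex_ball x r).isPreconnected hqb hqA'.2
    rw [hA]
    refine ⟨⟨hxS, hxO⟩, ?_⟩
    filter_upwards [ball_mem_nhds x hr] with w hw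
    exact hz hw
  have hsub := hSc.subset_of_closure_inter_subset hAo h0A hcl
  intro x hx
  have hxA := hsub hx
  rw [hA] at hxA
  have hx0 : h x = 0 := hxA.2.self_of_nhds
  refine ⟨V x, (hV1 x hxA.1.2).1, key x hx hxA.1.2 hx0, (hV1 x hxA.1.2).2, ?_⟩
  rw [hh] at hx0
  exact sub_eq_zero.1 hx0

private theorem room {γ : ℂ → ℂ} (hγd : DifferentiableOn ℂ γ (ball 0 1)) (hγi : InjOn γ (ball 0 1)) {s t : ℝ} (hst : s < t)
    (ht : t ≤ 1) : ∃ d : ℝ, 0 < d ∧ ∀ w : ℂ, ‖w‖ ≤ s → ∀ q : ℂ, ‖q - γ w‖ < d → ∃ v : ℂ, ‖v‖ < t ∧ γ v = q := by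
  have hsub : closedBall (0 : ℂ) s ⊆ ball 0 t := closedBall_subset_ball hst
  have hsub1 : ball (0 : ℂ) t ⊆ ball 0 1 := ball_subset_ball ht
  have hK : IsCompact (γ '' closedBall 0 s) :=
    (isCompact_closedBall (0 : ℂ) s).image_of_continuousOn (hγd.continuousOn.mono (hsub.trans hsub1))
  have hU : IsOpen (γ '' ball 0 t) := Pool.Agent.H47.TH.image_open hγd hγi hsub1 isOpen_ball
  obtain ⟨d, hd, hd1⟩ := hK.exists_thickening_subset_open hU (image_mono hsub)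
  refine ⟨d, hd, fun w hw q hq => ?_⟩
  have h1 : q ∈ thickening d (γ '' closedBall 0 s) := by
    rw [mem_thickening_iff]
    exact ⟨γ w, ⟨w, by simpa using hw, rfl⟩, by rwa [dist_eq_norm]⟩
  obtain ⟨v, hv1, hv2⟩ := hd1 h1
  exact ⟨v, by simpa using hv1, hv2⟩

theorem fin {γ : ℂ → ℂ} (hγd : DifferentiableOn ℂ γ (ball 0 1)) (hγi : InjOn γ (ball 0 1)) {θ t : ℝ} (h0 : 0 < θ) (h1 : θ < t)
    (h2 : t < 1) {a : ℕ → ℂ} (ha : ∀ i, ‖a (i + 1)‖ ≤ ths θ i) (haθ : ∀ i, ‖bc a i (a (i + 1))‖ ≤ θ) {κ : ℕ → ℕ} (hκ : StrictMono κ)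
    (hκ1 : ∀ i, 1 ≤ κ i) {T : ℕ → ℂ → ℂ}
    (hT : ∀ i, DifferentiableOn ℂ (T i) (ball 0 1) ∧ InjOn (T i) (ball 0 1) ∧ T i 0 = 0)
    (rel : ∀ i, ∃ (τ : ℝ) (b : ℂ) (r : ℝ) (V : ℂ → ℂ), τ ≠ 0 ∧ 0 < r ∧ r ≤ 1 ∧ DifferentiableOn ℂ V (ball 0 r) ∧
      ∀ x ∈ ball (0 : ℂ) r, V x ∈ ball (0 : ℂ) 1 ∧ T i (V x) = T 0 x ∧
        γ (bc a (κ i) (V x)) = τ * γ (bc a (κ 0) x) + b)
    (cr : ∀ i m, i ≠ m → ∃ x ∈ ball (0 : ℂ) 1, ‖bc a (κ i) x‖ ≤ t ∧
      T i x ∉ T m '' {v : ℂ | v ∈ ball (0 : ℂ) 1 ∧ ‖bc a (κ m) v‖ < t}) : False := by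
  have hθ1 : θ < 1 := h1.trans h2
  have ht0 : 0 < t := h0.trans h1
  choose τ b r V hτ hr hr1 hVd hV using rel
  have ha1 : ∀ i, ‖a (i + 1)‖ < 1 := fun i => (ha i).trans_lt (ths_lt h0 hθ1 i)
  have hβd : ∀ n, DifferentiableOn ℂ (bc a n) (ball 0 1) := fun n => bc_diff fun i _ => ha1 i
  have hβm : ∀ n, MapsTo (bc a n) (ball 0 1) (ball 0 1) := fun n x hx => by
    rw [mem_ball_zero_iff]
    exact bc_lt (fun i _ => ha1 i) (by simpa using hx)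
  have h00 : (0 : ℂ) ∈ ball (0 : ℂ) 1 := by simp
  have hw : ∀ i, ‖bc a (κ i) 0‖ ≤ θ := by
    intro i
    obtain ⟨s, hs⟩ : ∃ s, κ i = s + 1 := ⟨κ i - 1, by have := hκ1 i; omega⟩
    rw [hs]
    show ‖bc a s (bet (a (s + 1)) 0)‖ ≤ θ
    have e1 : bet (a (s + 1)) 0 = a (s + 1) := by simp [bet]
    rw [e1]
    exact haθ s
  have hτ' : ∀ i, ((τ i : ℝ) : ℂ) ≠ 0 := fun i => by exact_mod_cast hτ i
  have hV0 : ∀ i, V i 0 = 0 := by
    intro i
    have e1 := hV i 0 (mem_ball_self (hr i))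
    exact (hT i).2.1 e1.1 h00 (by rw [e1.2.1, (hT 0).2.2, (hT i).2.2])
  obtain ⟨p, hp0⟩ : ∃ p, p = γ (bc a (κ 0) 0) := ⟨_, rfl⟩
  have hp : ∀ i, b i = γ (bc a (κ i) 0) - τ i * p := by
    intro i
    have e1 := (hV i 0 (mem_ball_self (hr i))).2.2
    rw [hV0 i] at e1
    rw [hp0, e1]
    ring
  -- the relation near `0`
  have near : ∀ i m : ℕ, ∃ (r' : ℝ) (V' : ℂ → ℂ), 0 < r' ∧ r' ≤ 1 ∧ ∀ x ∈ ball (0 : ℂ) r', V' x ∈ ball (0 : ℂ) 1 ∧
      T m (V' x) = T i x ∧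
      (γ (bc a (κ i) x) - b i) / (τ i : ℂ) = (γ (bc a (κ m) (V' x)) - b m) / (τ m : ℂ) := by
    intro i m
    have hmin : 0 < min (r i) (r m) := lt_min (hr i) (hr m)
    have hU : IsOpen (T 0 '' ball 0 (min (r i) (r m))) :=
      Pool.Agent.H47.TH.image_open (hT 0).1 (hT 0).2.1 (ball_subset_ball ((min_le_left _ _).trans (hr1 i))) isOpen_ball
    have h0U : T i 0 ∈ T 0 '' ball 0 (min (r i) (r m)) := by
      rw [(hT i).2.2]
      exact ⟨0, mem_ball_self hmin, (hT 0).2.2⟩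
    have hc : ContinuousAt (T i) 0 := (hT i).1.continuousOn.continuousAt (isOpen_ball.mem_nhds h00)
    obtain ⟨e, he, hes⟩ := Metric.mem_nhds_iff.1 (hc.preimage_mem_nhds (hU.mem_nhds h0U))
    have hq : ∀ x : ℂ, ∃ v : ℂ, x ∈ ball (0 : ℂ) (min e 1) → v ∈ ball (0 : ℂ) 1 ∧ T m v = T i x ∧
        (γ (bc a (κ i) x) - b i) / (τ i : ℂ) = (γ (bc a (κ m) v) - b m) / (τ m : ℂ) := by
      intro x
      by_cases hx : x ∈ ball (0 : ℂ) (min e 1)
      · have hx1 : x ∈ ball (0 : ℂ) 1 := ball_subset_ball (min_le_right _ _) hx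
        obtain ⟨x0, hx0, hx0'⟩ := hes (ball_subset_ball (min_le_left _ _) hx)
        have e1 := hV i x0 (ball_subset_ball (min_le_left _ _) hx0)
        have e2 := hV m x0 (ball_subset_ball (min_le_right _ _) hx0)
        have e3 : V i x0 = x := (hT i).2.1 e1.1 hx1 (by rw [e1.2.1, hx0'])
        refine ⟨V m x0, fun _ => ⟨e2.1, by rw [e2.2.1, hx0'], ?_⟩⟩
        have e4 := e1.2.2
        rw [e3] at e4
        rw [e4, e2.2.2, add_sub_cancel_right, add_sub_cancel_right, mul_div_cancel_left₀ _ (hτ' i),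
          mul_div_cancel_left₀ _ (hτ' m)]
      · exact ⟨0, fun h => absurd h hx⟩
    choose V' hV' using hq
    exact ⟨min e 1, V', lt_min he one_pos, min_le_right _ _, hV'⟩
  -- application of `incl`
  have app : ∀ (i m : ℕ) (s1 s2 : ℝ), θ < s1 → s1 ≤ 1 → 0 < s2 → s2 < 1 →
      (∀ v : ℂ, ‖v‖ < s1 → ∃ v' : ℂ, ‖v'‖ < s2 ∧
        γ v' = γ (bc a (κ m) 0) + (τ m / τ i : ℂ) * (γ v - γ (bc a (κ i) 0))) →
      ∀ x ∈ ball (0 : ℂ) 1, ‖bc a (κ i) x‖ < s1 → ∃ x' ∈ ball (0 : ℂ) 1, ‖bc a (κ m) x'‖ < s2 ∧ T m x' = T i x ∧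
        γ (bc a (κ m) x') = γ (bc a (κ m) 0) + (τ m / τ i : ℂ) * (γ (bc a (κ i) x) - γ (bc a (κ i) 0)) := by
    intro i m s1 s2 hs1 hs11 hs2 hs21 om x hx hxs
    have hS : IsOpen {x : ℂ | x ∈ ball (0 : ℂ) 1 ∧ ‖bc a (κ i) x‖ < s1} := by
      have h3 := (hβd (κ i)).continuousOn.isOpen_inter_preimage isOpen_ball (isOpen_ball (x := (0 : ℂ)) (ε := s1))
      convert h3 using 1
      ext x
      simp
    have hSc : IsPreconnected {x : ℂ | x ∈ ball (0 : ℂ) 1 ∧ ‖bc a (κ i) x‖ < s1} :=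
      bc_conn (fun i _ => ha1 i) (fun i _ => (haθ i).trans_lt hs1) (h0.trans hs1) hs11
    have alg : ∀ (v v' : ℂ), (γ v - b i) / (τ i : ℂ) = (γ v' - b m) / (τ m : ℂ) ↔
        γ v' = γ (bc a (κ m) 0) + (τ m / τ i : ℂ) * (γ v - γ (bc a (κ i) 0)) := by
      intro v v'
      have e1 := hτ' i
      have e2 := hτ' m
      rw [hp i, hp m, div_eq_div_iff e1 e2]
      constructor
      · intro h
        field_simp
        linear_combination -h
      · intro h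
        field_simp at h
        linear_combination -h
    obtain ⟨x', hx1, hx2, hx3, hx4⟩ := incl (s := s1) (s' := s2) (ρ' := rds θ s2 (κ m)) (τ := (τ i : ℂ)) (τ' := (τ m : ℂ)) (b := b i)
      (b' := b m) hγd hγi (hT i).1 (hT m).1 (hT i).2.1 (hT m).2.1 (hβd (κ i)) (hβd (κ m)) (hβm (κ i)) (hβm (κ m)) (hτ' i) (hτ' m)
      hs21 (rds_lt h0 hθ1 hs2 hs21 (κ m))
      (fun v hv hvs => bc_rad h0 hθ1 hs2 hs21 (fun i _ => ha i) (by simpa using hv) hvs)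
      hS (fun x hx => hx.1) hSc ⟨h00, (hw i).trans_lt hs1⟩ (fun x hx => hx.2) (near i m)
      (fun v hv => by
        obtain ⟨v', hv1, hv2⟩ := om v hv
        exact ⟨v', hv1, (alg v v').2 hv2⟩) x ⟨hx, hxs⟩
    exact ⟨x', hx1, hx2, hx3, (alg _ _).1 hx4⟩
  -- (1) bounds
  obtain ⟨d, hd, hd1⟩ := room hγd hγi h1 h2.le
  obtain ⟨t', ht1, ht2⟩ := exists_between h2
  obtain ⟨C, hC⟩ := (isCompact_closedBall (0 : ℂ) t').exists_bound_of_continuousOn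
    (hγd.continuousOn.mono (closedBall_subset_ball ht2))
  obtain ⟨L, hL⟩ : ∃ L : ℝ, L = max 1 (2 * C) := ⟨_, rfl⟩
  have hL0 : 0 < L := by
    rw [hL]
    exact lt_max_of_lt_left one_pos
  have hL1 : ∀ v w : ℂ, ‖v‖ ≤ t' → ‖w‖ ≤ t' → ‖γ v - γ w‖ ≤ L := by
    intro v w hv hw
    have e1 := hC v (by simpa using hv)
    have e2 := hC w (by simpa using hw)
    calc ‖γ v - γ w‖ ≤ ‖γ v‖ + ‖γ w‖ := norm_sub_le _ _
      _ ≤ 2 * C := by linarith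
      _ ≤ L := by rw [hL]; exact le_max_right _ _
  have bnd : ∀ i m : ℕ, i ≠ m → d ≤ ‖(τ m / τ i : ℂ)‖ * L := by
    intro i m him
    by_contra hcon
    push Not at hcon
    obtain ⟨x, hx1, hx2, hx3⟩ := cr i m him
    obtain ⟨x', hy1, hy2, hy3, -⟩ := app i m t' t (h1.trans ht1) ht2.le ht0 h2 (fun v hv => by
      obtain ⟨v', h3, h4⟩ := hd1 (bc a (κ m) 0) (hw m) (γ (bc a (κ m) 0) + (τ m / τ i : ℂ) * (γ v - γ (bc a (κ i) 0))) (by
        rw [add_sub_cancel_left, norm_mul]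
        refine lt_of_le_of_lt ?_ hcon
        exact mul_le_mul_of_nonneg_left (hL1 _ _ hv.le ((hw i).trans (h1.trans ht1).le)) (norm_nonneg _))
      exact ⟨v', h3, h4⟩) x hx1 (hx2.trans_lt ht1)
    exact hx3 ⟨x', ⟨hy1, hy2⟩, hy3⟩
  have nrm : ∀ i m : ℕ, ‖(τ m / τ i : ℂ)‖ = |τ m| / |τ i| := by
    intro i m
    rw [norm_div, Complex.norm_real, Complex.norm_real, Real.norm_eq_abs, Real.norm_eq_abs]
  have hτa : ∀ i, 0 < |τ i| := fun i => abs_pos.2 (hτ i)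
  have up : ∀ i, 1 ≤ i → |τ i| ≤ L / d * |τ 0| := by
    intro i hi
    have e1 := bnd i 0 (by omega)
    rw [nrm, div_mul_eq_mul_div, le_div_iff₀ (hτa i)] at e1
    rw [div_mul_eq_mul_div, le_div_iff₀ hd]
    linarith
  have lo : ∀ i, 1 ≤ i → d / L * |τ 0| ≤ |τ i| := by
    intro i hi
    have e1 := bnd 0 i (by omega)
    rw [nrm, div_mul_eq_mul_div, le_div_iff₀ (hτa 0)] at e1
    rw [div_mul_eq_mul_div, div_le_iff₀ hL0]
    exact e1
  -- (2) two close ones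
  obtain ⟨s, hs1, hs2⟩ := exists_between h1
  obtain ⟨d', hd', hd1'⟩ := room hγd hγi hs2 h2.le
  obtain ⟨q, hq⟩ : ∃ q : ℕ → ℝ × ℂ, q = fun n => (τ (n + 1), γ (bc a (κ (n + 1)) 0)) := ⟨_, rfl⟩
  have hqb : ∀ n, q n ∈ closedBall (0 : ℝ × ℂ) (max (L / d * |τ 0|) C) := by
    intro n
    rw [mem_closedBall_zero_iff, hq, Prod.norm_def]
    refine max_le_max ?_ ?_
    · rw [Real.norm_eq_abs]
      exact up (n + 1) (by omega)
    · exact hC _ (by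
        rw [mem_closedBall_zero_iff]
        exact (hw _).trans (h1.trans ht1).le)
  obtain ⟨⟨τi, gi⟩, -, φ, hφ, hlim⟩ := tendsto_subseq_of_bounded isBounded_closedBall hqb
  have hlim1 : Tendsto (fun n => τ (φ n + 1)) atTop (𝓝 τi) := by
    have := (continuous_fst.tendsto (τi, gi)).comp hlim
    refine this.congr fun n => ?_
    simp [hq]
  have hlim2 : Tendsto (fun n => γ (bc a (κ (φ n + 1)) 0)) atTop (𝓝 gi) := by
    have := (continuous_snd.tendsto (τi, gi)).comp hlim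
    refine this.congr fun n => ?_
    simp [hq]
  have hτi : τi ≠ 0 := by
    have e1 : Tendsto (fun n => |τ (φ n + 1)|) atTop (𝓝 |τi|) := hlim1.abs
    have e2 : d / L * |τ 0| ≤ |τi| := ge_of_tendsto e1 (Eventually.of_forall fun n => lo _ (by omega))
    have e3 : 0 < d / L * |τ 0| := mul_pos (div_pos hd hL0) (hτa 0)
    exact abs_pos.1 (lt_of_lt_of_le e3 e2)
  obtain ⟨n, hn⟩ : ∃ n : ℕ, ‖γ (bc a (κ (φ n + 1)) 0) - γ (bc a (κ (φ (n + 1) + 1)) 0)‖ +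
      ‖(τ (φ n + 1) / τ (φ (n + 1) + 1) : ℂ) - 1‖ * L < d' := by
    have e1 : Tendsto (fun n => γ (bc a (κ (φ n + 1)) 0) - γ (bc a (κ (φ (n + 1) + 1)) 0)) atTop (𝓝 (gi - gi)) :=
      hlim2.sub (hlim2.comp (tendsto_add_atTop_nat 1))
    have e2 : Tendsto (fun n => ((τ (φ n + 1) : ℝ) : ℂ)) atTop (𝓝 (τi : ℂ)) :=
      (Complex.continuous_ofReal.tendsto τi).comp hlim1
    have e3 : Tendsto (fun n => (τ (φ n + 1) / τ (φ (n + 1) + 1) : ℂ) - 1) atTop (𝓝 ((τi / τi : ℂ) - 1)) :=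
      (e2.div (e2.comp (tendsto_add_atTop_nat 1)) (by exact_mod_cast hτi)).sub_const 1
    rw [sub_self] at e1
    rw [div_self (by exact_mod_cast hτi : (τi : ℂ) ≠ 0), sub_self] at e3
    have e4 := e1.norm.add (e3.norm.mul_const L)
    rw [norm_zero, zero_mul, add_zero] at e4
    exact (e4.eventually_lt_const hd').exists
  obtain ⟨m, hm⟩ : ∃ m, m = φ n + 1 := ⟨_, rfl⟩
  obtain ⟨i, hi⟩ : ∃ i, i = φ (n + 1) + 1 := ⟨_, rfl⟩
  have hmi : m < i := by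
    rw [hm, hi]
    have := hφ (Nat.lt_succ_self n)
    have h3 : φ n < φ (n + 1) := this
    omega
  rw [← hm, ← hi] at hn
  have app' := app i m s t hs1 (hs2.trans h2).le ht0 h2 (fun v hv => by
    obtain ⟨v', h3, h4⟩ := hd1' v hv.le (γ (bc a (κ m) 0) + (τ m / τ i : ℂ) * (γ v - γ (bc a (κ i) 0))) (by
      have e1 : γ (bc a (κ m) 0) + (τ m / τ i : ℂ) * (γ v - γ (bc a (κ i) 0)) - γ v =
          (γ (bc a (κ m) 0) - γ (bc a (κ i) 0)) + ((τ m / τ i : ℂ) - 1) * (γ v - γ (bc a (κ i) 0)) := by ring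
      rw [e1]
      refine lt_of_le_of_lt ?_ hn
      refine (norm_add_le _ _).trans ?_
      rw [norm_mul]
      have e2 : ‖γ v - γ (bc a (κ i) 0)‖ ≤ L := hL1 _ _ (hv.le.trans (hs2.trans ht1).le) ((hw i).trans (h1.trans ht1).le)
      have e3 := mul_le_mul_of_nonneg_left e2 (norm_nonneg ((τ m / τ i : ℂ) - 1))
      linarith)
    exact ⟨v', h3, h4⟩)
  -- (3) the count
  obtain ⟨w, hw1, hw2⟩ : ∃ w : ℂ, ‖w‖ < s ∧ ∀ k < κ i, bc a k (a (k + 1)) ≠ w := by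
    have hs0 : 0 < s := h0.trans hs1
    have hinf : (ball (0 : ℂ) s).Infinite := by
      intro hfin
      have h3 : (ball (0 : ℂ) s) ∈ 𝓝 (0 : ℂ) := ball_mem_nhds _ hs0
      exact (infinite_of_mem_nhds (0 : ℂ) h3) hfin
    have hfin : (((fun k => bc a k (a (k + 1))) '' {k | k < κ i})).Finite := (finite_lt_nat (κ i)).image _
    obtain ⟨w, hw1, hw2⟩ := (hinf.sdiff hfin).nonempty
    exact ⟨w, by simpa using hw1, fun k hk h => hw2 ⟨k, hk, h⟩⟩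
  obtain ⟨F, hF1, hF2⟩ := bc_lo (s := κ i) (fun i _ => ha1 i) (by linarith : ‖w‖ < 1) hw2
  have hF3 : ∀ x ∈ F, ∃ x' ∈ ball (0 : ℂ) 1, T m x' = T i x ∧
      γ (bc a (κ m) x') = γ (bc a (κ m) 0) + (τ m / τ i : ℂ) * (γ w - γ (bc a (κ i) 0)) := by
    intro x hx
    obtain ⟨x', h3, -, h5, h6⟩ := app' x (hF2 x hx).1 (by rw [(hF2 x hx).2]; exact hw1)
    rw [(hF2 x hx).2] at h6
    exact ⟨x', h3, h5, h6⟩
  have hF4 : ∀ x : ℂ, ∃ x' : ℂ, x ∈ F → x' ∈ ball (0 : ℂ) 1 ∧ T m x' = T i x ∧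
      γ (bc a (κ m) x') = γ (bc a (κ m) 0) + (τ m / τ i : ℂ) * (γ w - γ (bc a (κ i) 0)) := by
    intro x
    by_cases hx : x ∈ F
    · obtain ⟨x', h3, h4⟩ := hF3 x hx
      exact ⟨x', fun _ => ⟨h3, h4⟩⟩
    · exact ⟨0, fun h => absurd h hx⟩
  choose G hG using hF4
  classical
  have hFne : F.Nonempty := by
    rw [← Finset.card_pos, hF1]
    positivity
  obtain ⟨x0, hx0⟩ := hFne
  have hcard : F.card = (F.image G).card := by
    rw [Finset.card_image_of_injOn]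
    intro x hx y hy hxy
    have e1 := (hG x hx).2.1
    have e2 := (hG y hy).2.1
    have e3 : T i x = T i y := by rw [← e1, ← e2, hxy]
    exact (hT i).2.1 (hF2 x hx).1 (hF2 y hy).1 e3
  have hup := bc_up (a := a) (s := κ m) (fun i _ => ha1 i) (w := bc a (κ m) (G x0)) (F.image G) (fun y hy => by
    rw [Finset.mem_image] at hy
    obtain ⟨x, hx, rfl⟩ := hy
    refine ⟨(hG x hx).1, ?_⟩
    exact hγi (hβm _ (hG x hx).1) (hβm _ (hG x0 hx0).1) (by rw [(hG x hx).2.2, (hG x0 hx0).2.2]))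
  rw [← hcard, hF1] at hup
  have e1 : κ i ≤ κ m := (Nat.pow_le_pow_iff_right (by norm_num)).1 hup
  have e2 := hκ hmi
  omega

end Pool.Agent.H44.LB
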