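import Pool.Agent.H44.LB.Crs
import Pool.Agent.H56.UD.RA

/-!
# LEMMA A*: limits along an ultrafilter
-/

set_option autoImplicit false

open Filter Topology Metric Set MeasureTheory

namespace Pool.Agent.H44.LB

open Pool.Agent.H56.UD Pool.Agent.H55.PB Pool.Agent.H56.WP

/-- limits of bounded sequences -/
theorem ulp (𝒰 : Ultrafilter ℕ) {a : ℕ → ℂ} {M : ℝ} (h : ∀ᶠ n in (𝒰 : Filter ℕ), ‖a n‖ ≤ M) :
    ∃ l : ℂ, ‖l‖ ≤ M ∧ Tendsto a (𝒰 : Filter ℕ) (𝓝 l) := by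
  have hle : ((𝒰.map a : Ultrafilter ℂ) : Filter ℂ) ≤ 𝓟 (closedBall 0 M) := by
    rw [le_principal_iff, Ultrafilter.coe_map, mem_map]
    filter_upwards [h] with n hn
    exact mem_closedBall_zero_iff.2 hn
  obtain ⟨l, hl, hl2⟩ := (isCompact_closedBall (0 : ℂ) M).ultrafilter_le_nhds _ hle
  exact ⟨l, mem_closedBall_zero_iff.1 hl, hl2⟩

/-- finitely many values -/
theorem ulf (𝒰 : Ultrafilter ℕ) {A : Set ℂ} (hA : A.Finite) {c : ℕ → ℂ} (h : ∀ᶠ n in (𝒰 : Filter ℕ), c n ∈ A) :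
    ∃ b ∈ A, ∀ᶠ n in (𝒰 : Filter ℕ), c n = b := by
  have h1 : (⋃ b ∈ A, {n | c n = b}) ∈ 𝒰 := by
    filter_upwards [h] with n hn
    exact mem_iUnion₂.2 ⟨c n, hn, rfl⟩
  obtain ⟨b, hb, h2⟩ := (Ultrafilter.finite_biUnion_mem_iff hA).1 h1
  exact ⟨b, hb, h2⟩

/-- limits of univalent functions on the disc -/
theorem ulu (𝒰 : Ultrafilter ℕ) {g : ℕ → ℂ → ℂ} {w : ℕ → ℂ} {σ : ℕ → ℝ} {M m : ℝ} (hm : 0 < m)
    (hg : ∀ᶠ n in (𝒰 : Filter ℕ), DifferentiableOn ℂ (g n) (ball 0 1) ∧ InjOn (g n) (ball 0 1))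
    (hσ : ∀ᶠ n in (𝒰 : Filter ℕ), 0 < σ n ∧ ‖g n 0 - w n‖ ≤ M * σ n ∧ ‖deriv (g n) 0‖ ≤ M * σ n ∧ m * σ n ≤ ‖deriv (g n) 0‖) :
    ∃ γ : ℂ → ℂ, DifferentiableOn ℂ γ (ball 0 1) ∧ InjOn γ (ball 0 1) ∧
      TendstoLocallyUniformlyOn (fun n v => (g n v - w n) / (σ n : ℂ)) γ (𝒰 : Filter ℕ) (ball 0 1) := by
  have hbd : ∀ ρ : ℝ, 0 < ρ → ρ < 1 → ∃ B : ℝ, 0 < B ∧ ∀ᶠ n in (𝒰 : Filter ℕ), (∀ v ∈ closedBall (0 : ℂ) ρ,
      ‖(g n v - w n) / (σ n : ℂ)‖ ≤ B) ∧ ∀ v ∈ closedBall (0 : ℂ) ρ, ∀ v' ∈ closedBall (0 : ℂ) ρ,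
      m * ‖v - v'‖ ≤ B * ‖(g n v - w n) / (σ n : ℂ) - (g n v' - w n) / (σ n : ℂ)‖ := by
    intro ρ h0 h1
    obtain ⟨C, hC, hd⟩ := Pool.Agent.H18.LA.dis h0 h1
    refine ⟨C * |M| + |M| + C, by positivity, ?_⟩
    filter_upwards [hg, hσ] with n ⟨hn1, hn2⟩ ⟨h2, h3, h4, h5⟩
    have hM : M * σ n ≤ |M| * σ n := mul_le_mul_of_nonneg_right (le_abs_self M) h2.le
    have hσn : ‖(σ n : ℂ)‖ = σ n := by rw [Complex.norm_real, Real.norm_of_nonneg h2.le]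
    have hz : (0 : ℂ) ∈ closedBall (0 : ℂ) ρ := mem_closedBall_self h0.le
    refine ⟨fun v hv => ?_, fun v hv v' hv' => ?_⟩
    · rw [norm_div, hσn, div_le_iff₀ h2]
      have h6 := (hd (g n) hn1 hn2 v hv 0 hz).2.2.1
      rw [sub_zero] at h6
      have h7 : ‖v‖ ≤ 1 := (mem_closedBall_zero_iff.1 hv).trans h1.le
      have h8 : C * ‖deriv (g n) 0‖ * ‖v‖ ≤ C * (|M| * σ n) * 1 :=
        mul_le_mul (mul_le_mul_of_nonneg_left (h4.trans hM) (by linarith)) h7 (norm_nonneg _) (by positivity)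
      calc ‖g n v - w n‖ ≤ ‖g n v - g n 0‖ + ‖g n 0 - w n‖ := norm_sub_le_norm_sub_add_norm_sub _ _ _
        _ ≤ C * (|M| * σ n) * 1 + |M| * σ n := add_le_add (h6.trans h8) (h3.trans hM)
        _ ≤ (C * |M| + |M| + C) * σ n := by nlinarith
    · have h6 := (hd (g n) hn1 hn2 v hv v' hv').2.2.2
      have h7 : (g n v - w n) / (σ n : ℂ) - (g n v' - w n) / (σ n : ℂ) = (g n v - g n v') / (σ n : ℂ) := by ring
      rw [h7, norm_div, hσn, mul_div_assoc', le_div_iff₀ h2]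
      have h8 : m * σ n * ‖v - v'‖ ≤ ‖deriv (g n) 0‖ * ‖v - v'‖ := mul_le_mul_of_nonneg_right h5 (norm_nonneg _)
      have h9 : C * ‖g n v - g n v'‖ ≤ (C * |M| + |M| + C) * ‖g n v - g n v'‖ :=
        mul_le_mul_of_nonneg_right (by
          have : 0 ≤ C * |M| + |M| := by positivity
          linarith) (norm_nonneg _)
      calc m * ‖v - v'‖ * σ n = m * σ n * ‖v - v'‖ := by ring
        _ ≤ _ := h8.trans (h6.trans h9)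
  obtain ⟨γ, hγd, hγ⟩ := ulim_loc 𝒰 (isOpen_ball (x := (0 : ℂ)) (ε := 1)) (G := fun n v => (g n v - w n) / (σ n : ℂ)) (by
    intro u hu
    rw [mem_ball_zero_iff] at hu
    obtain ⟨B, hB, hev⟩ := hbd ((1 + ‖u‖) / 2) (by positivity) (by linarith)
    have hsub : ball u ((1 - ‖u‖) / 2) ⊆ closedBall (0 : ℂ) ((1 + ‖u‖) / 2) := by
      intro v hv
      rw [mem_ball, dist_eq_norm] at hv
      rw [mem_closedBall_zero_iff]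
      calc ‖v‖ = ‖(v - u) + u‖ := by rw [sub_add_cancel]
        _ ≤ ‖v - u‖ + ‖u‖ := norm_add_le _ _
        _ ≤ _ := by linarith
    have hsub2 : ball u ((1 - ‖u‖) / 2) ⊆ ball (0 : ℂ) 1 := hsub.trans (closedBall_subset_ball (by linarith))
    refine ⟨(1 - ‖u‖) / 2, B, by linarith, hsub2, ?_⟩
    filter_upwards [hg, hev] with n hn1 hn2
    exact ⟨((hn1.1.mono hsub2).sub_const _).div_const _, fun v hv => hn2.1 v (hsub hv)⟩)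
  refine ⟨γ, hγd, ?_, hγ⟩
  intro v hv v' hv' he
  rw [mem_ball_zero_iff] at hv hv'
  obtain ⟨ρ, hρ⟩ : ∃ ρ, ρ = max (max ‖v‖ ‖v'‖) (1 / 2) := ⟨_, rfl⟩
  have h1 : ρ < 1 := by
    rw [hρ]
    exact max_lt (max_lt hv hv') (by norm_num)
  have h0 : 0 < ρ := by
    rw [hρ]
    exact lt_of_lt_of_le (by norm_num) (le_max_right _ _)
  obtain ⟨B, hB, hev⟩ := hbd ρ h0 h1
  have hvρ : v ∈ closedBall (0 : ℂ) ρ := mem_closedBall_zero_iff.2 (by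
    rw [hρ]; exact (le_max_left _ _).trans (le_max_left _ _))
  have hvρ' : v' ∈ closedBall (0 : ℂ) ρ := mem_closedBall_zero_iff.2 (by
    rw [hρ]; exact (le_max_right _ _).trans (le_max_left _ _))
  have ht : Tendsto (fun n => B * ‖(g n v - w n) / (σ n : ℂ) - (g n v' - w n) / (σ n : ℂ)‖) (𝒰 : Filter ℕ)
      (𝓝 (B * ‖γ v - γ v'‖)) :=
    ((hγ.tendsto_at (mem_ball_zero_iff.2 hv)).sub (hγ.tendsto_at (mem_ball_zero_iff.2 hv'))).norm.const_mul B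
  have h2 : m * ‖v - v'‖ ≤ B * ‖γ v - γ v'‖ := ge_of_tendsto ht (hev.mono fun n hn => hn.2 v hvρ v' hvρ')
  rw [he, sub_self, norm_zero, mul_zero] at h2
  have h3 : ‖v - v'‖ ≤ 0 := by
    by_contra hcon
    push Not at hcon
    have := mul_pos hm hcon
    linarith
  exact sub_eq_zero.1 (norm_le_zero_iff.1 h3)

/-- values along convergent sequences -/
theorem tlu_seq (𝒰 : Ultrafilter ℕ) {G : ℕ → ℂ → ℂ} {g : ℂ → ℂ} {S : Set ℂ} (hS : IsOpen S)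
    (hG : TendstoLocallyUniformlyOn G g (𝒰 : Filter ℕ) S) (hg : ContinuousOn g S) {v : ℕ → ℂ} {u : ℂ} (hu : u ∈ S)
    (hv : Tendsto v (𝒰 : Filter ℕ) (𝓝 u)) : Tendsto (fun n => G n (v n)) (𝒰 : Filter ℕ) (𝓝 (g u)) := by
  refine tendsto_comp_of_locally_uniform_limit (hg.continuousAt (hS.mem_nhds hu)) hv ?_
  intro V hV
  obtain ⟨t, ht, h1⟩ := hG V hV u hu
  exact ⟨t, by rwa [hS.nhdsWithin_eq hu] at ht, h1⟩

/-- the crossing in the limit -/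
theorem crs_lim (𝒰 : Ultrafilter ℕ) {θ t : ℝ} (hθ : 0 < θ) (hθ1 : θ < 1) (ht : θ < t) (ht1 : t < 1) {a : ℕ → ℕ → ℂ} {al : ℕ → ℂ}
    (ha : ∀ s, ∀ᶠ n in (𝒰 : Filter ℕ), ∀ i < s, ‖a n (i + 1)‖ ≤ ths θ i)
    (hal : ∀ i, Tendsto (fun n => a n (i + 1)) (𝒰 : Filter ℕ) (𝓝 (al (i + 1)))) {s s' : ℕ} {Θ : ℕ → ℕ → ℂ → ℂ} {c0 : ℂ}
    {lam : ℕ → ℝ} (hl : ∀ᶠ n in (𝒰 : Filter ℕ), 0 < lam n) (hΘd : ∀ᶠ n in (𝒰 : Filter ℕ), DifferentiableOn ℂ (Θ n s') (ball 0 1))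
    {T T' : ℂ → ℂ} (hT : TendstoLocallyUniformlyOn (fun n v => (Θ n s v - c0) / (lam n : ℂ)) T (𝒰 : Filter ℕ) (ball 0 1))
    (hT' : TendstoLocallyUniformlyOn (fun n v => (Θ n s' v - c0) / (lam n : ℂ)) T' (𝒰 : Filter ℕ) (ball 0 1))
    (hTd : DifferentiableOn ℂ T (ball 0 1)) (hTi' : InjOn T' (ball 0 1))
    (hcr : ∀ᶠ n in (𝒰 : Filter ℕ), ∃ v ∈ ball (0 : ℂ) 1, ‖bc (a n) s v‖ ≤ t ∧
      Θ n s v ∉ Θ n s' '' {w : ℂ | w ∈ ball (0 : ℂ) 1 ∧ ‖bc (a n) s' w‖ < t}) :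
    ∃ v ∈ ball (0 : ℂ) 1, ‖bc al s v‖ ≤ t ∧ T v ∉ T' '' {w : ℂ | w ∈ ball (0 : ℂ) 1 ∧ ‖bc al s' w‖ < t} := by
  have ht0 : 0 < t := hθ.trans ht
  have hex : ∀ n, ∃ v : ℂ, (∃ v ∈ ball (0 : ℂ) 1, ‖bc (a n) s v‖ ≤ t ∧
      Θ n s v ∉ Θ n s' '' {w : ℂ | w ∈ ball (0 : ℂ) 1 ∧ ‖bc (a n) s' w‖ < t}) → v ∈ ball (0 : ℂ) 1 ∧ ‖bc (a n) s v‖ ≤ t ∧
      Θ n s v ∉ Θ n s' '' {w : ℂ | w ∈ ball (0 : ℂ) 1 ∧ ‖bc (a n) s' w‖ < t} := by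
    intro n
    by_cases hP : ∃ v ∈ ball (0 : ℂ) 1, ‖bc (a n) s v‖ ≤ t ∧
      Θ n s v ∉ Θ n s' '' {w : ℂ | w ∈ ball (0 : ℂ) 1 ∧ ‖bc (a n) s' w‖ < t}
    · obtain ⟨v, hv⟩ := hP
      exact ⟨v, fun _ => hv⟩
    · exact ⟨0, fun h => absurd h hP⟩
  choose v hv using hex
  have hv1 := hcr.mono fun n hn => hv n hn
  have hρ := rds_lt hθ hθ1 ht0 ht1 s
  have hvρ : ∀ᶠ n in (𝒰 : Filter ℕ), ‖v n‖ ≤ rds θ t s := by
    filter_upwards [hv1, ha s] with n hn1 hn2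
    exact bc_rad hθ hθ1 ht0 ht1 hn2 (mem_ball_zero_iff.1 hn1.1) hn1.2.1
  obtain ⟨u, hu, hvu⟩ := ulp 𝒰 hvρ
  have hub : u ∈ ball (0 : ℂ) 1 := mem_ball_zero_iff.2 (hu.trans_lt hρ)
  have hbl : ∀ s, TendstoLocallyUniformlyOn (fun n => bc (a n) s) (bc al s) (𝒰 : Filter ℕ) (ball 0 1) := fun s =>
    bc_lim hθ hθ1 𝒰 (ha s) fun i _ => hal i
  have hth : ∀ s, ∀ i < s, ‖al (i + 1)‖ < 1 := by
    intro s i hi
    refine lt_of_le_of_lt ?_ (ths_lt hθ hθ1 i)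
    exact le_of_tendsto (hal i).norm ((ha s).mono fun n hn => hn i hi)
  have hbc : ∀ s, ContinuousOn (bc al s) (ball 0 1) := fun s => (bc_diff (hth s)).continuousOn
  refine ⟨u, hub, ?_, ?_⟩
  · exact le_of_tendsto (tlu_seq 𝒰 isOpen_ball (hbl s) (hbc s) hub hvu).norm (hv1.mono fun n hn => hn.2.1)
  · rintro ⟨w, ⟨hw, hwt⟩, he⟩
    have h1 : Tendsto (fun n => (Θ n s (v n) - c0) / (lam n : ℂ)) (𝒰 : Filter ℕ) (𝓝 (T' w)) := by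
      rw [he]
      exact tlu_seq 𝒰 isOpen_ball hT hTd.continuousOn hub hvu
    obtain ⟨w', hw', hw'l⟩ := ulim_pre 𝒰 isOpen_ball (hΘd.mono fun n hn => (hn.sub_const _).div_const _) hT' hTi' hw h1
    have h2 : ∀ᶠ n in (𝒰 : Filter ℕ), ‖bc (a n) s' (w' n)‖ < t :=
      (tlu_seq 𝒰 isOpen_ball (hbl s') (hbc s') hw hw'l).norm.eventually_lt_const hwt
    obtain ⟨n, h3, h4, h5, h6⟩ := (hw'.and (h2.and (hv1.and hl))).exists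
    have h7 : (lam n : ℂ) ≠ 0 := by exact_mod_cast h6.ne'
    have h8 : Θ n s' (w' n) = Θ n s (v n) := by
      have := h3.2
      rw [div_left_inj' h7, sub_left_inj] at this
      exact this
    exact h5.2.2 ⟨w' n, ⟨h3.1, h4⟩, h8⟩

end Pool.Agent.H44.LB
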