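import Pool.Agent.H44.LB.Rel
import Pool.Agent.H44.LB.Fin
import Pool.Agent.H44.LB.Lim
import Pool.Agent.H44.LA.Defs

/-!
# LEMMA A for every critical point accumulated by the typical point

PROOF. By contradiction (`ε0 = 1 / (n + 1)`), `t = (1 + θ) / 2`: `Bd` for every `n` (`ncv`; first non univalent visit), `tw_ex`:
`∀ S, ∀ᶠ n, ∃ tower of height S`; `S n` = the largest `S ≤ n` with a tower (`Nat.findGreatest`): `Sq`. `𝒰 = hyperfilter ℕ`. `γ` = limit of `(g n v - z) / ‖deriv (g n) 0‖`, `al i`, `c∞ s ∈ Cr` with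
`c n s = c∞ s` eventually; `c0` with infinitely many `s ≥ 1`: `c∞ s = c0` (`Finite.exists_infinite_fiber`), `κ i` their enumeration. `lam n = ‖deriv (Θ n (κ 0)) 0‖`; `T i` = limit of `(Θ n (κ i) v - c0) / lam n` (`tw_siz`, `dis`). `haθ`: `tw_P`, `bc_lim`. `rel`: `rel 0 i`; `i = 0`: identity.
`cr`: `κ i < κ m`: `tw_att`: points `v n`, `‖bc (a n) (κ i) (v n)‖ < t`, limit `v` (`bc_rad`), `T i v ∉ T m '' {.. < t}` by `ulim_pre`. `κ m < κ i`: `tw_vis` the same with the points `x n (κ i)`. `fin`.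
-/

set_option autoImplicit false

open Filter Topology Metric Set MeasureTheory

namespace Pool.Agent.H44.LB

open Pool.Agent.H56.UD Pool.Agent.H55.PB Pool.Agent.H56.WP Pool.Agent.H44.LA

variable {f : ℂ → ℂ} {U J P Cr E : Set ℂ} {δ b0 : ℝ} {η : ℂ → ℂ → ℂ} {ρ : ℝ} {X hh μ : ℂ → ℂ}

/-- the first visit which is not univalent -/
theorem bd_ex (h : PS f U J P Cr δ η ρ) (hX : FX f U J E δ X hh μ b0) {z c : ℂ} (hz : z ∈ E) (hc : c ∈ Cr) (hrc : Rc f c z)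
    {θ t M : ℝ} (hθ : 0 < θ) (ht : θ < t) (ht1 : t < 1) :
    ∃ ε1 : ℝ, 0 < ε1 ∧ ∀ (K m : ℕ) (y uc : ℂ) (ε : ℝ) (Φ g : ℂ → ℂ), y ∈ J → ε ≤ ε1 → Wd f U J P δ K θ y ε Φ →
      ‖uc‖ ≤ θ → Φ uc = c → DifferentiableOn ℂ g (ball 0 1) →
      (∀ v ∈ ball (0 : ℂ) 1, g v ∈ dm f U J δ (m + K) ∧ f^[m] (g v) = Φ v) → ‖g 0 - z‖ ≤ M * ‖deriv g 0‖ →
      ∃ (N : ℕ) (u0 : ℂ), Bd f U J P δ θ t M z K m N y ε uc u0 Φ g := by
  obtain ⟨ε1, hε1, hn⟩ := Pool.Agent.H18.LA.ncv h hX (θ := θ) (ρ0 := t) (hθ.trans ht) ht1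
  refine ⟨ε1, hε1, ?_⟩
  intro K m y uc ε Φ g hy hε hW huc hΦc hgd hgv hgz
  obtain ⟨n0, hn0⟩ := hn z hz K y uc c ε Φ hε hW (huc.trans ht.le) hΦc (h.CJ hc)
  have hopen : IsOpen (Φ '' ball 0 t) := Pool.Agent.H47.TH.image_open hW.diff hW.inj (ball_subset_ball ht1.le) isOpen_ball
  have hcm : c ∈ Φ '' ball 0 t := ⟨uc, mem_ball_zero_iff.2 (huc.trans_lt ht), hΦc⟩
  obtain ⟨s, hs, hsub⟩ := Metric.isOpen_iff.1 hopen c hcm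
  have hex : ∃ n, (∃ u0 : ℂ, ‖u0‖ ≤ t ∧ f^[n] z = Φ u0) ∧ ¬ Pool.Agent.H18.LA.Vis f U J P δ K θ y ε Φ t z n := by
    obtain ⟨n, hn1, hn2⟩ := hrc s hs n0
    obtain ⟨u, hu, hu2⟩ := hsub hn2
    exact ⟨n, ⟨u, (mem_ball_zero_iff.1 hu).le, hu2.symm⟩, hn0 n hn1⟩
  classical
  obtain ⟨⟨u0, hu0, hzu⟩, hnv⟩ := Nat.find_spec hex
  refine ⟨Nat.find hex, u0, hy, hW, huc, by rw [hΦc]; exact h.CJ hc, hgd, hgv, hgz, hu0, hzu, ?_, hnv⟩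
  intro i hi hu
  by_contra hcon
  exact Nat.find_min hex hi ⟨hu, hcon⟩

/-- the size of a window -/
theorem wd_pos {K : ℕ} {θ ε : ℝ} {y : ℂ} {Φ : ℂ → ℂ} (hW : Wd f U J P δ K θ y ε Φ) : 0 < ‖deriv Φ 0‖ := by
  obtain ⟨C, -, hd⟩ := Pool.Agent.H18.LA.dis (ρ0 := 1 / 2) (by norm_num) (by norm_num)
  exact (hd Φ hW.diff hW.inj 0 (mem_closedBall_self (by norm_num)) 0 (mem_closedBall_self (by norm_num))).1

/-- no sequence of bad data with towers -/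
theorem no_sq (h : PS f U J P Cr δ η ρ) (hX : FX f U J E δ X hh μ b0) {θ t M : ℝ} (hθ : 0 < θ) (hθ1 : θ < 1) (ht : θ < t)
    (ht1 : t < 1) {𝒰 : Ultrafilter ℕ} {z : ℂ} (hz : z ∈ E) {K m N : ℕ → ℕ} {y : ℕ → ℂ} {ε : ℕ → ℝ}
    {uc u0 : ℕ → ℂ} {Φ g : ℕ → ℂ → ℂ} {S : ℕ → ℕ} {k : ℕ → ℕ → ℕ} {c a x : ℕ → ℕ → ℂ} {Θ : ℕ → ℕ → ℂ → ℂ}
    (hS : Sq f U J P Cr δ θ t M 𝒰 z K m N y ε uc u0 Φ g S k c a x Θ) : False := by
  have hzJ := hX.EJ hz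
  -- the frame
  have hg : ∀ᶠ n in (𝒰 : Filter ℕ), DifferentiableOn ℂ (g n) (ball 0 1) ∧ InjOn (g n) (ball 0 1) := by
    filter_upwards [hS.bd] with n hn
    refine ⟨hn.gd, fun v hv w hw he => hn.wd.inj hv hw ?_⟩
    rw [← (hn.gv v hv).2, ← (hn.gv w hw).2, he]
  have hgp : ∀ᶠ n in (𝒰 : Filter ℕ), 0 < ‖deriv (g n) 0‖ := by
    obtain ⟨C, -, hd⟩ := Pool.Agent.H18.LA.dis (ρ0 := 1 / 2) (by norm_num) (by norm_num)
    filter_upwards [hg] with n hn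
    exact (hd _ hn.1 hn.2 0 (mem_closedBall_self (by norm_num)) 0 (mem_closedBall_self (by norm_num))).1
  obtain ⟨γ, hγd, hγi, hγ⟩ := ulu 𝒰 (g := g) (w := fun _ => z) (σ := fun n => ‖deriv (g n) 0‖) (M := max M 1) (m := 1) one_pos hg (by
    filter_upwards [hS.bd, hgp] with n hn hn2
    refine ⟨hn2, hn.gz.trans (mul_le_mul_of_nonneg_right (le_max_left _ _) hn2.le), ?_, by rw [one_mul]⟩
    calc ‖deriv (g n) 0‖ = 1 * ‖deriv (g n) 0‖ := (one_mul _).symm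
      _ ≤ _ := mul_le_mul_of_nonneg_right (le_max_right _ _) hn2.le)
  -- the parameters
  have ha : ∀ s, ∀ᶠ n in (𝒰 : Filter ℕ), ∀ i < s, ‖a n (i + 1)‖ ≤ ths θ i := by
    intro s
    filter_upwards [hS.tw, hS.Si s] with n hn hn2 i hi
    exact hn.ca i (lt_of_lt_of_le hi hn2)
  have hex : ∀ i : ℕ, ∃ l : ℂ, ‖l‖ ≤ ths θ i ∧ Tendsto (fun n => a n (i + 1)) (𝒰 : Filter ℕ) (𝓝 l) := fun i =>
    ulp 𝒰 ((ha (i + 1)).mono fun n hn => hn i (Nat.lt_succ_self i))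
  choose al' hal'1 hal'2 using hex
  obtain ⟨al, hal⟩ : ∃ al : ℕ → ℂ, ∀ i, al (i + 1) = al' i := ⟨fun i => al' (i - 1), fun i => rfl⟩
  have hal1 : ∀ i, ‖al (i + 1)‖ ≤ ths θ i := fun i => by rw [hal]; exact hal'1 i
  have hal2 : ∀ i, Tendsto (fun n => a n (i + 1)) (𝒰 : Filter ℕ) (𝓝 (al (i + 1))) := fun i => by rw [hal]; exact hal'2 i
  have hallt : ∀ i, ‖al (i + 1)‖ < 1 := fun i => (hal1 i).trans_lt (ths_lt hθ hθ1 i)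
  have hbl : ∀ s, TendstoLocallyUniformlyOn (fun n => bc (a n) s) (bc al s) (𝒰 : Filter ℕ) (ball 0 1) := fun s =>
    bc_lim hθ hθ1 𝒰 (ha s) fun i _ => hal2 i
  have hbc : ∀ s, ContinuousOn (bc al s) (ball 0 1) := fun s => (bc_diff fun i _ => hallt i).continuousOn
  have haθ : ∀ i, ‖bc al i (al (i + 1))‖ ≤ θ := by
    intro i
    refine le_of_tendsto (tlu_seq 𝒰 isOpen_ball (hbl i) (hbc i) (mem_ball_zero_iff.2 (hallt i)) (hal2 i)).norm ?_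
    filter_upwards [hS.tw, hS.Si (i + 1)] with n hn hn2
    exact tw_P h hθ hθ1 hn (by omega)
  -- the critical points
  have hex2 : ∀ i : ℕ, ∃ b ∈ Cr, ∀ᶠ n in (𝒰 : Filter ℕ), c n (i + 1) = b := fun i => ulf 𝒰 h.Cf (by
    filter_upwards [hS.tw, hS.Si (i + 1)] with n hn hn2
    exact (hn.cc i (by omega)).1)
  choose cc hcc1 hcc2 using hex2
  have hfin : Finite Cr := h.Cf
  obtain ⟨c0, hc0⟩ := Finite.exists_infinite_fiber (fun i : ℕ => (⟨cc i, hcc1 i⟩ : Cr))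
  have hinf : {i : ℕ | cc i = c0}.Infinite := by
    rw [← Set.infinite_coe_iff]
    refine Infinite.of_injective (β := (fun i : ℕ => (⟨cc i, hcc1 i⟩ : Cr)) ⁻¹' {c0})
      (fun i => (⟨i.1, congrArg Subtype.val (mem_singleton_iff.1 i.2)⟩ : {i : ℕ | cc i = c0})) ?_
    intro i j hij
    exact Subtype.ext (by simpa using hij)
  obtain ⟨κ', hκ'm, hκ'c⟩ : ∃ κ' : ℕ → ℕ, StrictMono κ' ∧ ∀ i, cc (κ' i) = c0 :=
    ⟨Nat.nth fun i => cc i = c0, Nat.nth_strictMono hinf, fun i => Nat.nth_mem_of_infinite hinf i⟩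
  obtain ⟨κ, hκ⟩ : ∃ κ : ℕ → ℕ, ∀ i, κ i = κ' i + 1 := ⟨fun i => κ' i + 1, fun i => rfl⟩
  have hκm : StrictMono κ := fun i j hij => by
    rw [hκ, hκ]
    have := hκ'm hij
    omega
  have hκ1 : ∀ i, 1 ≤ κ i := fun i => by rw [hκ]; omega
  have hcκ : ∀ i, ∀ᶠ n in (𝒰 : Filter ℕ), c n (κ i) = (c0 : ℂ) := fun i => by
    rw [hκ]
    exact (hcc2 (κ' i)).mono fun n hn => by rw [hn, hκ'c]
  have hΘ0 : ∀ i, ∀ᶠ n in (𝒰 : Filter ℕ), Θ n (κ i) 0 = (c0 : ℂ) := fun i => by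
    filter_upwards [hcκ i, hS.tw, hS.Si (κ i)] with n h1 h2 h3
    have h4 := (h2.cc (κ' i) (by have := hκ i; omega)).2
    rw [← hκ i] at h4
    rw [h4, h1]
  have hΘW : ∀ i, ∀ᶠ n in (𝒰 : Filter ℕ), DifferentiableOn ℂ (Θ n (κ i)) (ball 0 1) ∧ InjOn (Θ n (κ i)) (ball 0 1) ∧
      0 < ‖deriv (Θ n (κ i)) 0‖ := fun i => by
    filter_upwards [hS.tw, hS.Si (κ i)] with n h2 h3
    have h4 := h2.wd (κ i) h3
    exact ⟨h4.diff, h4.inj, wd_pos h4⟩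
  -- the sizes
  have hsz : ∀ i, ∃ C : ℝ, 1 ≤ C ∧ ∀ᶠ n in (𝒰 : Filter ℕ), ‖deriv (Θ n (κ 0)) 0‖ ≤ C * ‖deriv (Θ n (κ i)) 0‖ ∧
      ‖deriv (Θ n (κ i)) 0‖ ≤ C * ‖deriv (Θ n (κ 0)) 0‖ := by
    intro i
    rcases Nat.eq_zero_or_pos i with rfl | hi
    · exact ⟨1, le_rfl, Eventually.of_forall fun n => by rw [one_mul]; exact ⟨le_rfl, le_rfl⟩⟩
    · obtain ⟨ε0, C, hε0, hC, h1⟩ := tw_siz h (M := M) hθ hθ1 ht ht1 (κ 0) (κ i) (hκ1 0) (hκm hi)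
      refine ⟨C, hC, ?_⟩
      filter_upwards [hS.bd, hS.tw, hS.Si (κ i), hS.e0.eventually_le_const hε0, hcκ 0, hcκ i] with n h2 h3 h4 h5 h6 h7
      exact h1 z hzJ _ _ _ _ _ _ _ _ _ _ _ _ _ _ _ h5 h2 h3 h4 (by rw [h6, h7])
  have hTex : ∀ i, ∃ T : ℂ → ℂ, DifferentiableOn ℂ T (ball 0 1) ∧ InjOn T (ball 0 1) ∧
      TendstoLocallyUniformlyOn (fun n v => (Θ n (κ i) v - c0) / (‖deriv (Θ n (κ 0)) 0‖ : ℂ)) T (𝒰 : Filter ℕ) (ball 0 1) := by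
    intro i
    obtain ⟨C, hC, h1⟩ := hsz i
    refine ulu 𝒰 (g := fun n => Θ n (κ i)) (w := fun _ => (c0 : ℂ)) (σ := fun n => ‖deriv (Θ n (κ 0)) 0‖) (M := C) (m := 1 / C)
      (by positivity) ((hΘW i).mono fun n hn => ⟨hn.1, hn.2.1⟩) ?_
    filter_upwards [h1, hΘW 0, hΘ0 i] with n h2 h3 h4
    refine ⟨h3.2.2, ?_, h2.2, ?_⟩
    · rw [h4, sub_self, norm_zero]
      have := h3.2.2
      positivity
    · rw [div_mul_eq_mul_div, one_mul, div_le_iff₀ (by linarith), mul_comm]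
      exact h2.1
  choose T hTd hTi hTl using hTex
  have hT0 : ∀ i, T i 0 = 0 := by
    intro i
    refine tendsto_nhds_unique ((hTl i).tendsto_at (mem_ball_self one_pos)) ?_
    refine tendsto_const_nhds.congr' ?_
    filter_upwards [hΘ0 i] with n hn
    rw [hn, sub_self, zero_div]
  have hlam : ∀ᶠ n in (𝒰 : Filter ℕ), 0 < ‖deriv (Θ n (κ 0)) 0‖ := (hΘW 0).mono fun n hn => hn.2.2
  refine fin hγd hγi hθ ht ht1 hal1 haθ hκm hκ1 (fun i => ⟨hTd i, hTi i, hT0 i⟩) ?_ ?_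
  · intro i
    rcases Nat.eq_zero_or_pos i with rfl | hi
    · refine ⟨1, 0, 1, id, one_ne_zero, one_pos, le_rfl, differentiableOn_id, fun x hx => ⟨hx, rfl, ?_⟩⟩
      rw [Complex.ofReal_one, one_mul, add_zero]
      rfl
    · exact rel h hX hθ hθ1 ht ht1 hz hS hγi hγ hal2 (hκ1 0) (hκm hi) ((hcκ 0).and (hcκ i)) hlam (hTl 0) (hTl i) (hTi 0) (hTi i)
  · intro i j hij
    refine crs_lim 𝒰 hθ hθ1 ht ht1 ha hal2 (c0 := (c0 : ℂ)) (lam := fun n => ‖deriv (Θ n (κ 0)) 0‖) hlam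
      ((hΘW j).mono fun n hn => hn.1) (hTl i) (hTl j) (hTd i) (hTi j) ?_
    rcases lt_or_gt_of_ne hij with hlt | hgt
    · obtain ⟨ε0, hε0, h1⟩ := tw_att h hθ hθ1 ht ht1
      filter_upwards [hS.bd, hS.tw, hS.Si (κ j), hS.e0.eventually_le_const hε0, hcκ i, hcκ j] with n h2 h3 h4 h5 h6 h7
      obtain ⟨v, hv, hvt, hvn⟩ := h1 _ _ _ _ _ _ _ _ _ _ _ _ _ (κ i) (κ j) h2.yJ h5 h3 (hκ1 i) (hκm hlt) h4 (by rw [h6, h7])
      exact ⟨v, hv, hvt.le, hvn⟩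
    · filter_upwards [hS.bd, hS.tw, hS.Si (κ i)] with n h2 h3 h4
      refine ⟨x n (κ i), mem_ball_zero_iff.2 (h3.xs _ h4).1, by rw [tw_x h3 h4]; exact h2.u1, fun hcon => ?_⟩
      refine tw_vis h hθ hθ1 ht ht1 hzJ h2 h3 (hκ1 j) (hκm hgt) h4 ?_
      obtain ⟨w, hw, hwe⟩ := hcon
      exact ⟨w, ⟨hw.1, hw.2.le⟩, hwe⟩

/-- LEMMA A, general: no univalent pull back, at bounded distance of `z`, of a small window with `c` in its core -/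
theorem lem_s (h : PS f U J P Cr δ η ρ) (hX : FX f U J E δ X hh μ b0) {z c : ℂ} (hz : z ∈ E) (hc : c ∈ Cr) (hrc : Rc f c z)
    {θ M : ℝ} (hθ : 0 < θ) (hθ1 : θ < 1) :
    ∃ ε0 : ℝ, 0 < ε0 ∧ ∀ (K m : ℕ) (y uc : ℂ) (ε : ℝ) (Φ g : ℂ → ℂ), y ∈ J → ε ≤ ε0 → Wd f U J P δ K θ y ε Φ →
      ‖uc‖ ≤ θ → Φ uc = c → DifferentiableOn ℂ g (ball 0 1) →
      (∀ v ∈ ball (0 : ℂ) 1, g v ∈ dm f U J δ (m + K) ∧ f^[m] (g v) = Φ v) → ¬ ‖g 0 - z‖ ≤ M * ‖deriv g 0‖ := by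
  obtain ⟨t, ht0, ht1⟩ : ∃ t : ℝ, θ < t ∧ t < 1 := ⟨(1 + θ) / 2, by linarith, by linarith⟩
  obtain ⟨ε1, hε1, hbd⟩ := bd_ex h hX (M := M) hz hc hrc hθ ht0 ht1
  by_contra hcon
  push Not at hcon
  have hex : ∀ n : ℕ, ∃ (K m N : ℕ) (y : ℂ) (ε : ℝ) (uc u0 : ℂ) (Φ g : ℂ → ℂ), ε ≤ 1 / ((n : ℝ) + 1) ∧
      Bd f U J P δ θ t M z K m N y ε uc u0 Φ g := by
    intro n
    obtain ⟨K, m, y, uc, ε, Φ, g, hy, hε, hW, huc, hΦc, hgd, hgv, hgz⟩ := hcon (min (1 / ((n : ℝ) + 1)) ε1)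
      (lt_min (by positivity) hε1)
    obtain ⟨N, u0, hB⟩ := hbd K m y uc ε Φ g hy (hε.trans (min_le_right _ _)) hW huc hΦc hgd hgv hgz
    exact ⟨K, m, N, y, ε, uc, u0, Φ, g, hε.trans (min_le_left _ _), hB⟩
  choose K m N y ε uc u0 Φ g hεn hB using hex
  obtain ⟨Q, hQ⟩ : ∃ Q : ℕ → ℕ → Prop, ∀ n S, Q n S ↔ ∃ (k : ℕ → ℕ) (c a x : ℕ → ℂ) (Θ : ℕ → ℂ → ℂ),
      Tw f U J P Cr δ (K n) θ (y n) (ε n) (Φ n) z (N n) (u0 n) S k c a x Θ := ⟨_, fun _ _ => Iff.rfl⟩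
  have hev : ∀ S : ℕ, ∀ᶠ n in atTop, Q n S := by
    intro S
    obtain ⟨ε0, hε0, h1⟩ := tw_ex h hX (M := M) hθ hθ1 (hθ.trans ht0) ht1 S
    filter_upwards [(tendsto_one_div_add_atTop_nhds_zero_nat (𝕜 := ℝ)).eventually_le_const hε0] with n hn
    rw [hQ]
    exact h1 z hz _ _ _ _ _ _ _ _ _ ((hεn n).trans hn) (hB n)
  classical
  obtain ⟨S, hSd⟩ : ∃ S : ℕ → ℕ, ∀ n, S n = Nat.findGreatest (Q n) n := ⟨_, fun _ => rfl⟩
  have hSs : ∀ s : ℕ, ∀ᶠ n in atTop, s ≤ S n := by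
    intro s
    filter_upwards [hev s, eventually_ge_atTop s] with n h1 h2
    rw [hSd]
    exact Nat.le_findGreatest h2 h1
  have hQS : ∀ᶠ n in atTop, Q n (S n) := by
    filter_upwards [hev 0] with n h1
    rw [hSd]
    exact Nat.findGreatest_spec (Nat.zero_le n) h1
  have hex2 : ∀ n, ∃ (k : ℕ → ℕ) (c a x : ℕ → ℂ) (Θ : ℕ → ℂ → ℂ), Q n (S n) →
      Tw f U J P Cr δ (K n) θ (y n) (ε n) (Φ n) z (N n) (u0 n) (S n) k c a x Θ := by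
    intro n
    by_cases hq : Q n (S n)
    · obtain ⟨k, c, a, x, Θ, h1⟩ := (hQ n (S n)).1 hq
      exact ⟨k, c, a, x, Θ, fun _ => h1⟩
    · exact ⟨fun _ => 0, fun _ => 0, fun _ => 0, fun _ => 0, fun _ _ => 0, fun h1 => absurd h1 hq⟩
  choose k c' a x Θ htw using hex2
  have hle : ((hyperfilter ℕ : Ultrafilter ℕ) : Filter ℕ) ≤ atTop := Nat.hyperfilter_le_atTop
  have hεp : ∀ n, 0 ≤ ε n := fun n => by
    have h1 := ((hB n).wd.val 0 (mem_ball_self one_pos)).2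
    rw [mem_ball] at h1
    exact (dist_nonneg.trans_lt h1).le
  refine no_sq h hX (M := M) hθ hθ1 ht0 ht1 (𝒰 := hyperfilter ℕ) hz (K := K) (m := m) (N := N) (y := y)
    (ε := ε) (uc := uc) (u0 := u0) (Φ := Φ) (g := g) (S := S) (k := k) (c := c') (a := a) (x := x) (Θ := Θ) ?_
  refine ⟨Eventually.of_forall hB, hle (hQS.mono fun n hn => htw n hn), ?_, fun s => hle (hSs s)⟩
  exact (squeeze_zero hεp hεn tendsto_one_div_add_atTop_nhds_zero_nat).mono_left hle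

end Pool.Agent.H44.LB
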