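import Pool.Agent.H44.LB.RelA

/-!
# LEMMA A*: the field in the limit windows around the same critical point

`Sq`: a sequence of bad data `Bd` with towers. PROOF of `rel`. `T 0 = T' 0 = 0`. There is a small `r` with `Θ n s '' ball 0 r ⊆ Θ n s' '' ball 0 (1 / 2)` for `𝒰`-many `n`:
`‖deriv (Θ n s) 0‖ / lam n → ‖deriv T 0‖`, the same for `s'` (both limits `≠ 0`: `T`, `T'` injective), `univ_cover` (as in `inc`, H18/LA/Stg), `dis`. `tra` (H18/LA/Inv): `V n` on `ball 0 r`, values in `ball 0 (1 / 2)`, `Θ n s' (V n x) = Θ n s x`; `ulim`: `V`,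
`T' (V x) = T x`. Put `w = Θ n s x = Θ n s' (V n x) ∈ dm (K + k s')`, `p = k s' - k s`: `f^[m + p] (g (bc a s x)) = f^[p] (Φ (bc a s x)) = f^[k s'] w = Φ (bc a s' (V n x)) = f^[m] (g (bc a s' (V n x)))` (`tw_val`, `Bd.gv`).
`Cp` (H18/LA/Gc) with `G x = (g n (bc (a n) s x) - z) / σ n`, `k = m + p`; `G' x = (g n (bc (a n) s' (V n x)) - z) / σ n`, `k' = m`, `σ = σ' = ‖deriv (g n) 0‖ → 0` (`sm`), bounded by `dis`, `Bd.gz`, `bc_le`; `ne`: `deriv (f^[m]) (g v) * deriv g v = deriv Φ v ≠ 0`.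
Limits: `γ ∘ bc al s` and `γ ∘ bc al s' ∘ V` (`bc_lim`). `gc`, `gal_aff` (with a point where `deriv (γ ∘ bc al s) ≠ 0`: `bc_ne`). `τ ≠ 0`: `γ (bc al s' (V x))` is not constant: `bc_ne`, `V` open (injective), `γ` injective.
-/

set_option autoImplicit false

open Filter Topology Metric Set MeasureTheory

namespace Pool.Agent.H44.LB

open Pool.Agent.H56.UD Pool.Agent.H55.PB Pool.Agent.H56.WP

variable {f : ℂ → ℂ} {U J P Cr E : Set ℂ} {δ b0 : ℝ} {η : ℂ → ℂ → ℂ} {ρ : ℝ} {X hh μ : ℂ → ℂ}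

/-- sequences of bad data with towers of heights `→ ∞` -/
structure Sq (f : ℂ → ℂ) (U J P Cr : Set ℂ) (δ θ t M : ℝ) (𝒰 : Ultrafilter ℕ) (z : ℂ) (K m N : ℕ → ℕ) (y : ℕ → ℂ) (ε : ℕ → ℝ)
    (uc u0 : ℕ → ℂ) (Φ g : ℕ → ℂ → ℂ) (S : ℕ → ℕ) (k : ℕ → ℕ → ℕ) (c a x : ℕ → ℕ → ℂ) (Θ : ℕ → ℕ → ℂ → ℂ) : Prop where
  bd : ∀ᶠ n in (𝒰 : Filter ℕ), Bd f U J P δ θ t M z (K n) (m n) (N n) (y n) (ε n) (uc n) (u0 n) (Φ n) (g n)
  tw : ∀ᶠ n in (𝒰 : Filter ℕ), Tw f U J P Cr δ (K n) θ (y n) (ε n) (Φ n) z (N n) (u0 n) (S n) (k n) (c n) (a n) (x n) (Θ n)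
  e0 : Tendsto ε (𝒰 : Filter ℕ) (𝓝 0)
  Si : ∀ s : ℕ, ∀ᶠ n in (𝒰 : Filter ℕ), s ≤ S n

theorem rel (h : PS f U J P Cr δ η ρ) (hX : FX f U J E δ X hh μ b0) {θ t M : ℝ} (hθ : 0 < θ) (hθ1 : θ < 1) (ht : θ < t)
    (ht1 : t < 1) {𝒰 : Ultrafilter ℕ} {z : ℂ} (hz : z ∈ E) {K m N : ℕ → ℕ} {y : ℕ → ℂ} {ε : ℕ → ℝ}
    {uc u0 : ℕ → ℂ} {Φ g : ℕ → ℂ → ℂ} {S : ℕ → ℕ} {k : ℕ → ℕ → ℕ} {c a x : ℕ → ℕ → ℂ} {Θ : ℕ → ℕ → ℂ → ℂ}
    (hS : Sq f U J P Cr δ θ t M 𝒰 z K m N y ε uc u0 Φ g S k c a x Θ) {γ : ℂ → ℂ} (hγi : InjOn γ (ball 0 1))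
    (hγ : TendstoLocallyUniformlyOn (fun n v => (g n v - z) / (‖deriv (g n) 0‖ : ℂ)) γ (𝒰 : Filter ℕ) (ball 0 1))
    {al : ℕ → ℂ} (hal : ∀ i, Tendsto (fun n => a n (i + 1)) (𝒰 : Filter ℕ) (𝓝 (al (i + 1)))) {s s' : ℕ} (hs : 1 ≤ s)
    (hs' : s < s') {c0 : ℂ} (hc : ∀ᶠ n in (𝒰 : Filter ℕ), c n s = c0 ∧ c n s' = c0) {lam : ℕ → ℝ}
    (hl : ∀ᶠ n in (𝒰 : Filter ℕ), 0 < lam n) {T T' : ℂ → ℂ}
    (hT : TendstoLocallyUniformlyOn (fun n v => (Θ n s v - c0) / (lam n : ℂ)) T (𝒰 : Filter ℕ) (ball 0 1))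
    (hT' : TendstoLocallyUniformlyOn (fun n v => (Θ n s' v - c0) / (lam n : ℂ)) T' (𝒰 : Filter ℕ) (ball 0 1))
    (hTi : InjOn T (ball 0 1)) (hTi' : InjOn T' (ball 0 1)) :
    ∃ (τ : ℝ) (b : ℂ) (r : ℝ) (V : ℂ → ℂ), τ ≠ 0 ∧ 0 < r ∧ r ≤ 1 ∧ DifferentiableOn ℂ V (ball 0 r) ∧
      ∀ x ∈ ball (0 : ℂ) r, V x ∈ ball (0 : ℂ) 1 ∧ T' (V x) = T x ∧
        γ (bc al s' (V x)) = τ * γ (bc al s x) + b := by
  have hzJ := hX.EJ hz
  have ht0 : 0 < t := hθ.trans ht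
  have hδ := h.hδ
  obtain ⟨r1, hr1, hr1a, hr1b⟩ : ∃ r1 : ℝ, 0 < r1 ∧ r1 ≤ (t - θ) / 2 ∧ r1 ≤ 1 / 4 :=
    ⟨min ((t - θ) / 2) (1 / 4), lt_min (by linarith) (by norm_num), min_le_left _ _, min_le_right _ _⟩
  obtain ⟨D0, hD0, hdis0⟩ := Pool.Agent.H18.LA.dis (ρ0 := 1 / 2) (by norm_num) (by norm_num)
  obtain ⟨D, hD, hdis⟩ := Pool.Agent.H18.LA.dis ht0 ht1
  obtain ⟨ε0, C, hε0, hC, hsiz⟩ := tw_siz h (M := M) hθ hθ1 ht ht1 s s' hs hs'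
  have hDC : 1 ≤ D0 * C := one_le_mul_of_one_le_of_one_le hD0 hC
  obtain ⟨r, hr, hrr, hr2⟩ : ∃ r : ℝ, 0 < r ∧ r ≤ r1 ∧ D0 * C * r ≤ r1 / 16 := by
    refine ⟨r1 / (16 * (D0 * C)), by positivity, div_le_self hr1.le (by linarith), le_of_eq ?_⟩
    field_simp
  obtain ⟨ε1, hε1, hsm⟩ := Pool.Agent.H18.LA.sm h (ρ0 := t) (ε1 := δ / (4 * D)) ht0 ht1 (by positivity)
  have hsub : ball (0 : ℂ) r ⊆ ball 0 1 := ball_subset_ball (by linarith)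
  have h0r : (0 : ℂ) ∈ ball (0 : ℂ) r := mem_ball_self hr
  have h01 : (0 : ℂ) ∈ ball (0 : ℂ) 1 := mem_ball_self one_pos
  have huc : ∀ᶠ n in (𝒰 : Filter ℕ), uc n ∈ closedBall (0 : ℂ) t := hS.bd.mono fun n hn =>
    mem_closedBall_zero_iff.2 (hn.uc1.trans ht.le)
  -- the centres
  have hcen : ∀ s1, 1 ≤ s1 → ∀ᶠ n in (𝒰 : Filter ℕ), Θ n s1 0 = c n s1 := by
    intro s1 hs1
    filter_upwards [hS.tw, hS.Si s1] with n h1 h2
    obtain ⟨i, rfl⟩ : ∃ i, s1 = i + 1 := ⟨s1 - 1, by omega⟩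
    exact (h1.cc i (by omega)).2
  have hdi : ∀ s1, ∀ᶠ n in (𝒰 : Filter ℕ), DifferentiableOn ℂ (Θ n s1) (ball 0 1) := fun s1 => by
    filter_upwards [hS.tw, hS.Si s1] with n h1 h2
    exact (h1.wd s1 h2).diff
  have hTd : DifferentiableOn ℂ T (ball 0 1) := hT.differentiableOn
    ((hdi s).mono fun n hn => (hn.sub_const _).div_const _) isOpen_ball
  have hTd' : DifferentiableOn ℂ T' (ball 0 1) := hT'.differentiableOn
    ((hdi s').mono fun n hn => (hn.sub_const _).div_const _) isOpen_ball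
  have hT0 : T 0 = 0 := by
    refine tendsto_nhds_unique (hT.tendsto_at h01) (tendsto_const_nhds.congr' ?_)
    filter_upwards [hcen s hs, hc] with n h1 h2
    rw [h1, h2.1, sub_self, zero_div]
  have hT0' : T' 0 = 0 := by
    refine tendsto_nhds_unique (hT'.tendsto_at h01) (tendsto_const_nhds.congr' ?_)
    filter_upwards [hcen s' (by omega), hc] with n h1 h2
    rw [h1, h2.2, sub_self, zero_div]
  -- the transition maps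
  have hVex : ∀ᶠ n in (𝒰 : Filter ℕ), ∃ V : ℂ → ℂ, DifferentiableOn ℂ V (ball 0 r) ∧ InjOn V (ball 0 r) ∧
      ∀ x ∈ ball (0 : ℂ) r, V x ∈ ball (0 : ℂ) r1 ∧ Θ n s' (V x) = Θ n s x := by
    filter_upwards [hS.bd, hS.tw, hS.Si s', hS.e0.eventually_le_const hε0, hc, hcen s hs, hcen s' (by omega)]
      with n h1 h2 h3 h4 h5 h6 h7
    have h8 := h2.wd s (by omega)
    have h9 := h2.wd s' h3
    refine rel_tra hr1 hr1b hD0 hC hr hrr hr2 hdis0 h8.diff h8.inj h9.diff h9.inj (by rw [h6, h7, h5.1, h5.2]) ?_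
    exact (hsiz z hzJ _ _ _ _ _ _ _ _ _ _ _ _ _ _ _ h4 h1 h2 h3 (by rw [h5.1, h5.2])).1
  obtain ⟨V, hV⟩ := hVex.choice
  obtain ⟨Vl, hVld, hVlb, hVl⟩ := ulim 𝒰 (isOpen_ball (x := (0 : ℂ)) (ε := r)) (G := V) (M := r1)
    (hV.mono fun n hn => ⟨hn.1, fun u hu => (mem_ball_zero_iff.1 (hn.2.2 u hu).1).le⟩)
  have hVl1 : ∀ x ∈ ball (0 : ℂ) r, Vl x ∈ ball (0 : ℂ) 1 := fun x hx =>
    mem_ball_zero_iff.2 ((hVlb x hx).trans_lt (by linarith))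
  have hTV : ∀ x ∈ ball (0 : ℂ) r, T' (Vl x) = T x := by
    intro x hx
    refine tendsto_nhds_unique (tlu_seq 𝒰 isOpen_ball hT' hTd'.continuousOn (hVl1 x hx) (hVl.tendsto_at hx))
      ((hT.tendsto_at (hsub hx)).congr' ?_)
    filter_upwards [hV] with n hn
    rw [(hn.2.2 x hx).2]
  -- the frames
  have hCp : ∀ᶠ n in (𝒰 : Filter ℕ), Pool.Agent.H18.LA.Cp f U J δ z (m n + (k n s' - k n s)) (m n) ‖deriv (g n) 0‖ ‖deriv (g n) 0‖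
      0 r (D + |M|) (fun x => (g n (bc (a n) s x) - z) / (‖deriv (g n) 0‖ : ℂ))
      (fun x => (g n (bc (a n) s' (V n x)) - z) / (‖deriv (g n) 0‖ : ℂ)) := by
    filter_upwards [hS.bd, hS.tw, hS.Si s', hS.e0.eventually_le_const hε1, hV, huc] with n h1 h2 h3 h4 h5 h6
    have h7 := hsm _ _ _ _ _ h1.yJ h4 h1.wd ⟨uc n, h6, h1.ucJ⟩
    refine rel_one h hθ hθ1 ht ht1 hD hdis h1 h2 ?_ hs hs' h3 hr1a hr1b hrr h5.1 h5.2.2
    calc 2 * D * ‖deriv (Φ n) 0‖ ≤ 2 * D * (δ / (4 * D)) := mul_le_mul_of_nonneg_left h7 (by positivity)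
      _ = δ / 2 := by field_simp; ring
      _ < δ := by linarith
  have hgp : ∀ᶠ n in (𝒰 : Filter ℕ), 0 < ‖deriv (g n) 0‖ := by
    filter_upwards [hS.bd] with n h1
    have hgi : InjOn (g n) (ball 0 1) := fun v hv w hw he => h1.wd.inj hv hw (by
      rw [← (h1.gv v hv).2, ← (h1.gv w hw).2, he])
    exact (hdis (g n) h1.gd hgi 0 (mem_closedBall_self ht0.le) 0 (mem_closedBall_self ht0.le)).1
  have hσ0 : Tendsto (fun n => ‖deriv (g n) 0‖) (𝒰 : Filter ℕ) (𝓝 0) := by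
    rw [Metric.tendsto_nhds]
    intro e he
    obtain ⟨ε2, hε2, hsm2⟩ := Pool.Agent.H18.LA.sm h (ρ0 := t) (ε1 := e / 2) ht0 ht1 (by linarith)
    filter_upwards [hS.bd, hS.e0.eventually_le_const hε2, huc] with n h1 h2 h3
    have h4 := Pool.Agent.H18.LA.wd_lift h1.wd h1.gd h1.gv
    have h5 : g n (uc n) ∈ J := by
      have e1 := (h1.gv (uc n) (closedBall_subset_ball ht1 h3))
      refine J_back h e1.1 ?_
      rw [add_comm, Function.iterate_add_apply, e1.2]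
      exact J_it h _ h1.ucJ
    have h6 := hsm2 _ _ _ _ _ h1.yJ h2 h4 ⟨uc n, h3, h5⟩
    rw [dist_zero_right, norm_norm]
    linarith
  have hMp : 0 < D + |M| := by positivity
  -- the limits of the frames
  have ha : ∀ s, ∀ᶠ n in (𝒰 : Filter ℕ), ∀ i < s, ‖a n (i + 1)‖ ≤ ths θ i := by
    intro s
    filter_upwards [hS.tw, hS.Si s] with n hn hn2 i hi
    exact hn.ca i (lt_of_lt_of_le hi hn2)
  have hallt : ∀ i, ‖al (i + 1)‖ < 1 := fun i =>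
    (le_of_tendsto (hal i).norm ((ha (i + 1)).mono fun n hn => hn i (Nat.lt_succ_self i))).trans_lt (ths_lt hθ hθ1 i)
  have hbl : ∀ s, TendstoLocallyUniformlyOn (fun n => bc (a n) s) (bc al s) (𝒰 : Filter ℕ) (ball 0 1) := fun s =>
    bc_lim hθ hθ1 𝒰 (ha s) fun i _ => hal i
  have hbc : ∀ s, ContinuousOn (bc al s) (ball 0 1) := fun s => (bc_diff fun i _ => hallt i).continuousOn
  have hbm : ∀ s, ∀ x ∈ ball (0 : ℂ) 1, bc al s x ∈ ball (0 : ℂ) 1 := fun s x hx =>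
    mem_ball_zero_iff.2 (bc_lt (fun i _ => hallt i) (mem_ball_zero_iff.1 hx))
  have hγd : DifferentiableOn ℂ γ (ball 0 1) := hγ.differentiableOn
    (hS.bd.mono fun n hn => (hn.gd.sub_const _).div_const _) isOpen_ball
  obtain ⟨g1, g1d, -, g1l⟩ := ulim 𝒰 (isOpen_ball (x := (0 : ℂ)) (ε := r))
    (G := fun n x => (g n (bc (a n) s x) - z) / (‖deriv (g n) 0‖ : ℂ)) (M := D + |M|)
    (hCp.mono fun n hn => ⟨hn.dG, fun u hu => (hn.mG u hu).2⟩)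
  obtain ⟨g2, g2d, -, g2l⟩ := ulim 𝒰 (isOpen_ball (x := (0 : ℂ)) (ε := r))
    (G := fun n x => (g n (bc (a n) s' (V n x)) - z) / (‖deriv (g n) 0‖ : ℂ)) (M := D + |M|)
    (hCp.mono fun n hn => ⟨hn.dG', fun u hu => (hn.mG' u hu).2⟩)
  have hg1 : ∀ x ∈ ball (0 : ℂ) r, g1 x = γ (bc al s x) := fun x hx =>
    tendsto_nhds_unique (g1l.tendsto_at hx) (tlu_seq 𝒰 isOpen_ball hγ hγd.continuousOn (hbm s x (hsub hx))
      ((hbl s).tendsto_at (hsub hx)))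
  have hg2 : ∀ x ∈ ball (0 : ℂ) r, g2 x = γ (bc al s' (Vl x)) := fun x hx =>
    tendsto_nhds_unique (g2l.tendsto_at hx) (tlu_seq 𝒰 isOpen_ball hγ hγd.continuousOn (hbm s' _ (hVl1 x hx))
      (tlu_seq 𝒰 isOpen_ball (hbl s') (hbc s') (hVl1 x hx) (hVl.tendsto_at hx)))
  have key := Pool.Agent.H18.LA.gc h hX (𝒰 := 𝒰) (z := fun _ => z) (fun _ => hz) hgp hgp hσ0 hσ0 hr hMp hCp g1l g2l
  have hconv := (convex_ball (0 : ℂ) r)
  obtain ⟨w0, hw0, hw1⟩ : ∃ w ∈ ball (0 : ℂ) r, deriv g1 w ≠ 0 := by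
    by_contra hcon
    push Not at hcon
    obtain ⟨x, hx, hne⟩ := bc_ne (a := al) (s := s) (fun i _ => hallt i) hr (by linarith)
    have h1 : g1 x = g1 0 := IsOpen.is_const_of_deriv_eq_zero isOpen_ball hconv.isPreconnected g1d hcon hx h0r
    rw [hg1 x hx, hg1 0 h0r] at h1
    exact hne (hγi (hbm s x (hsub hx)) (hbm s 0 h01) h1)
  obtain ⟨τ, b, hτb⟩ := Pool.Agent.H18.LA.rmn isOpen_ball hconv.isPreconnected g1d g2d hw0 hw1 key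
  refine ⟨τ, b, r, Vl, ?_, hr, by linarith, hVld, fun x hx => ⟨hVl1 x hx, hTV x hx, ?_⟩⟩
  swap
  · rw [← hg2 x hx, ← hg1 x hx]
    exact hτb x hx
  rintro rfl
  -- `Vl` is injective and `Vl 0 = 0`
  have hV0 : Vl 0 = 0 := hTi' (hVl1 0 h0r) h01 (by rw [hTV 0 h0r, hT0, hT0'])
  have hVi : InjOn Vl (ball 0 r) := fun u hu v hv he => hTi (hsub hu) (hsub hv) (by rw [← hTV u hu, ← hTV v hv, he])
  have hopen : IsOpen (Vl '' ball 0 r) := by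
    rcases (hVld.analyticOnNhd isOpen_ball).is_constant_or_isOpen hconv.isPreconnected with ⟨w, hw⟩ | h1
    · exfalso
      have hx2 : ((r / 2 : ℝ) : ℂ) ∈ ball (0 : ℂ) r := by
        rw [mem_ball_zero_iff, Complex.norm_real, Real.norm_of_nonneg (by linarith)]
        linarith
      have h2 := hVi hx2 h0r (by rw [hw _ hx2, hw _ h0r])
      have h3 : r / 2 = 0 := by exact_mod_cast h2
      linarith
    · exact h1 _ Subset.rfl isOpen_ball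
  obtain ⟨r2, hr2p, hr2s⟩ := Metric.isOpen_iff.1 hopen 0 ⟨0, h0r, hV0⟩
  obtain ⟨x, hx, hne⟩ := bc_ne (a := al) (s := s') (fun i _ => hallt i) (lt_min hr2p one_pos) (min_le_right r2 1)
  obtain ⟨u, hu, hux⟩ := hr2s (ball_subset_ball (min_le_left r2 1) hx)
  have h1 := hτb u hu
  have h2 := hτb 0 h0r
  rw [hg2 u hu, hux] at h1
  rw [hg2 0 h0r, hV0] at h2
  rw [Complex.ofReal_zero, zero_mul, zero_add] at h1 h2
  exact hne (hγi (hbm s' x (ball_subset_ball (min_le_right r2 1) hx)) (hbm s' 0 h01) (h1.trans h2.symm))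

end Pool.Agent.H44.LB
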