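import Pool.Agent.H44.LB.Lim
import Pool.Agent.H18.LA.Gc
import Pool.Agent.H18.LA.Inv
import Pool.Agent.H18.LA.Rmn

/-!
# LEMMA A*: two windows of the tower around the same critical point, the frames at one stage
-/

set_option autoImplicit false

open Filter Topology Metric Set MeasureTheory

namespace Pool.Agent.H44.LB

open Pool.Agent.H56.UD Pool.Agent.H55.PB Pool.Agent.H56.WP
open Pool.Agent.H18.LA (Cp)

variable {f : ℂ → ℂ} {U J P Cr E : Set ℂ} {δ b0 : ℝ} {η : ℂ → ℂ → ℂ} {ρ : ℝ} {X hh μ : ℂ → ℂ}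

/-- the transition map -/
theorem rel_tra {r1 D C r : ℝ} (hr1 : 0 < r1) (hr1' : r1 ≤ 1 / 4) (hD : 1 ≤ D) (hC : 1 ≤ C) (hr : 0 < r) (hrr : r ≤ r1)
    (hr2 : D * C * r ≤ r1 / 16)
    (hdis : ∀ g : ℂ → ℂ, DifferentiableOn ℂ g (ball 0 1) → InjOn g (ball 0 1) → ∀ w ∈ closedBall (0 : ℂ) (1 / 2),
      ∀ w' ∈ closedBall (0 : ℂ) (1 / 2), 0 < ‖deriv g w‖ ∧ ‖deriv g w‖ ≤ D * ‖deriv g w'‖ ∧
        ‖g w - g w'‖ ≤ D * ‖deriv g 0‖ * ‖w - w'‖ ∧ ‖deriv g 0‖ * ‖w - w'‖ ≤ D * ‖g w - g w'‖)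
    {A B : ℂ → ℂ} (hA : DifferentiableOn ℂ A (ball 0 1)) (hAi : InjOn A (ball 0 1)) (hB : DifferentiableOn ℂ B (ball 0 1))
    (hBi : InjOn B (ball 0 1)) (h0 : A 0 = B 0) (hs : ‖deriv A 0‖ ≤ C * ‖deriv B 0‖) :
    ∃ V : ℂ → ℂ, DifferentiableOn ℂ V (ball 0 r) ∧ InjOn V (ball 0 r) ∧ ∀ x ∈ ball (0 : ℂ) r, V x ∈ ball (0 : ℂ) r1 ∧ B (V x) = A x := by
  have hz : (0 : ℂ) ∈ closedBall (0 : ℂ) (1 / 2) := mem_closedBall_self (by norm_num)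
  have hsub : A '' ball 0 r ⊆ B '' ball 0 r1 := by
    have h1 := Pool.Agent.H80.AJ.univ_cover (g := B) (c := 0) hr1 (hB.mono (ball_subset_ball (by linarith)))
      (hBi.mono (ball_subset_ball (by linarith)))
    refine subset_trans ?_ h1
    rintro _ ⟨x, hx, rfl⟩
    rw [mem_ball_zero_iff] at hx
    have h2 := (hdis A hA hAi x (mem_closedBall_zero_iff.2 (by linarith)) 0 hz).2.2.1
    rw [sub_zero] at h2
    have hB0 : 0 < ‖deriv B 0‖ := (hdis B hB hBi 0 hz 0 hz).1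
    have hA0 : 0 < ‖deriv A 0‖ := (hdis A hA hAi 0 hz 0 hz).1
    rw [mem_ball, dist_eq_norm, ← h0]
    calc ‖A x - A 0‖ ≤ D * ‖deriv A 0‖ * ‖x‖ := h2
      _ < D * ‖deriv A 0‖ * r := mul_lt_mul_of_pos_left hx (by positivity)
      _ ≤ D * (C * ‖deriv B 0‖) * r := by
        refine mul_le_mul_of_nonneg_right (mul_le_mul_of_nonneg_left hs (by linarith)) hr.le
      _ = D * C * r * ‖deriv B 0‖ := by ring
      _ ≤ r1 / 16 * ‖deriv B 0‖ := mul_le_mul_of_nonneg_right hr2 hB0.le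
      _ = _ := by ring
  obtain ⟨V, hV1, hV2, hV3, -⟩ := Pool.Agent.H18.LA.tra hB hBi hA hAi hr (by linarith) (ρ0 := r1) (by linarith) hsub
  exact ⟨V, hV1, hV2, hV3⟩

/-- the derivative of the iterate along a lift -/
theorem lift_ne (h : PS f U J P Cr δ η ρ) {m : ℕ} {Φ g : ℂ → ℂ} (hgd : DifferentiableOn ℂ g (ball 0 1))
    (hΦd : DifferentiableOn ℂ Φ (ball 0 1)) (hΦi : InjOn Φ (ball 0 1)) (hg : ∀ v ∈ ball (0 : ℂ) 1, f^[m] (g v) = Φ v) {v : ℂ}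
    (hv : v ∈ ball (0 : ℂ) 1) (hd : g v ∈ dm f U J δ m) : deriv (f^[m]) (g v) ≠ 0 := by
  have e1 : HasDerivAt g (deriv g v) v := (hgd.differentiableAt (isOpen_ball.mem_nhds hv)).hasDerivAt
  have e2 : HasDerivAt (f^[m]) (deriv (f^[m]) (g v)) (g v) :=
    ((dm_diff h m).differentiableAt ((dm_open h m).mem_nhds hd)).hasDerivAt
  have e3 : HasDerivAt (fun v => f^[m] (g v)) (deriv (f^[m]) (g v) * deriv g v) v := HasDerivAt.comp (h₂ := f^[m]) (h := g) v e2 e1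
  have e4 : deriv Φ v = deriv (f^[m]) (g v) * deriv g v := by
    rw [← e3.deriv]
    refine Filter.EventuallyEq.deriv_eq ?_
    filter_upwards [isOpen_ball.mem_nhds hv] with w hw
    exact (hg w hw).symm
  have e5 : deriv Φ v ≠ 0 := by
    rw [mem_ball_zero_iff] at hv
    obtain ⟨C, -, hC⟩ := Pool.Agent.H18.LA.dis (ρ0 := (1 + ‖v‖) / 2) (by positivity) (by linarith)
    have := (hC Φ hΦd hΦi v (mem_closedBall_zero_iff.2 (by linarith)) v (mem_closedBall_zero_iff.2 (by linarith))).1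
    exact norm_pos_iff.1 this
  intro h0
  rw [h0, zero_mul] at e4
  exact e5 e4

/-- the two frames at one stage -/
theorem rel_one (h : PS f U J P Cr δ η ρ) {θ t M D : ℝ} (hθ : 0 < θ) (hθ1 : θ < 1) (ht : θ < t) (ht1 : t < 1) (hD : 1 ≤ D)
    (hdis : ∀ g : ℂ → ℂ, DifferentiableOn ℂ g (ball 0 1) → InjOn g (ball 0 1) → ∀ w ∈ closedBall (0 : ℂ) t,
      ∀ w' ∈ closedBall (0 : ℂ) t, 0 < ‖deriv g w‖ ∧ ‖deriv g w‖ ≤ D * ‖deriv g w'‖ ∧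
        ‖g w - g w'‖ ≤ D * ‖deriv g 0‖ * ‖w - w'‖ ∧ ‖deriv g 0‖ * ‖w - w'‖ ≤ D * ‖g w - g w'‖)
    {z : ℂ} {K m N : ℕ} {y : ℂ} {ε : ℝ} {uc u0 : ℂ} {Φ g : ℂ → ℂ} (hB : Bd f U J P δ θ t M z K m N y ε uc u0 Φ g)
    {S : ℕ} {k : ℕ → ℕ} {c a x : ℕ → ℂ} {Θ : ℕ → ℂ → ℂ} (tw : Tw f U J P Cr δ K θ y ε Φ z N u0 S k c a x Θ)
    (hsm : 2 * D * ‖deriv Φ 0‖ < δ) {s s' : ℕ} (hs : 1 ≤ s) (hs' : s < s') (hS : s' ≤ S) {r r1 : ℝ} (hr1 : r1 ≤ (t - θ) / 2)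
    (hr1' : r1 ≤ 1 / 4) (hrr : r ≤ r1) {V : ℂ → ℂ} (hVd : DifferentiableOn ℂ V (ball 0 r))
    (hV : ∀ x ∈ ball (0 : ℂ) r, V x ∈ ball (0 : ℂ) r1 ∧ Θ s' (V x) = Θ s x) :
    Cp f U J δ z (m + (k s' - k s)) m ‖deriv g 0‖ ‖deriv g 0‖ 0 r (D + |M|)
      (fun x => (g (bc a s x) - z) / (‖deriv g 0‖ : ℂ)) (fun x => (g (bc a s' (V x)) - z) / (‖deriv g 0‖ : ℂ)) := by
  have ht0 : 0 < t := hθ.trans ht
  have hgi : InjOn g (ball 0 1) := fun v hv w hw he => hB.wd.inj hv hw (by rw [← (hB.gv v hv).2, ← (hB.gv w hw).2, he])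
  have hz : (0 : ℂ) ∈ closedBall (0 : ℂ) t := mem_closedBall_self ht0.le
  have hgp : 0 < ‖deriv g 0‖ := (hdis g hB.gd hgi 0 hz 0 hz).1
  have hgc : (‖deriv g 0‖ : ℂ) ≠ 0 := by exact_mod_cast hgp.ne'
  have hsub : ball (0 : ℂ) r ⊆ ball 0 1 := ball_subset_ball (by linarith)
  have hcb : closedBall (0 : ℂ) t ⊆ ball 0 1 := closedBall_subset_ball ht1
  -- the values of the Blaschke products
  have hbt : ∀ s, 1 ≤ s → s ≤ S → ∀ x ∈ ball (0 : ℂ) r1, bc a s x ∈ closedBall (0 : ℂ) t := by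
    intro s hs1 hs2 x hx
    rw [mem_ball_zero_iff] at hx
    have h1 := bc_lip (a := a) (s := s) (tw_a1 hθ hθ1 tw hs2) (x := x) (by linarith)
    have h2 : ‖bc a s 0‖ ≤ θ := by
      obtain ⟨s, rfl⟩ : ∃ i, s = i + 1 := ⟨s - 1, by omega⟩
      have h3 := tw_P h hθ hθ1 tw (s := s) (by omega)
      have h4 : bc a (s + 1) 0 = bc a s (a (s + 1)) := by
        show bc a s (bet (a (s + 1)) 0) = _
        rw [show bet (a (s + 1)) 0 = a (s + 1) by simp [bet]]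
      rwa [h4]
    rw [mem_closedBall_zero_iff]
    calc ‖bc a s x‖ = ‖(bc a s x - bc a s 0) + bc a s 0‖ := by rw [sub_add_cancel]
      _ ≤ ‖bc a s x - bc a s 0‖ + ‖bc a s 0‖ := norm_add_le _ _
      _ ≤ t := by linarith
  have hb1 : ∀ x ∈ ball (0 : ℂ) r, bc a s x ∈ closedBall (0 : ℂ) t := fun x hx =>
    hbt s hs (by omega) x (ball_subset_ball hrr hx)
  have hb2 : ∀ x ∈ ball (0 : ℂ) r, bc a s' (V x) ∈ closedBall (0 : ℂ) t := fun x hx =>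
    hbt s' (by omega) hS _ (hV x hx).1
  have hV1 : ∀ x ∈ ball (0 : ℂ) r, V x ∈ ball (0 : ℂ) 1 := fun x hx => ball_subset_ball (by linarith) (hV x hx).1
  -- near `J`
  have hth : ∀ v ∈ closedBall (0 : ℂ) t, Φ v ∈ thickening δ J := by
    intro v hv
    rw [mem_thickening_iff]
    refine ⟨Φ uc, hB.ucJ, ?_⟩
    have huc : uc ∈ closedBall (0 : ℂ) t := mem_closedBall_zero_iff.2 (hB.uc1.trans ht.le)
    have h1 := (hdis Φ hB.wd.diff hB.wd.inj v hv uc huc).2.2.1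
    rw [dist_eq_norm]
    have h2 : ‖v - uc‖ ≤ 2 := by
      have e1 := mem_closedBall_zero_iff.1 hv
      have e2 := mem_closedBall_zero_iff.1 huc
      calc ‖v - uc‖ ≤ ‖v‖ + ‖uc‖ := norm_sub_le _ _
        _ ≤ 2 := by linarith
    calc ‖Φ v - Φ uc‖ ≤ D * ‖deriv Φ 0‖ * ‖v - uc‖ := h1
      _ ≤ D * ‖deriv Φ 0‖ * 2 := mul_le_mul_of_nonneg_left h2 (by positivity)
      _ < δ := by linarith
  have hbd : ∀ v ∈ closedBall (0 : ℂ) t, ‖(g v - z) / (‖deriv g 0‖ : ℂ)‖ ≤ D + |M| := by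
    intro v hv
    rw [norm_div, Complex.norm_real, norm_norm, div_le_iff₀ hgp]
    have h1 := (hdis g hB.gd hgi v hv 0 hz).2.2.1
    rw [sub_zero] at h1
    have h2 : D * ‖deriv g 0‖ * ‖v‖ ≤ D * ‖deriv g 0‖ * 1 :=
      mul_le_mul_of_nonneg_left ((mem_closedBall_zero_iff.1 hv).trans ht1.le) (by positivity)
    have h3 : M * ‖deriv g 0‖ ≤ |M| * ‖deriv g 0‖ := mul_le_mul_of_nonneg_right (le_abs_self M) hgp.le
    calc ‖g v - z‖ ≤ ‖g v - g 0‖ + ‖g 0 - z‖ := norm_sub_le_norm_sub_add_norm_sub _ _ _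
      _ ≤ D * ‖deriv g 0‖ * 1 + |M| * ‖deriv g 0‖ := add_le_add (h1.trans h2) (hB.gz.trans h3)
      _ = _ := by ring
  have hz1 : ∀ v, z + (‖deriv g 0‖ : ℂ) * ((g v - z) / (‖deriv g 0‖ : ℂ)) = g v := by
    intro v
    rw [mul_div_cancel₀ _ hgc]
    ring
  -- the orbit
  have hkk := tw_k tw hs' hS
  have hw : ∀ u ∈ ball (0 : ℂ) r, f^[k s] (Θ s u) = Φ (bc a s u) ∧ f^[k s' - k s] (Φ (bc a s u)) = Φ (bc a s' (V u)) ∧
      Φ (bc a s u) ∈ dm f U J δ (k s' - k s) := by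
    intro u hu
    have e1 := tw_val hθ hθ1 tw (s := s) (by omega) (hsub hu)
    have e2 := tw_val hθ hθ1 tw hS (hV1 u hu)
    rw [(hV u hu).2] at e2
    have e3 : f^[k s' - k s] (Φ (bc a s u)) = Φ (bc a s' (V u)) := by
      rw [← e1, ← Function.iterate_add_apply, Nat.sub_add_cancel hkk.le, e2]
    refine ⟨e1, e3, ?_⟩
    have e4 := ((tw.wd s' hS).val _ (hV1 u hu)).1
    rw [(hV u hu).2, show K + k s' = k s + ((k s' - k s) + K) by omega] at e4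
    have e5 := dm_add e4
    rw [e1] at e5
    refine ⟨dm_U e5, ?_⟩
    rw [e3]
    exact hth _ (hb2 u hu)
  have hg1 : ∀ u ∈ ball (0 : ℂ) r, g (bc a s u) ∈ dm f U J δ (m + (k s' - k s)) := by
    intro u hu
    obtain ⟨e1, e2⟩ := hB.gv _ (hcb (hb1 u hu))
    refine dm_add' (dm_U e1) ?_
    rw [e2]
    exact (hw u hu).2.2
  have hg2 : ∀ u ∈ ball (0 : ℂ) r, g (bc a s' (V u)) ∈ dm f U J δ m := by
    intro u hu
    obtain ⟨e1, e2⟩ := hB.gv _ (hcb (hb2 u hu))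
    refine ⟨dm_U e1, ?_⟩
    rw [e2]
    exact hth _ (hb2 u hu)
  refine ⟨?_, ?_, fun u hu => ⟨?_, hbd _ (hb1 u hu)⟩, fun u hu => ⟨?_, hbd _ (hb2 u hu)⟩, fun u hu => ?_, fun u hu => ?_⟩
  · refine DifferentiableOn.div_const (DifferentiableOn.sub_const ?_ _) _
    exact hB.gd.comp ((bc_diff (tw_a1 hθ hθ1 tw (by omega))).mono hsub) fun u hu => hcb (hb1 u hu)
  · refine DifferentiableOn.div_const (DifferentiableOn.sub_const ?_ _) _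
    exact hB.gd.comp ((bc_diff (tw_a1 hθ hθ1 tw hS)).comp hVd hV1) fun u hu => hcb (hb2 u hu)
  · show z + (‖deriv g 0‖ : ℂ) * ((g (bc a s u) - z) / (‖deriv g 0‖ : ℂ)) ∈ _
    rw [hz1]
    exact hg1 u hu
  · show z + (‖deriv g 0‖ : ℂ) * ((g (bc a s' (V u)) - z) / (‖deriv g 0‖ : ℂ)) ∈ _
    rw [hz1]
    exact hg2 u hu
  · show f^[m + (k s' - k s)] (z + (‖deriv g 0‖ : ℂ) * ((g (bc a s u) - z) / (‖deriv g 0‖ : ℂ))) =
      f^[m] (z + (‖deriv g 0‖ : ℂ) * ((g (bc a s' (V u)) - z) / (‖deriv g 0‖ : ℂ)))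
    rw [hz1, hz1, (hB.gv _ (hcb (hb2 u hu))).2, add_comm, Function.iterate_add_apply, (hB.gv _ (hcb (hb1 u hu))).2, (hw u hu).2.1]
  · show deriv (f^[m]) (z + (‖deriv g 0‖ : ℂ) * ((g (bc a s' (V u)) - z) / (‖deriv g 0‖ : ℂ))) ≠ 0
    rw [hz1]
    exact lift_ne h hB.gd hB.wd.diff hB.wd.inj (fun v hv => (hB.gv v hv).2) (hcb (hb2 u hu)) (hg2 u hu)

end Pool.Agent.H44.LB
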