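import Pool.Agent.H44.LB.Bc
import Pool.Agent.H18.LA.Main
import Pool.Agent.H18.LA.Cmb

/-!
# LEMMA A*: towers exist

PROOFS. `tw_sub`, `tw_val`: induction. `tw_P`: `f^[K + ..] (f (c (s + 1))) ∈ P` (`h.CP`, `P_it`) is the value `f^[K] (Φ (bc a s (a (s + 1))))`: by `tw.st` at `v = 0`
(`bet α 0 = α`), `tw_val`: `f^[k (s + 1)] (c (s + 1)) = Φ (bc a s (a (s + 1)))`, `k (s + 1) ≥ 1`; `tw.wd 0`: `col`. `tw_ext`: `orb` (H56/WP/Stp) for the window `Θ S` of level `K + k S`, collar `ths θ S`, `x S` of norm `≤ rds θ t S` (`bc_rad`, `tw_x`), at the time `N - k S`: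
first alternative: the first alternative here; second: `k' = k` up to `S`, `k' (S + 1) = N - i`, `Θ' (S + 1) = Φ'`, `a' (S + 1) = a`, `c' (S + 1) = c`. `tw_top`: `cmpB` (H18/LA/Cmb) with `G = g1`, `H = g`, `B = bc a S` on `ball 0 r`, `r = 1 / 2`
(`bc_deriv`, `bc_nu`, `bc_le2`), `k = N`, `k' = m`: `f^[N] (g1 x) = f^[k S] (Θ S x) = Φ (bc a S x) = f^[m] (g (bc a S x))`; `‖g1 0 - z‖ = ‖g1 0 - g1 (x S)‖ ≤ C ‖deriv g1 0‖` (`dis`), small scales: `sm`. `deriv (f^[m]) (g v) ≠ 0`: `f^[m] ∘ g = Φ` univalent.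
`tw_ex`: induction on `S`; `S = 0`: `k = 0, x = u0, Θ = Φ` (constant sequences); step: `tw_ext`, whose first alternative is `Vis .. N` for `S = 0` (`Bd.nv`) and impossible by `tw_top` for `S ≥ 1`.
-/

set_option autoImplicit false

open Filter Topology Metric Set MeasureTheory

namespace Pool.Agent.H44.LB

open Pool.Agent.H56.UD Pool.Agent.H55.PB Pool.Agent.H56.WP
open Pool.Agent.H18.LA (dis sm cmpB wd_lift dm_low)

variable {f : ℂ → ℂ} {U J P Cr E : Set ℂ} {δ b0 : ℝ} {η : ℂ → ℂ → ℂ} {ρ : ℝ} {X hh μ : ℂ → ℂ}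
  {K : ℕ} {θ : ℝ} {y : ℂ} {ε : ℝ} {Φ : ℂ → ℂ} {z : ℂ} {N : ℕ} {u0 : ℂ} {S : ℕ} {k : ℕ → ℕ} {c a x : ℕ → ℂ} {Θ : ℕ → ℂ → ℂ}

theorem tw_a1 (hθ : 0 < θ) (hθ1 : θ < 1) (tw : Tw f U J P Cr δ K θ y ε Φ z N u0 S k c a x Θ) {s : ℕ} (hs : s ≤ S) :
    ∀ i < s, ‖a (i + 1)‖ < 1 := by
  intro i hi
  exact (tw.ca i (hi.trans_le hs)).trans_lt (ths_lt hθ hθ1 i)

theorem tw_k (tw : Tw f U J P Cr δ K θ y ε Φ z N u0 S k c a x Θ) {s s' : ℕ} (hs : s < s') (hs' : s' ≤ S) : k s < k s' := by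
  induction s' with
  | zero => omega
  | succ j ih =>
    have h1 := tw.kl j (by omega)
    rcases Nat.lt_or_ge s j with h2 | h2
    · exact (ih h2 (by omega)).trans h1
    · obtain rfl : s = j := by omega
      exact h1

theorem tw_sub (hθ : 0 < θ) (hθ1 : θ < 1) (tw : Tw f U J P Cr δ K θ y ε Φ z N u0 S k c a x Θ) {s s' : ℕ} (hs : s ≤ s') (hs' : s' ≤ S) {v : ℂ}
    (hv : v ∈ ball (0 : ℂ) 1) : ∃ w ∈ ball (0 : ℂ) 1, f^[k s' - k s] (Θ s' v) = Θ s w ∧ bc a s w = bc a s' v := by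
  induction s' generalizing v with
  | zero =>
    obtain rfl : s = 0 := by omega
    exact ⟨v, hv, by simp, rfl⟩
  | succ j ih =>
    rcases Nat.lt_or_ge j s with h2 | h2
    · obtain rfl : s = j + 1 := by omega
      exact ⟨v, hv, by simp, rfl⟩
    · have h3 : bet (a (j + 1)) v ∈ ball (0 : ℂ) 1 := bet_lt (tw_a1 hθ hθ1 tw hs' j (by omega)) hv
      obtain ⟨w, hw, hw1, hw2⟩ := ih h2 (by omega) h3
      refine ⟨w, hw, ?_, hw2⟩
      have h4 := tw.st j (by omega) v hv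
      have h5 : k s ≤ k j := by
        rcases h2.eq_or_lt with h | h
        · rw [h]
        · exact (tw_k tw h (by omega)).le
      have h6 := tw.kl j (by omega)
      rw [show k (j + 1) - k s = (k j - k s) + (k (j + 1) - k j) by omega, Function.iterate_add_apply, h4, hw1]

theorem tw_val (hθ : 0 < θ) (hθ1 : θ < 1) (tw : Tw f U J P Cr δ K θ y ε Φ z N u0 S k c a x Θ) {s : ℕ} (hs : s ≤ S) {v : ℂ}
    (hv : v ∈ ball (0 : ℂ) 1) : f^[k s] (Θ s v) = Φ (bc a s v) := by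
  obtain ⟨w, hw, h1, h2⟩ := tw_sub hθ hθ1 tw (Nat.zero_le s) hs hv
  rw [tw.k0, tw.T0, Nat.sub_zero] at h1
  rw [h1, ← h2]
  rfl

theorem tw_x (tw : Tw f U J P Cr δ K θ y ε Φ z N u0 S k c a x Θ) {s : ℕ} (hs : s ≤ S) : bc a s (x s) = u0 := by
  induction s with
  | zero => exact tw.x0
  | succ j ih =>
    show bc a j (bet (a (j + 1)) (x (j + 1))) = u0
    rw [tw.xb j (by omega)]
    exact ih (by omega)

/-- points of `P` are in the core -/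
theorem tw_P (h : PS f U J P Cr δ η ρ) (hθ : 0 < θ) (hθ1 : θ < 1) (tw : Tw f U J P Cr δ K θ y ε Φ z N u0 S k c a x Θ) {s : ℕ}
    (hs : s < S) : ‖bc a s (a (s + 1))‖ ≤ θ := by
  have h1 := tw_val hθ hθ1 tw (s := s + 1) (by omega) (mem_ball_self one_pos)
  have h2 : bc a (s + 1) 0 = bc a s (a (s + 1)) := by
    show bc a s (bet (a (s + 1)) 0) = bc a s (a (s + 1))
    congr 1
    simp [bet]
  have h3 : 0 < k (s + 1) := by
    have := tw_k tw (s := 0) (s' := s + 1) (Nat.succ_pos s) (by omega)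
    omega
  obtain ⟨h4, h5⟩ := tw.cc s hs
  rw [h5, h2] at h1
  have h6 : Φ (bc a s (a (s + 1))) ∈ P := by
    rw [← h1]
    obtain ⟨j, hj⟩ : ∃ j, k (s + 1) = j + 1 := ⟨k (s + 1) - 1, by omega⟩
    rw [hj, Function.iterate_succ_apply]
    exact P_it h j (h.CP _ h4)
  by_contra hcon
  push Not at hcon
  have h7 : ‖bc a s (a (s + 1))‖ < 1 := bc_lt (tw_a1 hθ hθ1 tw hs.le) ((tw.ca s hs).trans_lt (ths_lt hθ hθ1 s))
  have h8 := (tw.wd 0 (Nat.zero_le S)).col _ hcon h7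
  rw [tw.k0, tw.T0, Nat.add_zero] at h8
  exact h8 (P_it h K h6)

theorem tw_ext (h : PS f U J P Cr δ η ρ) {θ t : ℝ} (hθ : 0 < θ) (hθ1 : θ < 1) (ht : 0 < t) (ht1 : t < 1) (S : ℕ) :
    ∃ ε0 : ℝ, 0 < ε0 ∧ ε0 ≤ δ ∧ ∀ (K : ℕ) (y : ℂ) (ε : ℝ) (Φ : ℂ → ℂ) (z : ℂ) (N : ℕ) (u0 : ℂ) (k : ℕ → ℕ) (c a x : ℕ → ℂ) (Θ : ℕ → ℂ → ℂ),
      y ∈ J → ε ≤ ε0 → z ∈ J → ‖u0‖ ≤ t → Tw f U J P Cr δ K θ y ε Φ z N u0 S k c a x Θ →
      (∃ g : ℂ → ℂ, Wd f U J P δ (K + N) (ths θ S) y ε g ∧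
        (∀ v ∈ ball (0 : ℂ) 1, g v ∈ dm f U J δ (N + K) ∧ f^[N - k S] (g v) = Θ S v) ∧ g (x S) = z) ∨
      ∃ (k' : ℕ → ℕ) (c' a' x' : ℕ → ℂ) (Θ' : ℕ → ℂ → ℂ), Tw f U J P Cr δ K θ y ε Φ z N u0 (S + 1) k' c' a' x' Θ' := by
  obtain ⟨ε0, hε0, hε0δ, ho⟩ := orb h (ths_pos hθ S) (ths_lt hθ hθ1 S) (rds_pos hθ ht S) (rds_lt hθ hθ1 ht ht1 S)
  refine ⟨ε0, hε0, hε0δ, ?_⟩
  intro K y ε Φ z N u0 k c a x Θ hy hε hz hu0 tw
  have hkN := tw.kN S le_rfl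
  have hx1 := tw.xs S le_rfl
  have hxr : ‖x S‖ ≤ rds θ t S := by
    refine bc_rad hθ hθ1 ht ht1 (fun i hi => tw.ca i hi) hx1.1 ?_
    rw [tw_x tw le_rfl]
    exact hu0
  rcases ho (K + k S) y ε (Θ S) (x S) z (N - k S) hy hε (tw.wd S le_rfl) hz hxr hx1.2.symm with
    ⟨g, hg1, hg2, hg3⟩ | ⟨i, l, hil, g, hg1, hg2, hg3, c1, hc1, a1, v, Φ', hCv, x0, hx0, hx2, hx3⟩
  · left
    refine ⟨g, ?_, ?_, hg3⟩
    · have e : K + k S + (N - k S) = K + N := by omega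
      rwa [e] at hg1
    · intro v hv
      refine ⟨?_, (hg2 v hv).2⟩
      have e : N - k S + (K + k S) = N + K := by omega
      rw [← e]
      exact (hg2 v hv).1
  · right
    have hne : ∀ s ≤ S, s ≠ S + 1 := fun s hs => by omega
    have e1 : ∀ s ≤ S, Function.update k (S + 1) (N - i) s = k s := fun s hs => Function.update_of_ne (hne s hs) _ _
    have e2 : ∀ s ≤ S, Function.update c (S + 1) c1 s = c s := fun s hs => Function.update_of_ne (hne s hs) _ _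
    have e3 : ∀ s ≤ S, Function.update a (S + 1) a1 s = a s := fun s hs => Function.update_of_ne (hne s hs) _ _
    have e4 : ∀ s ≤ S, Function.update x (S + 1) x0 s = x s := fun s hs => Function.update_of_ne (hne s hs) _ _
    have e5 : ∀ s ≤ S, Function.update Θ (S + 1) Φ' s = Θ s := fun s hs => Function.update_of_ne (hne s hs) _ _
    have f1 : Function.update k (S + 1) (N - i) (S + 1) = N - i := Function.update_self _ _ _
    have f2 : Function.update c (S + 1) c1 (S + 1) = c1 := Function.update_self _ _ _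
    have f3 : Function.update a (S + 1) a1 (S + 1) = a1 := Function.update_self _ _ _
    have f4 : Function.update x (S + 1) x0 (S + 1) = x0 := Function.update_self _ _ _
    have f5 : Function.update Θ (S + 1) Φ' (S + 1) = Φ' := Function.update_self _ _ _
    refine ⟨Function.update k (S + 1) (N - i), Function.update c (S + 1) c1, Function.update a (S + 1) a1,
      Function.update x (S + 1) x0, Function.update Θ (S + 1) Φ', ?_, ?_, ?_, ?_, ?_, ?_, ?_, ?_, ?_, ?_, ?_⟩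
    · rw [e1 0 (Nat.zero_le _)]; exact tw.k0
    · rw [e4 0 (Nat.zero_le _)]; exact tw.x0
    · rw [e5 0 (Nat.zero_le _)]; exact tw.T0
    · intro s hs
      rcases Nat.lt_or_ge s S with h2 | h2
      · rw [e1 s h2.le, e1 (s + 1) h2]; exact tw.kl s h2
      · obtain rfl : s = S := by omega
        rw [e1 s le_rfl, f1]; omega
    · intro s hs
      rcases Nat.lt_or_ge S s with h2 | h2
      · obtain rfl : s = S + 1 := by omega
        rw [f1]; omega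
      · rw [e1 s h2]; exact tw.kN s h2
    · intro s hs
      rcases Nat.lt_or_ge S s with h2 | h2
      · obtain rfl : s = S + 1 := by omega
        rw [f1, f5]
        have e : K + (N - i) = K + k S + l + 1 := by omega
        rw [e]
        exact hCv.wd
      · rw [e1 s h2, e5 s h2]; exact tw.wd s h2
    · intro s hs
      rcases Nat.lt_or_ge s S with h2 | h2
      · rw [e3 (s + 1) h2]; exact tw.ca s h2
      · obtain rfl : s = S := by omega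
        rw [f3]; exact hCv.ca
    · intro s hs
      rcases Nat.lt_or_ge s S with h2 | h2
      · rw [e2 (s + 1) h2, e5 (s + 1) h2]; exact tw.cc s h2
      · obtain rfl : s = S := by omega
        rw [f2, f5]; exact ⟨hc1, hCv.z0⟩
    · intro s hs v1 hv1
      rcases Nat.lt_or_ge s S with h2 | h2
      · rw [e1 s h2.le, e1 (s + 1) h2, e3 (s + 1) h2, e5 (s + 1) h2, e5 s h2.le]; exact tw.st s h2 v1 hv1
      · obtain rfl : s = S := by omega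
        rw [e1 s le_rfl, f1, f3, f5, e5 s le_rfl]
        have e : N - i - k s = l + 1 := by omega
        rw [e, Function.iterate_succ_apply, (hCv.val v1 hv1).2]
        exact (hg2 _ (bet_lt (hCv.ca.trans_lt (ths_lt hθ hθ1 s)) hv1)).2
    · intro s hs
      rcases Nat.lt_or_ge S s with h2 | h2
      · obtain rfl : s = S + 1 := by omega
        rw [f4, f5, f1]
        have e : N - (N - i) = i := by omega
        rw [e]
        exact ⟨hx0, hx3⟩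
      · rw [e4 s h2, e5 s h2, e1 s h2]; exact tw.xs s h2
    · intro s hs
      rcases Nat.lt_or_ge s S with h2 | h2
      · rw [e3 (s + 1) h2, e4 (s + 1) h2, e4 s h2.le]; exact tw.xb s h2
      · obtain rfl : s = S := by omega
        rw [f3, f4, e4 s le_rfl]; exact hx2

/-- uniform bound on compact subsets of the disc -/
private theorem bc_ub {θ : ℝ} (hθ : 0 < θ) (hθ1 : θ < 1) (s : ℕ) : ∀ r : ℝ, 0 < r → r < 1 → ∃ ρ : ℝ, 0 < ρ ∧ ρ < 1 ∧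
    ∀ a : ℕ → ℂ, (∀ i < s, ‖a (i + 1)‖ ≤ ths θ i) → ∀ x : ℂ, ‖x‖ ≤ r → ‖bc a s x‖ ≤ ρ := by
  induction s with
  | zero => intro r hr hr1; exact ⟨r, hr, hr1, fun a _ x hx => hx⟩
  | succ s ih =>
    intro r hr hr1
    have h1 := ths_pos hθ s
    have h2 := ths_lt hθ hθ1 s
    have hr2 : r ^ 2 < 1 := by nlinarith
    obtain ⟨ρ, h3, h4, h5⟩ := ih ((ths θ s + r ^ 2) / (1 + ths θ s * r ^ 2)) (by positivity)
      (by rw [div_lt_one (by positivity)]; nlinarith)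
    refine ⟨ρ, h3, h4, fun a ha x hx => ?_⟩
    exact h5 a (fun i hi => ha i (by omega)) _ (bet_le hr1 h2 (ha s (by omega)) hx)

/-- the top window of a tower of positive height is not pulled back univalently -/
theorem tw_top (h : PS f U J P Cr δ η ρ) (hX : FX f U J E δ X hh μ b0) {θ t M : ℝ} (hθ : 0 < θ) (hθ1 : θ < 1) (ht : 0 < t)
    (ht1 : t < 1) (S : ℕ) (hS : 1 ≤ S) :
    ∃ ε0 : ℝ, 0 < ε0 ∧ ∀ z ∈ E, ∀ (K m N : ℕ) (y : ℂ) (ε : ℝ) (uc u0 : ℂ) (Φ g : ℂ → ℂ) (k : ℕ → ℕ) (c a x : ℕ → ℂ) (Θ : ℕ → ℂ → ℂ),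
      ε ≤ ε0 → Bd f U J P δ θ t M z K m N y ε uc u0 Φ g → Tw f U J P Cr δ K θ y ε Φ z N u0 S k c a x Θ →
      ∀ g1 : ℂ → ℂ, Wd f U J P δ (K + N) (ths θ S) y ε g1 →
        (∀ v ∈ ball (0 : ℂ) 1, g1 v ∈ dm f U J δ (N + K) ∧ f^[N - k S] (g1 v) = Θ S v) → g1 (x S) ≠ z := by
  obtain ⟨ρ1, hρ0, hρ1, hub⟩ := bc_ub hθ hθ1 S (1 / 2) (by norm_num) (by norm_num)
  obtain ⟨κ, hκ, hnu⟩ := bc_nu hθ hθ1 (r := 1 / 4) (by norm_num) (by norm_num) S
  have hrp := rds_pos hθ ht S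
  have hr1 := rds_lt hθ hθ1 ht ht1 S
  obtain ⟨ρm, hρm⟩ : ∃ ρm : ℝ, ρm = max (max (1 / 2) (rds θ t S)) (max θ ρ1) := ⟨_, rfl⟩
  have m1 : 1 / 2 ≤ ρm := by rw [hρm]; exact (le_max_left _ _).trans (le_max_left _ _)
  have m2 : rds θ t S ≤ ρm := by rw [hρm]; exact (le_max_right _ _).trans (le_max_left _ _)
  have m3 : θ ≤ ρm := by rw [hρm]; exact (le_max_left _ _).trans (le_max_right _ _)
  have m4 : ρ1 ≤ ρm := by rw [hρm]; exact (le_max_right _ _).trans (le_max_right _ _)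
  have m5 : ρm < 1 := by
    rw [hρm]
    exact max_lt (max_lt (by norm_num) hr1) (max_lt hθ1 hρ1)
  have m0 : 0 < ρm := by linarith
  obtain ⟨D, hD1, hD⟩ := dis m0 m5
  have hD0 : 0 < D := by linarith
  obtain ⟨ε3, hε3, hcmp⟩ := cmpB h hX (r := 1 / 2) (r' := 1 / 4) (ρ1 := ρ1) (κ := κ) (C := max D M) (by norm_num) (by norm_num)
    (by norm_num) hρ0 hρ1 hκ
  have hδ := h.hδ
  obtain ⟨τ, hτ, hτ1, hτ2⟩ : ∃ τ : ℝ, 0 < τ ∧ 2 * D * τ < δ ∧ τ ≤ ε3 := by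
    refine ⟨min (δ / (4 * D)) ε3, by positivity, ?_, min_le_right _ _⟩
    have h2 := mul_le_mul_of_nonneg_left (min_le_left (δ / (4 * D)) ε3) (by positivity : 0 ≤ 2 * D)
    have h3 : 2 * D * (δ / (4 * D)) = δ / 2 := by field_simp; ring
    linarith
  obtain ⟨ε4, hε4, hsm⟩ := sm h (ρ0 := ρm) (ε1 := τ) m0 m5 hτ
  refine ⟨ε4, hε4, ?_⟩
  intro z hz K m N y ε uc u0 Φ g k c a x Θ hε hB tw g1 hg1 hg1v hgz
  have zm : (0 : ℂ) ∈ closedBall (0 : ℂ) ρm := mem_closedBall_self m0.le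
  have hsubm : closedBall (0 : ℂ) ρm ⊆ ball 0 1 := closedBall_subset_ball m5
  have hucm : uc ∈ closedBall (0 : ℂ) ρm := mem_closedBall_zero_iff.2 (hB.uc1.trans m3)
  have hgW := wd_lift hB.wd hB.gd hB.gv
  have hguc : g uc ∈ J := by
    have e1 := hB.gv uc (hsubm hucm)
    refine J_back h e1.1 ?_
    rw [add_comm, Function.iterate_add_apply, e1.2]
    exact J_it h K hB.ucJ
  have hxS := tw.xs S le_rfl
  have hxr : ‖x S‖ ≤ rds θ t S := by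
    refine bc_rad hθ hθ1 ht ht1 (fun i hi => tw.ca i hi) hxS.1 ?_
    rw [tw_x tw le_rfl]
    exact hB.u1
  have hxm : x S ∈ closedBall (0 : ℂ) ρm := mem_closedBall_zero_iff.2 (hxr.trans m2)
  have s1 : ‖deriv Φ 0‖ ≤ τ := hsm _ _ y ε Φ hB.yJ hε hB.wd ⟨uc, hucm, hB.ucJ⟩
  have s2 : ‖deriv g 0‖ ≤ τ := hsm _ _ y ε g hB.yJ hε hgW ⟨uc, hucm, hguc⟩
  have s3 : ‖deriv g1 0‖ ≤ τ := hsm _ _ y ε g1 hB.yJ hε hg1 ⟨x S, hxm, by rw [hgz]; exact hX.EJ hz⟩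
  have hA : 2 * D * ‖deriv Φ 0‖ < δ := (mul_le_mul_of_nonneg_left s1 (by positivity)).trans_lt hτ1
  have hnear : ∀ w ∈ closedBall (0 : ℂ) ρm, Φ w ∈ thickening δ J := by
    intro w hw
    rw [mem_thickening_iff]
    refine ⟨Φ uc, hB.ucJ, ?_⟩
    rw [dist_eq_norm]
    have h1 := (hD Φ hB.wd.diff hB.wd.inj w hw uc hucm).2.2.1
    have h2 : ‖w - uc‖ ≤ 2 := by
      have e1 := norm_sub_le w uc
      have e2 := mem_closedBall_zero_iff.1 hw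
      have e3 := mem_closedBall_zero_iff.1 hucm
      linarith
    have h3 : D * ‖deriv Φ 0‖ * ‖w - uc‖ ≤ D * ‖deriv Φ 0‖ * 2 := mul_le_mul_of_nonneg_left h2 (by positivity)
    linarith
  have ha1 : ∀ i < S, ‖a (i + 1)‖ < 1 := tw_a1 hθ hθ1 tw le_rfl
  have hhalf : ball (0 : ℂ) (1 / 2) ⊆ ball 0 1 := ball_subset_ball (by norm_num)
  have hbm : ∀ x ∈ ball (0 : ℂ) (1 / 2), ‖bc a S x‖ ≤ ρ1 := fun x hx =>
    hub a (fun i hi => tw.ca i hi) x (mem_ball_zero_iff.1 hx).le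
  have hbm1 : ∀ x ∈ ball (0 : ℂ) (1 / 2), bc a S x ∈ closedBall (0 : ℂ) ρm := fun x hx =>
    mem_closedBall_zero_iff.2 ((hbm x hx).trans m4)
  have hkN := tw.kN S le_rfl
  have hit : ∀ x ∈ ball (0 : ℂ) (1 / 2), f^[N] (g1 x) = Φ (bc a S x) := by
    intro x hx
    rw [show N = k S + (N - k S) by omega, Function.iterate_add_apply, (hg1v x (hhalf hx)).2]
    exact tw_val hθ hθ1 tw le_rfl (hhalf hx)
  obtain ⟨T, hT⟩ : ∃ T : Set ℂ, T = ball (0 : ℂ) 1 ∩ Φ ⁻¹' thickening δ J := ⟨_, rfl⟩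
  have hTo : IsOpen T := by
    rw [hT]
    exact hB.wd.diff.continuousOn.isOpen_inter_preimage isOpen_ball isOpen_thickening
  have hTs : T ⊆ ball 0 1 := by rw [hT]; exact inter_subset_left
  have hTv : ∀ v ∈ T, g v ∈ dm f U J δ m ∧ f^[m] (g v) = Φ v := by
    intro v hv
    have e1 := hB.gv v (hTs hv)
    rw [hT] at hv
    refine ⟨dm_low e1.1 ?_, e1.2⟩
    rw [e1.2]
    exact hv.2
  obtain ⟨x1, hx1, hx2⟩ := hnu a (fun i hi => tw.ca i hi)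
  obtain ⟨j, hj⟩ : ∃ j, S = j + 1 := ⟨S - 1, by omega⟩
  refine hcmp z hz N m (bc a S) g1 g ⟨(bc_diff ha1).mono hhalf, hbm, ?_, ⟨x1, (mem_ball_zero_iff.1 hx1).le, hx2⟩,
    hg1.diff.mono hhalf, hg1.inj.mono hhalf, ?_, ?_, s3.trans hτ2, hB.gd, hgW.inj, ?_, ?_, s2.trans hτ2, ?_⟩
  · rw [hj]
    exact bc_deriv (by rw [← hj]; exact ha1)
  · intro x hx
    refine dm_low (hg1v x (hhalf hx)).1 ?_
    rw [hit x hx]
    exact hnear _ (hbm1 x hx)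
  · have e1 := (hD g1 hg1.diff hg1.inj 0 zm (x S) hxm).2.2.1
    rw [hgz, zero_sub, norm_neg] at e1
    refine e1.trans ?_
    have e2 : D * ‖deriv g1 0‖ * ‖x S‖ ≤ D * ‖deriv g1 0‖ * 1 := mul_le_mul_of_nonneg_left hxS.1.le (by positivity)
    rw [mul_one] at e2
    exact e2.trans (mul_le_mul_of_nonneg_right (le_max_left _ _) (norm_nonneg _))
  · intro x hx
    have hbT : bc a S x ∈ T := by
      rw [hT]
      exact ⟨hsubm (hbm1 x hx), hnear _ (hbm1 x hx)⟩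
    refine ⟨(hTv _ hbT).1, fun hz0 => ?_⟩
    have e1 := der_lift h hTo (hB.gd.mono hTs) hTv hbT
    rw [hz0, zero_mul] at e1
    have e2 := (hD Φ hB.wd.diff hB.wd.inj _ (hbm1 x hx) _ (hbm1 x hx)).1
    rw [← e1, norm_zero] at e2
    exact lt_irrefl _ e2
  · exact hB.gz.trans (mul_le_mul_of_nonneg_right (le_max_right _ _) (norm_nonneg _))
  · intro x hx
    rw [hit x hx, (hB.gv _ (hsubm (hbm1 x hx))).2]

theorem tw_ex (h : PS f U J P Cr δ η ρ) (hX : FX f U J E δ X hh μ b0) {θ t M : ℝ} (hθ : 0 < θ) (hθ1 : θ < 1) (ht : 0 < t)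
    (ht1 : t < 1) (S : ℕ) :
    ∃ ε0 : ℝ, 0 < ε0 ∧ ∀ z ∈ E, ∀ (K m N : ℕ) (y : ℂ) (ε : ℝ) (uc u0 : ℂ) (Φ g : ℂ → ℂ),
      ε ≤ ε0 → Bd f U J P δ θ t M z K m N y ε uc u0 Φ g →
      ∃ (k : ℕ → ℕ) (c a x : ℕ → ℂ) (Θ : ℕ → ℂ → ℂ), Tw f U J P Cr δ K θ y ε Φ z N u0 S k c a x Θ := by
  induction S with
  | zero =>
    refine ⟨1, one_pos, ?_⟩
    intro z hz K m N y ε uc u0 Φ g hε hB
    refine ⟨fun _ => 0, fun _ => 0, fun _ => 0, fun _ => u0, fun _ => Φ, rfl, rfl, rfl, ?_, ?_, ?_, ?_, ?_, ?_, ?_, ?_⟩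
    · intro s hs; omega
    · intro s hs; omega
    · intro s hs
      obtain rfl : s = 0 := by omega
      exact hB.wd
    · intro s hs; omega
    · intro s hs; omega
    · intro s hs; omega
    · intro s hs
      exact ⟨hB.u1.trans_lt ht1, hB.zN.symm⟩
    · intro s hs; omega
  | succ S ih =>
    obtain ⟨ε1, hε1, h1⟩ := ih
    obtain ⟨ε2, hε2, -, h2⟩ := tw_ext h hθ hθ1 ht ht1 S
    obtain ⟨ε3, hε3, h3⟩ : ∃ ε0 : ℝ, 0 < ε0 ∧ ∀ z ∈ E, ∀ (K m N : ℕ) (y : ℂ) (ε : ℝ) (uc u0 : ℂ) (Φ g : ℂ → ℂ) (k : ℕ → ℕ)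
        (c a x : ℕ → ℂ) (Θ : ℕ → ℂ → ℂ), ε ≤ ε0 → Bd f U J P δ θ t M z K m N y ε uc u0 Φ g →
        Tw f U J P Cr δ K θ y ε Φ z N u0 S k c a x Θ → ∀ g1 : ℂ → ℂ, Wd f U J P δ (K + N) (ths θ S) y ε g1 →
        (∀ v ∈ ball (0 : ℂ) 1, g1 v ∈ dm f U J δ (N + K) ∧ f^[N - k S] (g1 v) = Θ S v) → g1 (x S) ≠ z := by
      rcases Nat.eq_zero_or_pos S with hS | hS
      · refine ⟨1, one_pos, ?_⟩
        intro z hz K m N y ε uc u0 Φ g k c a x Θ hε hB tw g1 hg1 hg2 hg3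
        subst hS
        rw [tw.k0, tw.T0, Nat.sub_zero] at hg2
        rw [tw.x0] at hg3
        exact hB.nv ⟨u0, g1, hB.u1, hg1, hg2, hg3⟩
      · exact tw_top h hX hθ hθ1 ht ht1 S hS
    refine ⟨min ε1 (min ε2 ε3), lt_min hε1 (lt_min hε2 hε3), ?_⟩
    intro z hz K m N y ε uc u0 Φ g hε hB
    obtain ⟨k, c, a, x, Θ, tw⟩ := h1 z hz K m N y ε uc u0 Φ g (hε.trans (min_le_left _ _)) hB
    rcases h2 K y ε Φ z N u0 k c a x Θ hB.yJ (hε.trans ((min_le_right _ _).trans (min_le_left _ _))) (hX.EJ hz) hB.u1 tw with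
      ⟨g1, hg1, hg2, hg3⟩ | h4
    · exact absurd hg3 (h3 z hz K m N y ε uc u0 Φ g k c a x Θ (hε.trans ((min_le_right _ _).trans (min_le_right _ _))) hB tw
        g1 hg1 hg2)
    · exact h4

end Pool.Agent.H44.LB
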